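import Pool.Agent.Lib.H76.Pump.MainB
import Pool.Agent.Lib.Helper67.WG.Monsters

/-!
# Groups of subexponential growth have no free subsemigroups; monsters
-/

namespace Pool.Agent.H76.Pump

open Pool.Agent.Lib.Helper67.FCC Pool.Agent.Lib.Helper67.BA

universe u v

theorem noFreeSemigroup_of_subexp {G : Type u} [Group G] {S : Set G} (hSf : S.Finite)
    (hS : Subgroup.closure S = ⊤)
    (h : ∀ c : ℝ, 0 < c → ∃ r : ℕ,
      (Set.ncard {x : G | InBall S r x} : ℝ) < Real.exp (c * r)) : NoFreeSemigroup G := by
  classical
  intro a b
  by_contra hcon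
  push Not at hcon
  let e : List Bool → G := fun l => (l.map fun t => if t then a else b).prod
  have he : Function.Injective e := by
    intro v w hvw
    by_contra hne
    exact hcon v w hne hvw
  obtain ⟨K1, hK1⟩ := exists_inBall hS a
  obtain ⟨K2, hK2⟩ := exists_inBall hS b
  have hball : ∀ l : List Bool, InBall S (l.length * (K1 + K2)) (e l) := by
    intro l
    induction l with
    | nil => exact inBall_one S _
    | cons t l ih =>
      have h1 : e (t :: l) = (if t then a else b) * e l := by
        simp only [e, List.map_cons, List.prod_cons]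
      rw [h1]
      have h2 : InBall S (K1 + K2) (if t then a else b) := by
        cases t
        · exact hK2.mono (by omega)
        · exact hK1.mono (by omega)
      refine (h2.mul ih).mono ?_
      rw [List.length_cons]
      ring_nf
      exact le_rfl
  let D : ℕ := K1 + K2 + 1
  obtain ⟨c, hc, hgrow⟩ := exp_bound (N := fun r => Set.ncard {x : G | InBall S r x}) (D := D)
    (by omega) (by
      intro r
      let Φ : List.Vector Bool (r / D) → G := fun v => e v.1
      have hΦ : Function.Injective Φ := fun v w hvw => Subtype.ext (he hvw)
      have h2 : Set.range Φ ⊆ {x : G | InBall S r x} := by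
        rintro _ ⟨v, rfl⟩
        refine (hball v.1).mono ?_
        rw [v.2]
        calc r / D * (K1 + K2) ≤ r / D * D := Nat.mul_le_mul_left _ (by omega)
          _ ≤ r := Nat.div_mul_le_self r D
      have h3 := Set.ncard_le_ncard h2 (finite_ball hSf r)
      have h4 : Set.ncard (Set.range Φ) = 2 ^ (r / D) := by
        rw [← Set.image_univ, Set.ncard_image_of_injective _ hΦ, Set.ncard_univ,
          Nat.card_eq_fintype_card, card_vector, Fintype.card_bool]
      rwa [h4] at h3) (by
      intro r hr
      have h1 : ∃ s ∈ S, s ≠ 1 := by
        by_contra hcon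
        push Not at hcon
        have h2 : Subgroup.closure S ≤ ⊥ := by
          rw [Subgroup.closure_le]
          intro s hs
          exact Subgroup.mem_bot.2 (hcon s hs)
        rw [hS] at h2
        have h3 : ∀ g : G, g = 1 := fun g => Subgroup.mem_bot.1 (h2 (Subgroup.mem_top g))
        have h4 : e [true] = e [false] := by rw [h3 (e [true]), h3 (e [false])]
        exact absurd (he h4) (by simp)
      obtain ⟨s, hs, hs1⟩ := h1
      have h2 : ({s, 1} : Set G) ⊆ {x : G | InBall S r x} := by
        rintro x (rfl | rfl)
        · exact ⟨[x], by simpa using hr, by simpa using Or.inl hs, by simp⟩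
        · exact inBall_one S r
      have h3 := Set.ncard_le_ncard h2 (finite_ball hSf r)
      rwa [Set.ncard_pair hs1] at h3)
  obtain ⟨r, hr⟩ := h c hc
  exact absurd (hgrow r) (not_le.2 hr)

/-- Groups without virtual homomorphisms to the integers are not virtually indicable. -/
theorem not_virtInd {E : Type u} [Group E]
    (h : ∀ H : Subgroup E, H.FiniteIndex → ∀ f : H →* Multiplicative ℤ, f = 1) : ¬ VirtInd E := by
  rintro ⟨N, hN, f, hf⟩
  obtain ⟨g, hg⟩ := hf (Multiplicative.ofAdd 1)
  rw [h N hN f] at hg
  have h1 := congrArg Multiplicative.toAdd hg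
  simp at h1

end Pool.Agent.H76.Pump
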