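import Pool.Agent.Lib.H76.Pump.Comp

/-!
# The main theorems for chains
-/

namespace Pool.Agent.H76.Pump

open Pool.Agent.Lib.Helper67.FCC

universe u v

theorem IsChain.restrict {n : ℕ} {E : Type*} [Group E] {φ : FreeGroup (Fin n) →* E} {Ω : Type*}
    [MulAction E Ω] {ρ B : ℕ} {y : Ω} {N N' : ℕ} {F : ℕ → Set Ω} (h : IsChain φ ρ B y N F)
    (hN : N' ≤ N) : IsChain φ ρ B y N' F :=
  ⟨fun k hk => h.cut k (hk.trans hN), fun k hk => h.sep k (hk.trans_le hN)⟩

theorem arithC {n ρ b C : ℕ} (hC : 1 ≤ C) :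
    (2 * ρ + 2) ^ (b * C) * ((b * C + 1) ^ (b * C)) ^ (n * 2) ≤
      (((2 * n + 1) * (2 * ρ + 2) * (b + 1)) * C) ^
        (((2 * n + 1) * (2 * ρ + 2) * (b + 1)) * C) := by
  set K : ℕ := (2 * n + 1) * (2 * ρ + 2) * (b + 1) with hK
  have h1 : 2 * ρ + 2 ≤ K * C := by
    rw [hK]
    calc 2 * ρ + 2 = 1 * (2 * ρ + 2) * 1 * 1 := by ring
      _ ≤ (2 * n + 1) * (2 * ρ + 2) * (b + 1) * C :=
        Nat.mul_le_mul (Nat.mul_le_mul (Nat.mul_le_mul (by omega) le_rfl) (by omega)) hC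
  have h2 : b * C + 1 ≤ K * C := by
    rw [hK]
    calc b * C + 1 ≤ 1 * 1 * (b + 1) * C := by
          have : 1 * 1 * (b + 1) * C = b * C + C := by ring
          omega
      _ ≤ (2 * n + 1) * (2 * ρ + 2) * (b + 1) * C :=
        Nat.mul_le_mul (Nat.mul_le_mul (Nat.mul_le_mul (by omega) (by omega)) le_rfl) le_rfl
  have h3 : b * C + b * C * (n * 2) ≤ K * C := by
    rw [hK]
    calc b * C + b * C * (n * 2) = (2 * n + 1) * 1 * b * C := by ring
      _ ≤ (2 * n + 1) * (2 * ρ + 2) * (b + 1) * C :=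
        Nat.mul_le_mul (Nat.mul_le_mul (Nat.mul_le_mul le_rfl (by omega)) (by omega)) le_rfl
  set X : ℕ := K * C with hX
  have hX1 : 1 ≤ X := by omega
  calc (2 * ρ + 2) ^ (b * C) * ((b * C + 1) ^ (b * C)) ^ (n * 2)
      ≤ X ^ (b * C) * (X ^ (b * C)) ^ (n * 2) :=
        Nat.mul_le_mul (Nat.pow_le_pow_left h1 _)
          (Nat.pow_le_pow_left (Nat.pow_le_pow_left h2 _) _)
    _ = X ^ (b * C + b * C * (n * 2)) := by rw [pow_add, pow_mul (a := X) (m := b * C) (n := n * 2)]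
    _ ≤ X ^ X := Nat.pow_le_pow_right hX1 h3

/-- **Theorem A**, chain form. -/
theorem theoremAC (E : Type u) [Group E] [Group.IsFinitelyPresented E] (hE : ¬ VirtInd E)
    {S : Set E} (hSf : S.Finite) (hS : Subgroup.closure S = ⊤) :
    ∃ K D : ℕ, ∀ C : ℕ, 1 ≤ C → ∀ N : ℕ, (K * C) ^ (K * C) ≤ N →
      ∀ (V : Type v) [MulAction E V] (x : V) (F : ℕ → Set V), SChain S D C x N F →
        MulAction.orbit E x ⊆ F N := by
  obtain ⟨n, φ, Rel, ρ, hφ, hRel, hρ, hρR⟩ := exists_setup E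
  obtain ⟨ℓ, hℓ1, hℓ⟩ := exists_scale φ hS
  set b : ℕ := {w : List (Fin n × Bool) | w.length ≤ ρ}.ncard * {g : E | InBall S ℓ g}.ncard with hb
  refine ⟨(2 * n + 1) * (2 * ρ + 2) * (b + 1), ℓ * (2 * ρ + 3), fun C hC N hN V _ x F h => ?_⟩
  by_contra hcon
  apply hE
  have h1 : Nat.card (Code (Fin n × Bool) ρ (b * C)) ≤ N := by
    rw [card_code]
    exact (arithC hC).trans hN
  have h2 := h.isChain hφ hSf hℓ le_rfl h1 hcon (B := b * C) (by rw [hb, mul_assoc])
  exact chainA φ hφ Rel hRel hρ hρR (b * C) (quot_tr _) _ _ h2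

/-- **Theorem B**, chain form. -/
theorem theoremBC (E : Type u) [Group E] [Group.IsFinitelyPresented E] (hns : NoFreeSemigroup E)
    {S : Set E} (hSf : S.Finite) (hS : Subgroup.closure S = ⊤) :
    ∃ D : ℕ, ∀ C : ℕ, ∃ (N r : ℕ) (A : Subgroup E), A.FiniteIndex ∧
      ∀ (V : Type v) [MulAction E V] (x : V) (F : ℕ → Set V), SChain S D C x N F →
        OB S x r ⊆ F 0 → MulAction.orbit E x ⊆ F N ∨
          ∀ g ∈ A, ∀ h ∈ A, (g * h) • x = (h * g) • x := by
  obtain ⟨n, φ, Rel, ρ, hφ, hRel, hρ, hρR⟩ := exists_setup E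
  obtain ⟨ℓ, hℓ1, hℓ⟩ := exists_scale φ hS
  set b : ℕ := {w : List (Fin n × Bool) | w.length ≤ ρ}.ncard * {g : E | InBall S ℓ g}.ncard with hb
  refine ⟨ℓ * (2 * ρ + 3), fun C => ?_⟩
  obtain ⟨r, A, hA, hr⟩ := chainB φ hφ Rel hRel hρ hρR (b * C) hns
  refine ⟨Nat.card (Code (Fin n × Bool) ρ (b * C)), ℓ * r, A, hA, fun V _ x F h h0 => ?_⟩
  by_cases hcon : MulAction.orbit E x ⊆ F (Nat.card (Code (Fin n × Bool) ρ (b * C)))
  · exact Or.inl hcon
  right
  have h2 := h.isChain hφ hSf hℓ le_rfl le_rfl hcon (B := b * C) (by rw [hb, mul_assoc])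
  intro g hg g' hg'
  have h3 := hr (MulAction.stabilizer E x) _ h2 (by
    intro w hw
    -- all prefixes stay in `F 0`
    have h4 : ∀ w : List (Fin n × Bool), w.length ≤ r → run (lact φ) w
        ((1 : E) : E ⧸ MulAction.stabilizer E x) ∈
          {q | MulAction.ofQuotientStabilizer E x q ∈ F 0} := by
      intro w hw
      apply h0
      refine ⟨φ (FreeGroup.mk w), (hℓ w).mono (Nat.mul_le_mul_left ℓ hw), ?_⟩
      rw [run_lact, MulAction.ofQuotientStabilizer_smul, MulAction.ofQuotientStabilizer_mk,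
        one_smul]
    induction w with
    | nil => exact self_mem_cmp (h4 [] (by simp))
    | cons a w ih =>
      rw [List.length_cons] at hw
      rw [run_cons]
      refine cmp_step (ih (by omega)) a ?_
      have h5 := h4 (a :: w) (by rw [List.length_cons]; omega)
      rwa [run_cons] at h5) g hg g' hg'
  have h4 := congrArg (MulAction.ofQuotientStabilizer E x) h3
  rwa [MulAction.ofQuotientStabilizer_smul, MulAction.ofQuotientStabilizer_smul,
    MulAction.ofQuotientStabilizer_mk, one_smul] at h4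

end Pool.Agent.H76.Pump
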