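import Pool.Agent.Lib.H76.Pump.Hom

/-!
# Attaching a finite piece below a periodic tower of pieces
-/

namespace Pool.Agent.H76.Pump

universe u v v'

/-- A base `Ω₀` whose window around the level `i` is isomorphic to the lower window of `W`. -/
structure Att (L Ω₀ Ω : Type*) where
  W : Win L Ω
  act₀ : L → Ω₀ → Ω₀
  d₀ : Ω₀ → ℕ
  τ : Ω₀ → Ω
  τ' : Ω → Ω₀
  hd₀ : ∀ a x, d₀ (act₀ a x) ≤ d₀ x + 1
  hd₀' : ∀ a x, d₀ x ≤ d₀ (act₀ a x) + 1
  hτd : ∀ x, W.i ≤ d₀ x + W.ρ → d₀ x ≤ W.i + W.ρ → W.d (τ x) = d₀ x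
  hττ : ∀ x, W.i ≤ d₀ x + W.ρ → d₀ x ≤ W.i + W.ρ → τ' (τ x) = x
  hτ'd : ∀ x, W.i ≤ W.d x + W.ρ → W.d x ≤ W.i + W.ρ → d₀ (τ' x) = W.d x
  hτ'τ : ∀ x, W.i ≤ W.d x + W.ρ → W.d x ≤ W.i + W.ρ → τ (τ' x) = x
  heq₀ : ∀ a x, W.i ≤ d₀ x + W.ρ → d₀ x ≤ W.i + W.ρ → W.i ≤ d₀ (act₀ a x) + W.ρ →
    d₀ (act₀ a x) ≤ W.i + W.ρ → τ (act₀ a x) = W.act a (τ x)

namespace Att

variable {L Ω₀ Ω : Type*} (A : Att L Ω₀ Ω)

/-- The glued action of the letters. -/
def G (a : L) : Ω₀ ⊕ (Ω × ℤ) → Ω₀ ⊕ (Ω × ℤ)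
  | Sum.inl x => if A.d₀ (A.act₀ a x) ≤ A.W.i then Sum.inl (A.act₀ a x)
      else Sum.inr (A.τ (A.act₀ a x), 0)
  | Sum.inr p => if p.2 = 0 ∧ A.W.d (A.W.act a p.1) ≤ A.W.i then Sum.inl (A.τ' (A.W.act a p.1))
      else Sum.inr (A.W.F False a p)

/-- The glued set. -/
def VV : Ω₀ ⊕ (Ω × ℤ) → Prop
  | Sum.inl x => A.d₀ x ≤ A.W.i
  | Sum.inr p => A.W.i < A.W.d p.1 ∧ A.W.d p.1 ≤ A.W.j ∧ 0 ≤ p.2

theorem G_inl {a : L} {x : Ω₀} (h : A.d₀ (A.act₀ a x) ≤ A.W.i) :
    A.G a (Sum.inl x) = Sum.inl (A.act₀ a x) := if_pos h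

theorem G_inl' {a : L} {x : Ω₀} (h : ¬ A.d₀ (A.act₀ a x) ≤ A.W.i) :
    A.G a (Sum.inl x) = Sum.inr (A.τ (A.act₀ a x), 0) := if_neg h

theorem G_bot {a : L} {x : Ω} {k : ℤ} (hk : k = 0) (h : A.W.d (A.W.act a x) ≤ A.W.i) :
    A.G a (Sum.inr (x, k)) = Sum.inl (A.τ' (A.W.act a x)) := if_pos ⟨hk, h⟩

theorem G_F {a : L} {x : Ω} {k : ℤ} (h : ¬ (k = 0 ∧ A.W.d (A.W.act a x) ≤ A.W.i)) :
    A.G a (Sum.inr (x, k)) = Sum.inr (A.W.F False a (x, k)) := if_neg h

theorem W_mid {a : L} {x : Ω} {k : ℤ} (h1 : A.W.i < A.W.d (A.W.act a x))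
    (h2 : A.W.d (A.W.act a x) ≤ A.W.j) : A.W.F False a (x, k) = (A.W.act a x, k) :=
  A.W.F_mid False h2 (Or.inl h1)

theorem W_up {a : L} {x : Ω} {k : ℤ} (h1 : A.W.j < A.W.d (A.W.act a x)) :
    A.W.F False a (x, k) = (A.W.θ' (A.W.act a x), k + 1) := A.W.F_up False h1

theorem W_down {a : L} {x : Ω} {k : ℤ} (h1 : A.W.d (A.W.act a x) ≤ A.W.i) :
    A.W.F False a (x, k) = (A.W.θ (A.W.act a x), k - 1) :=
  A.W.F_down False h1 (fun h => h.1.elim)

theorem VV_G {a : L} {q : Ω₀ ⊕ (Ω × ℤ)} (hq : A.VV q) : A.VV (A.G a q) := by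
  have hj := A.W.hj
  have hρ := A.W.ρ1
  rcases q with x | ⟨x, k⟩
  · have h0 : A.d₀ x ≤ A.W.i := hq
    have hd := A.hd₀ a x
    by_cases h : A.d₀ (A.act₀ a x) ≤ A.W.i
    · rw [A.G_inl h]; exact h
    · rw [A.G_inl' h]
      have h1 := A.hτd (A.act₀ a x) (by omega) (by omega)
      exact ⟨by show A.W.i < A.W.d (A.τ (A.act₀ a x)); omega,
        by show A.W.d (A.τ (A.act₀ a x)) ≤ A.W.j; omega, le_refl (0 : ℤ)⟩
  · obtain ⟨h1, h2, h3⟩ : A.W.i < A.W.d x ∧ A.W.d x ≤ A.W.j ∧ 0 ≤ k := hq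
    have hd := A.W.hd a x
    have hd' := A.W.hd' a x
    by_cases h : k = 0 ∧ A.W.d (A.W.act a x) ≤ A.W.i
    · rw [A.G_bot h.1 h.2]
      have h4 := A.hτ'd (A.W.act a x) (by omega) (by omega)
      show A.d₀ (A.τ' (A.W.act a x)) ≤ A.W.i
      omega
    · rw [A.G_F h]
      by_cases c1 : A.W.j < A.W.d (A.W.act a x)
      · rw [A.W_up c1]
        have h4 := A.W.hθ'd (A.W.act a x) (by omega) (by omega)
        exact ⟨by show A.W.i < A.W.d (A.W.θ' (A.W.act a x)); omega,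
          by show A.W.d (A.W.θ' (A.W.act a x)) ≤ A.W.j; omega, by show 0 ≤ k + 1; omega⟩
      · by_cases c2 : A.W.d (A.W.act a x) ≤ A.W.i
        · rw [A.W_down c2]
          have h4 := A.W.hθd (A.W.act a x) (by omega) (by omega)
          have h5 : k ≠ 0 := fun h6 => h ⟨h6, c2⟩
          exact ⟨by show A.W.i < A.W.d (A.W.θ (A.W.act a x)); omega,
            by show A.W.d (A.W.θ (A.W.act a x)) ≤ A.W.j; omega, by show 0 ≤ k - 1; omega⟩
        · rw [A.W_mid (by omega) (by omega)]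
          exact ⟨by show A.W.i < A.W.d (A.W.act a x); omega,
            by show A.W.d (A.W.act a x) ≤ A.W.j; omega, h3⟩

theorem act_τ' {a : L} {z : Ω} (h1 : A.W.i < A.W.d z + A.W.ρ) (h2 : A.W.d z < A.W.i + A.W.ρ) :
    A.act₀ a (A.τ' z) = A.τ' (A.W.act a z) := by
  have h3 := A.hτ'd z (by omega) (by omega)
  have h4 := A.hd₀ a (A.τ' z)
  have h5 := A.hd₀' a (A.τ' z)
  have h6 := A.heq₀ a (A.τ' z) (by omega) (by omega) (by omega) (by omega)
  rw [A.hτ'τ z (by omega) (by omega)] at h6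
  rw [← h6, A.hττ _ (by omega) (by omega)]

/-- Charts at points of the base. -/
theorem chart_inl {x : Ω₀} (hx : A.VV (Sum.inl x)) :
    ∃ h : Ω₀ → Ω₀ ⊕ (Ω × ℤ), h x = Sum.inl x ∧ ∀ z : Ω₀, A.d₀ z < A.d₀ x + A.W.ρ →
      ∀ a : L, h (A.act₀ a z) = A.G a (h z) := by
  have hj := A.W.hj
  have hρ := A.W.ρ1
  have hx' : A.d₀ x ≤ A.W.i := hx
  refine ⟨fun z => if A.d₀ z ≤ A.W.i then Sum.inl z else Sum.inr (A.τ z, 0), by
    simp only [if_pos hx'], fun z hz a => ?_⟩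
  by_cases c : A.d₀ z ≤ A.W.i
  · simp only [if_pos c]
    rfl
  · simp only [if_neg c]
    have hd := A.hd₀ a z
    have hd' := A.hd₀' a z
    have h1 := A.heq₀ a z (by omega) (by omega) (by omega) (by omega)
    have h2 := A.hτd (A.act₀ a z) (by omega) (by omega)
    have h3 := A.hττ (A.act₀ a z) (by omega) (by omega)
    rw [h1] at h2 h3
    by_cases c2 : A.d₀ (A.act₀ a z) ≤ A.W.i
    · rw [if_pos c2, A.G_bot rfl (by rw [h2]; exact c2), h3]
    · rw [if_neg c2, A.G_F (by rw [h2]; exact fun h => c2 h.2), A.W_mid (by omega) (by omega), h1]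

/-- Charts at points of the tower. -/
theorem chart_inr {x : Ω} {k : ℤ} (hx : A.VV (Sum.inr (x, k))) :
    ∃ h : Ω → Ω₀ ⊕ (Ω × ℤ), h x = Sum.inr (x, k) ∧ ∀ z : Ω, A.W.d z < A.W.d x + A.W.ρ →
      A.W.d x < A.W.d z + A.W.ρ → ∀ a : L, h (A.W.act a z) = A.G a (h z) := by
  have hj := A.W.hj
  have hρ := A.W.ρ1
  obtain ⟨h1, h2, h3⟩ : A.W.i < A.W.d x ∧ A.W.d x ≤ A.W.j ∧ 0 ≤ k := hx
  let g : Ω → Ω₀ ⊕ (Ω × ℤ) := fun z => if A.W.d z ≤ A.W.i then
      (if k = 0 then Sum.inl (A.τ' z) else Sum.inr (A.W.θ z, k - 1))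
    else if A.W.d z ≤ A.W.j then Sum.inr (z, k) else Sum.inr (A.W.θ' z, k + 1)
  have g0 : ∀ z, A.W.d z ≤ A.W.i → k = 0 → g z = Sum.inl (A.τ' z) := fun z h h' => by
    simp only [g]; rw [if_pos h, if_pos h']
  have g1 : ∀ z, A.W.d z ≤ A.W.i → k ≠ 0 → g z = Sum.inr (A.W.θ z, k - 1) := fun z h h' => by
    simp only [g]; rw [if_pos h, if_neg h']
  have g2 : ∀ z, ¬ A.W.d z ≤ A.W.i → A.W.d z ≤ A.W.j → g z = Sum.inr (z, k) := fun z h h' => by
    simp only [g]; rw [if_neg h, if_pos h']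
  have g3 : ∀ z, A.W.j < A.W.d z → g z = Sum.inr (A.W.θ' z, k + 1) := fun z h => by
    simp only [g]; rw [if_neg (by omega), if_neg (by omega)]
  refine ⟨g, g2 x (by omega) h2, fun z hz hz' a => ?_⟩
  have hd := A.W.hd a z
  have hd' := A.W.hd' a z
  by_cases c1 : A.W.d z ≤ A.W.i
  · by_cases hk : k = 0
    · rw [g0 z c1 hk]
      have e1 := A.act_τ' (a := a) (z := z) (by omega) (by omega)
      have e2 := A.hτ'd (A.W.act a z) (by omega) (by omega)
      by_cases c2 : A.W.d (A.W.act a z) ≤ A.W.i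
      · rw [g0 _ c2 hk, A.G_inl (by rw [e1, e2]; exact c2), e1]
      · rw [g2 _ c2 (by omega), A.G_inl' (by rw [e1, e2]; exact c2), e1,
          A.hτ'τ _ (by omega) (by omega), hk]
    · rw [g1 z c1 hk]
      have e1 := A.W.hθd z (by omega) (by omega)
      have e2 := A.W.heq a z (by omega) (by omega) (by omega) (by omega)
      have e3 := A.W.hθd (A.W.act a z) (by omega) (by omega)
      have e4 := A.W.hθθ (A.W.act a z) (by omega) (by omega)
      rw [e2] at e3 e4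
      by_cases c2 : A.W.d (A.W.act a z) ≤ A.W.i
      · rw [g1 _ c2 hk, A.G_F (by omega), A.W_mid (by omega) (by omega), e2]
      · rw [g2 _ c2 (by omega), A.G_F (by omega), A.W_up (by omega), e4, sub_add_cancel]
  · by_cases c3 : A.W.d z ≤ A.W.j
    · rw [g2 z c1 c3]
      by_cases c2 : A.W.d (A.W.act a z) ≤ A.W.i
      · by_cases hk : k = 0
        · rw [g0 _ c2 hk, A.G_bot hk c2]
        · rw [g1 _ c2 hk, A.G_F (fun h => hk h.1), A.W_down c2]
      · rw [A.G_F (fun h => c2 h.2)]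
        by_cases c4 : A.W.d (A.W.act a z) ≤ A.W.j
        · rw [g2 _ c2 c4, A.W_mid (by omega) c4]
        · rw [g3 _ (by omega), A.W_up (by omega)]
    · rw [g3 z (by omega)]
      have e1 := A.W.hθ'd z (by omega) (by omega)
      have e2 := A.W.hθ'θ z (by omega) (by omega)
      have hda := A.W.hd a (A.W.θ' z)
      have hda' := A.W.hd' a (A.W.θ' z)
      have e3 := A.W.heq a (A.W.θ' z) (by omega) (by omega) (by omega) (by omega)
      rw [e2] at e3
      have e4 := A.W.hθd (A.W.act a (A.W.θ' z)) (by omega) (by omega)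
      have e5 := A.W.hθθ (A.W.act a (A.W.θ' z)) (by omega) (by omega)
      rw [e3] at e4 e5
      rw [A.G_F (by omega)]
      by_cases c2 : A.W.d (A.W.act a z) ≤ A.W.j
      · rw [g2 _ (by omega) c2, A.W_down (by omega), e3, add_sub_cancel_right]
      · rw [g3 _ (by omega), A.W_mid (by omega) (by omega), e5]

theorem d₀_run (w : List L) (x : Ω₀) : A.d₀ (run A.act₀ w x) ≤ A.d₀ x + w.length := by
  induction w with
  | nil => simp
  | cons a w ih =>
    have h1 := A.hd₀ a (run A.act₀ w x)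
    rw [run_cons, List.length_cons]
    omega

/-- Words of length at most `ρ` which act trivially on both sets act trivially on the glued
set. -/
theorem run_eq {w : List L} (hw : w.length ≤ A.W.ρ) (h₀ : ∀ x, run A.act₀ w x = x)
    (h : ∀ x, run A.W.act w x = x) {q : Ω₀ ⊕ (Ω × ℤ)} (hq : A.VV q) : run A.G w q = q := by
  rcases q with x | ⟨x, k⟩
  · obtain ⟨g, h1, h2⟩ := A.chart_inl hq
    have key : ∀ v : List L, v.length ≤ A.W.ρ → run A.G v (Sum.inl x) = g (run A.act₀ v x) := by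
      intro v
      induction v with
      | nil => intro _; exact h1.symm
      | cons a v ih =>
        intro hv
        rw [List.length_cons] at hv
        rw [run_cons, run_cons, ih (by omega)]
        have h3 := A.d₀_run v x
        exact (h2 _ (by omega) a).symm
    rw [key w hw, h₀, h1]
  · obtain ⟨g, h1, h2⟩ := A.chart_inr hq
    have key : ∀ v : List L, v.length ≤ A.W.ρ →
        run A.G v (Sum.inr (x, k)) = g (run A.W.act v x) := by
      intro v
      induction v with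
      | nil => intro _; exact h1.symm
      | cons a v ih =>
        intro hv
        rw [List.length_cons] at hv
        rw [run_cons, run_cons, ih (by omega)]
        have h3 := A.W.d_run v x
        exact (h2 _ (by omega) (by omega) a).symm
    rw [key w hw, h, h1]

/-- The action on the glued set. -/
def Gs (a : L) (q : {q : Ω₀ ⊕ (Ω × ℤ) // A.VV q}) : {q : Ω₀ ⊕ (Ω × ℤ) // A.VV q} :=
  ⟨A.G a q.1, A.VV_G q.2⟩

theorem run_Gs (w : List L) (q : {q : Ω₀ ⊕ (Ω × ℤ) // A.VV q}) :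
    (run A.Gs w q).1 = run A.G w q.1 := by
  induction w with
  | nil => rfl
  | cons a w ih => rw [run_cons, run_cons, ← ih]; rfl

/-- Deep in the tower the action is the two-sided one. -/
theorem run_deep {w : List L} {p : Ω × ℤ} (h : (w.length : ℤ) < p.2) :
    run A.G w (Sum.inr p) = Sum.inr (run (A.W.F False) w p) := by
  induction w with
  | nil => rfl
  | cons a w ih =>
    rw [List.length_cons] at h
    push_cast at h
    rw [run_cons, run_cons, ih (by omega)]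
    have h1 := A.W.run_snd False w p
    exact A.G_F (x := (run (A.W.F False) w p).1) (k := (run (A.W.F False) w p).2) (by
      rintro ⟨h2, -⟩; omega)

/-- In the base the action is the original one. -/
theorem run_shallow {w : List L} {x : Ω₀}
    (h : ∀ v : List L, v.length ≤ w.length → A.d₀ (run A.act₀ v x) ≤ A.W.i) :
    run A.G w (Sum.inl x) = Sum.inl (run A.act₀ w x) := by
  induction w with
  | nil => rfl
  | cons a w ih =>
    rw [run_cons, run_cons, ih (fun v hv => h v (by rw [List.length_cons]; omega))]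
    exact A.G_inl (h (a :: w) le_rfl)

end Att

end Pool.Agent.H76.Pump
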