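import Pool.Agent.Lib.H76.Pump.MainA

/-!
# Actions of linear growth of groups without free semigroups
-/

namespace Pool.Agent.H76.Pump

open Pool.Agent.Lib.Helper67.FCC

universe u v

/-- The kernel in a finite index subgroup. -/
theorem exists_kernel {E : Type u} [Group E] (hfg : Group.FG E) (hns : NoFreeSemigroup E)
    (E1 : Subgroup E) [hn : E1.Normal] (hf : E1.FiniteIndex) :
    ∃ K : Subgroup E, K.FG ∧ K.Normal ∧ K ≤ E1 ∧
      (∀ g (hg : g ∈ E1), g ∈ K → ∀ χ : E1 →* Multiplicative ℤ, χ ⟨g, hg⟩ = 1) ∧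
      (∀ g ∈ E1, ∀ h ∈ E1, (h * g)⁻¹ * (g * h) ∈ K) := by
  have h1 : Group.FG E1 :=
    Subgroup.fg_of_index_ne_zero E1
  obtain ⟨K', hK', hK2⟩ := exists_common_kernel h1 (hns.subgroup E1)
  refine ⟨K'.map E1.subtype, fg_map _ hK', ?_, ?_, ?_, ?_⟩
  · constructor
    rintro _ ⟨x, hx, rfl⟩ g
    refine ⟨⟨g * x * g⁻¹, hn.conj_mem x x.2 g⟩, ?_, rfl⟩
    rw [SetLike.mem_coe, hK2]
    intro χ
    have h2 := (hK2 x).1 hx (χ.comp (MulAut.conjNormal (H := E1) g).toMonoidHom)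
    have h3 : (MulAut.conjNormal (H := E1) g) x = ⟨g * x * g⁻¹, hn.conj_mem x x.2 g⟩ :=
      Subtype.ext (MulAut.conjNormal_apply g x)
    rw [← h3]
    exact h2
  · rintro _ ⟨x, -, rfl⟩
    exact x.2
  · rintro _ hg ⟨x, hx, rfl⟩ χ
    exact (hK2 x).1 hx χ
  · intro g hg h hh
    refine ⟨(⟨h, hh⟩ * ⟨g, hg⟩)⁻¹ * (⟨g, hg⟩ * ⟨h, hh⟩), ?_, rfl⟩
    rw [SetLike.mem_coe, hK2]
    intro χ
    rw [map_mul, map_inv, map_mul, map_mul, mul_comm (χ ⟨h, hh⟩), inv_mul_cancel]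

/-- Averaging: among many annuli one is small. -/
theorem exists_annulus {Ω : Type v} (d : Ω → ℕ) (hfin : ∀ r, {x | d x ≤ r}.Finite)
    {r w c r' : ℕ} (hw : 1 ≤ w) (hr' : r + (r + 1) * w ≤ r')
    (hb : {x | d x ≤ r'}.ncard ≤ c * (r' + 1)) :
    ∃ k : ℕ, r + k * w + w ≤ r' ∧
      {x | r + k * w < d x ∧ d x ≤ r + k * w + w}.ncard ≤ 3 * c * w := by
  classical
  by_contra hcon
  push Not at hcon
  let k0 : ℕ := (r' - r) / w
  have hk0 : r + 1 ≤ k0 := by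
    simp only [k0]
    rw [Nat.le_div_iff_mul_le (by omega)]
    omega
  have hk1 : k0 * w ≤ r' - r := Nat.div_mul_le_self _ _
  have hk2 : r' - r < k0 * w + w := Nat.lt_div_mul_add (by omega)
  let A : Finset Ω := (hfin r').toFinset
  have hA : ∀ x, x ∈ A ↔ d x ≤ r' := by
    intro x
    simp [A]
  have hAc : A.card ≤ c * (r' + 1) := by
    rw [Set.ncard_eq_toFinset_card _ (hfin r')] at hb
    exact hb
  let fib : ℕ → Finset Ω := fun k => A.filter fun x => r + k * w < d x ∧ d x ≤ r + k * w + w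
  have hfib : ∀ k, k < k0 → 3 * c * w < (fib k).card := by
    intro k hk
    have h1 : (k + 1) * w ≤ k0 * w := Nat.mul_le_mul_right _ hk
    have h2 : (k + 1) * w = k * w + w := by ring
    have h3 := hcon k (by omega)
    have h4 : {x | r + k * w < d x ∧ d x ≤ r + k * w + w} = (fib k : Set Ω) := by
      ext x
      simp only [fib, Finset.coe_filter, hA]
      constructor
      · rintro ⟨h5, h6⟩
        exact ⟨by omega, h5, h6⟩
      · rintro ⟨-, h5, h6⟩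
        exact ⟨h5, h6⟩
    rw [h4, Set.ncard_coe_finset] at h3
    exact h3
  have hdisj : ((Finset.range k0 : Finset ℕ) : Set ℕ).PairwiseDisjoint fib := by
    have key : ∀ i j, i < j → Disjoint (fib i) (fib j) := by
      intro i j hij
      rw [Finset.disjoint_left]
      intro x hx hx'
      simp only [fib, Finset.mem_filter] at hx hx'
      have h1 : (i + 1) * w ≤ j * w := Nat.mul_le_mul_right _ hij
      have h2 : (i + 1) * w = i * w + w := by ring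
      omega
    intro i _ j _ hij
    rcases Nat.lt_or_gt_of_ne hij with h | h
    · exact key i j h
    · exact (key j i h).symm
  have hsum : (Finset.range k0).card • (3 * c * w + 1) ≤ A.card := by
    calc (Finset.range k0).card • (3 * c * w + 1) ≤ ∑ k ∈ Finset.range k0, (fib k).card :=
          Finset.card_nsmul_le_sum _ _ _ fun k hk => hfib k (Finset.mem_range.1 hk)
      _ = ((Finset.range k0).biUnion fib).card := (Finset.card_biUnion hdisj).symm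
      _ ≤ A.card := Finset.card_le_card (Finset.biUnion_subset.2 fun k _ =>
          Finset.filter_subset _ _)
  rw [Finset.card_range, smul_eq_mul] at hsum
  have h1 : r' + 1 ≤ 3 * (k0 * w) := by
    have h2 : k0 * 1 ≤ k0 * w := Nat.mul_le_mul_left _ hw
    have h3 : 1 * w ≤ k0 * w := Nat.mul_le_mul_right _ (by omega)
    omega
  have h2 : c * (r' + 1) ≤ c * (3 * (k0 * w)) := Nat.mul_le_mul_left _ h1
  have h3 : k0 * (3 * c * w + 1) = c * (3 * (k0 * w)) + k0 := by ring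
  omega

/-- One scale suffices. -/
theorem fix_of_ball {n : ℕ} {E : Type u} [Group E] (φ : FreeGroup (Fin n) →* E)
    (hφ : Function.Surjective φ) (Rel : Set (FreeGroup (Fin n)))
    (hRel : Subgroup.normalClosure Rel = φ.ker) {ρ : ℕ} (hρ : 2 ≤ ρ)
    (hρR : ∀ r ∈ Rel, r.toWord.length ≤ ρ) (c : ℕ) (Q : ℕ)
    (hQ : Q = (3 * c * (2 * ρ + 1) + 1) *
      Nat.card (Code (Fin n × Bool) ρ (3 * c * (2 * ρ + 1))) + 1)
    (m0 : ℕ) (hm0 : m0 = 3 * c * (Q * (2 * ρ + 1)))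
    (K : Subgroup E) (hKn : K.Normal) (hK1 : K ≤ E0 E m0)
    (hK2 : ∀ g (hg : g ∈ E0 E m0), g ∈ K → ∀ χ : E0 E m0 →* Multiplicative ℤ, χ ⟨g, hg⟩ = 1)
    (r : ℕ) (T : Set E) (hT : Subgroup.closure T = K)
    (hTr : ∀ g ∈ T, ∃ w : List (Fin n × Bool), w.length ≤ r ∧ φ (FreeGroup.mk w) = g)
    {r' : ℕ} (hr' : r + (r + 1) * (Q * (2 * ρ + 1)) ≤ r')
    {Ω : Type v} [MulAction E Ω] (y : Ω) (htr : ∀ x : Ω, ∃ g : E, g • y = x)
    (hbig : ∃ x, r' < dist φ y x) (hb : {x | dist φ y x ≤ r'}.ncard ≤ c * (r' + 1)) :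
    ∀ g ∈ K, g • y = y := by
  have hfin := dist_ball_finite φ y hφ htr
  have hQ1 : 1 ≤ Q := by omega
  obtain ⟨k, hk1, hk2⟩ := exists_annulus (dist φ y) hfin (w := Q * (2 * ρ + 1))
    (Nat.mul_pos hQ1 (by omega)) hr' hb
  rw [← hm0] at hk2
  obtain ⟨W, hW1, hW2, hW3, hW4, hW5⟩ := exists_win (lact φ) (dist φ y) ρ (by omega)
    (dist_act φ y hφ htr) (dist_act' φ y hφ htr) hfin (r + k * (Q * (2 * ρ + 1))) Q
    (3 * c * (2 * ρ + 1)) m0 hk2 (by
      rw [hm0]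
      set D : ℕ := 3 * c * (2 * ρ + 1) with hD
      have h1 : 3 * c * (Q * (2 * ρ + 1)) = D * Q := by rw [hD]; ring
      rw [h1]
      have h2 : (D + 1) * Q = D * Q + Q := by ring
      rw [h2]
      omega)
  obtain ⟨x₀, hx₀⟩ := hbig
  obtain ⟨z, hz⟩ := exists_dist_eq φ y hφ htr (x := x₀) (r := W.j) (by omega)
  have hj := W.hj
  have hzM : W.i < W.d z ∧ W.d z ≤ W.j := by
    rw [hW2]
    omega
  have hMd : Nat.card (Md W) ≤ m0 := by
    refine le_trans ?_ hk2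
    have h1 : Nat.card (Md W) = {x | W.i < W.d x ∧ W.d x ≤ W.j}.ncard :=
      Nat.card_coe_set_eq _
    rw [h1]
    apply Set.ncard_le_ncard _ ((hfin (r + k * (Q * (2 * ρ + 1)) + Q * (2 * ρ + 1))).subset
      fun x hx => hx.2)
    rintro x ⟨h2, h3⟩
    rw [hW2] at h2 h3
    exact ⟨by omega, by omega⟩
  refine fix_of_common_kernel φ hφ Rel hRel y W hW1 (by omega) (by rw [hW3]; exact hρR) ?_ ?_ ?_
    ?_ m0 hMd ⟨⟨z, hzM⟩⟩ K hKn hK1 hK2 r (by omega) T hT hTr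
  · intro x hx
    rw [hW2] at hx ⊢
    rw [hW1]
    exact dist_desc φ y hφ htr x hx
  · intro x hx
    rw [hW2] at hx
    exact dist_eq_zero φ y hφ htr hx
  · rw [hW2]
    exact dist_self φ y
  · rw [hW2]
    exact hfin _

/-- **Theorem B.** -/
theorem theoremB (E : Type u) [Group E] [Group.IsFinitelyPresented E] (hns : NoFreeSemigroup E)
    {S : Set E} (hSf : S.Finite) (hS : Subgroup.closure S = ⊤) (C : ℕ) :
    ∃ (R₀ : ℕ) (A : Subgroup E), A.FiniteIndex ∧ ∀ R : ℕ, R₀ ≤ R →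
      ∀ (Ω : Type v) [MulAction E Ω] (x : Ω), (∃ y ∈ MulAction.orbit E x, y ∉ OB S x R) →
        (OB S x R).ncard ≤ C * R → ∀ g ∈ A, ∀ h ∈ A, (g * h) • x = (h * g) • x := by
  obtain ⟨n, φ, Rel, ρ, hφ, hRel, hρ, hρR⟩ := exists_setup E
  obtain ⟨ℓ, hℓ1, hℓ⟩ := exists_scale φ hS
  have hfg : Group.FG E := fg_of_setup φ hφ
  obtain ⟨Q, hQ⟩ : ∃ Q : ℕ, Q = (3 * (C * ℓ) * (2 * ρ + 1) + 1) *
      Nat.card (Code (Fin n × Bool) ρ (3 * (C * ℓ) * (2 * ρ + 1))) + 1 := ⟨_, rfl⟩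
  obtain ⟨m0, hm0⟩ : ∃ m0 : ℕ, m0 = 3 * (C * ℓ) * (Q * (2 * ρ + 1)) := ⟨_, rfl⟩
  have hE1 : (E0 E m0).FiniteIndex := E0_finiteIndex hfg m0
  obtain ⟨K, hKfg, hKn, hK1, hK2, hK3⟩ := exists_kernel hfg hns (E0 E m0) hE1
  obtain ⟨T, hT, hTf⟩ := (Subgroup.fg_iff K).1 hKfg
  have hw : ∀ g : E, ∃ w : List (Fin n × Bool), φ (FreeGroup.mk w) = g := by
    intro g
    obtain ⟨u, hu⟩ := hφ g
    exact ⟨u.toWord, by rw [FreeGroup.mk_toWord, hu]⟩
  choose wd hwd using hw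
  obtain ⟨r, hr⟩ := (hTf.image fun g => (wd g).length).bddAbove
  refine ⟨ℓ * (r + (r + 1) * (Q * (2 * ρ + 1))), E0 E m0, hE1, ?_⟩
  intro R hR Ω _ x hx hball g hg1 h hh1
  let O := MulAction.orbit E x
  let y : O := ⟨x, MulAction.mem_orbit_self x⟩
  have htr : ∀ z : O, ∃ g : E, g • y = z := by
    rintro ⟨z, g, rfl⟩
    exact ⟨g, rfl⟩
  have hOB : (Subtype.val : O → Ω) '' (OB S y R) ⊆ OB S x R := by
    rintro _ ⟨z, ⟨g, hg, rfl⟩, rfl⟩
    exact ⟨g, hg, rfl⟩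
  have hOB' : (OB S y R).ncard ≤ C * R := by
    rw [← Set.ncard_image_of_injective _ Subtype.val_injective]
    exact (Set.ncard_le_ncard hOB (OB_finite hSf x R)).trans hball
  have hT2 : {z : O | dist φ y z ≤ R / ℓ}.ncard ≤ C * R :=
    (Set.ncard_le_ncard (dist_subset_OB hφ hℓ y htr (Nat.mul_div_le R ℓ))
      (OB_finite hSf y R)).trans hOB'
  obtain ⟨y', ⟨g', rfl⟩, hy'⟩ := hx
  have hbig : ∃ z : O, R / ℓ < dist φ y z := by
    refine ⟨⟨g' • x, g', rfl⟩, ?_⟩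
    by_contra h1
    push Not at h1
    apply hy'
    have h2 := dist_subset_OB hφ hℓ y htr (Nat.mul_div_le R ℓ) h1
    obtain ⟨g, hg, h3⟩ := h2
    exact ⟨g, hg, congrArg Subtype.val h3⟩
  have hRl : R < ℓ * (R / ℓ + 1) := by
    have h1 := Nat.lt_div_mul_add (a := R) (b := ℓ) (by omega)
    calc R < R / ℓ * ℓ + ℓ := h1
      _ = _ := by ring
  have hb : {z : O | dist φ y z ≤ R / ℓ}.ncard ≤ (C * ℓ) * (R / ℓ + 1) := by
    refine hT2.trans ?_
    calc C * R ≤ C * (ℓ * (R / ℓ + 1)) := Nat.mul_le_mul_left _ hRl.le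
      _ = _ := by ring
  have key := fix_of_ball φ hφ Rel hRel hρ hρR (C * ℓ) Q hQ m0 hm0 K hKn hK1 hK2 r T hT
    (fun g hg => ⟨wd g, hr ⟨g, hg, rfl⟩, hwd g⟩) (r' := R / ℓ) (by
      rw [Nat.le_div_iff_mul_le (by omega), mul_comm]
      exact hR) y htr hbig hb _ (hK3 g hg1 h hh1)
  have h1 : ((h * g)⁻¹ * (g * h)) • x = x := congrArg Subtype.val key
  rw [mul_smul, inv_smul_eq_iff] at h1
  exact h1

end Pool.Agent.H76.Pump
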