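import Pool.Agent.Lib.H76.Pump.WIso
import Pool.Agent.Lib.H76.Pump.MainB

/-!
# Long chains of cuts
-/

namespace Pool.Agent.H76.Pump

universe u v

section

variable {n : ℕ} {E : Type*} [Group E] (φ : FreeGroup (Fin n) →* E) {Ω : Type*} [MulAction E Ω]
  (ρ B : ℕ)

/-- A cut around `y`: a finite connected set with a small collar. -/
structure IsCut (y : Ω) (F : Set Ω) : Prop where
  fin : F.Finite
  mem : y ∈ F
  compl : Fᶜ.Nonempty
  conn : ∀ x ∈ F, Conn (lact φ) (fun z => z ∈ F) x y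
  col : (col ρ (sd φ ρ F)).ncard ≤ B

/-- A chain of nested cuts. -/
structure IsChain (y : Ω) (N : ℕ) (F : ℕ → Set Ω) : Prop where
  cut : ∀ k, k ≤ N → IsCut φ ρ B y (F k)
  sep : ∀ k, k < N → Sep φ ρ (F k) (F (k + 1))

variable {φ ρ B}

theorem IsChain.subset {y : Ω} {N : ℕ} {F : ℕ → Set Ω} (h : IsChain φ ρ B y N F) {k l : ℕ}
    (hkl : k ≤ l) (hl : l ≤ N) : F k ⊆ F l := by
  induction l with
  | zero =>
    have : k = 0 := by omega
    rw [this]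
  | succ l ih =>
    rcases Nat.lt_or_ge l k with h1 | h1
    · have : k = l + 1 := by omega
      rw [this]
    · exact (ih h1 (by omega)).trans fun z hz => h.sep l (by omega) z hz [] (by simp)

theorem IsChain.sep' {y : Ω} {N : ℕ} {F : ℕ → Set Ω} (h : IsChain φ ρ B y N F) {k l : ℕ}
    (hkl : k < l) (hl : l ≤ N) : Sep φ ρ (F k) (F l) := fun z hz w hw =>
  h.subset (k := k + 1) hkl hl (h.sep k (by omega) z hz w hw)

variable (hφ : Function.Surjective φ) (htr : ∀ x y : Ω, ∃ g : E, g • x = y)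

include hφ htr

theorem IsChain.exists_pair {y : Ω} {N : ℕ} {F : ℕ → Set Ω} (h : IsChain φ ρ B y N F)
    (hN : Nat.card (Code (Fin n × Bool) ρ B) ≤ N) :
    ∃ k l, k < l ∧ l ≤ N ∧ ∃ τ, HasCode (lact φ) (sd φ ρ (F k)) ρ B τ ∧
      HasCode (lact φ) (sd φ ρ (F l)) ρ B τ := by
  classical
  have h1 : ∀ k : Fin (N + 1), ∃ τ, HasCode (lact φ) (sd φ ρ (F k)) ρ B τ := by
    intro k
    have hc := h.cut k (by omega)
    exact exists_code _ _ _ _ (collar_finite φ ρ hφ htr ⟨y, hc.mem⟩ hc.compl hc.fin) hc.col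
  choose τ hτ using h1
  obtain ⟨k, l, hkl, he⟩ := Fintype.exists_ne_map_eq_of_card_lt τ (by
    rw [Fintype.card_fin, ← Nat.card_eq_fintype_card]
    omega)
  rcases Nat.lt_or_gt_of_ne (fun h => hkl (Fin.ext h) : (k : ℕ) ≠ l) with h2 | h2
  · exact ⟨k, l, h2, by omega, τ k, hτ k, he ▸ hτ l⟩
  · exact ⟨l, k, h2, by omega, τ l, hτ l, he ▸ hτ k⟩

/-- There is a point of `F'` outside `F`. -/
theorem exists_between {F F' : Set Ω} (hs : Sep φ ρ F F') (hF : F.Nonempty)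
    (hFc : Fᶜ.Nonempty) : ∃ z, z ∈ F' ∧ z ∉ F := by
  obtain ⟨y, hy⟩ := hF
  obtain ⟨w, hw, h1⟩ := dset_spec φ hφ htr hFc y
  have h4 : dset φ Fᶜ y ≠ 0 := fun h0 => (dset_eq_zero φ hφ htr hFc).1 h0 hy
  cases w with
  | nil => exact absurd hw.symm h4
  | cons a w =>
    rw [List.length_cons] at hw
    have h6 : run (lact φ) w y ∈ F := by
      by_contra h7
      have h8 := dset_le φ (A := Fᶜ) (z := y) (w := w) h7
      omega
    exact ⟨_, hs _ h6 [a] (by rw [List.length_singleton]; omega), h1⟩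

/-- The piece between two nested cuts. -/
theorem Md_iff {F F' : Set Ω} (hs : Sep φ ρ F F') (hF : F.Nonempty) (hF' : F'ᶜ.Nonempty)
    (W : Win (Fin n × Bool) Ω) (hi : W.i = ρ + 1) (hj : W.j = 3 * ρ + 3)
    (hd : ∀ z, W.d z = sd φ ρ F z + sd φ ρ F' z) (z : Ω) :
    (W.i < W.d z ∧ W.d z ≤ W.j) ↔ z ∈ F' ∧ z ∉ F := by
  have hsub : F ⊆ F' := fun z hz => hs z hz [] (by simp)
  have hFc : Fᶜ.Nonempty := hF'.mono (Set.compl_subset_compl.2 hsub)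
  have hF'n : F'.Nonempty := hF.mono hsub
  have h1 := sd_le φ ρ F z
  have h2 := sd_sep' φ ρ hφ htr hs hF hF' (z := z)
  rw [← sd_mem φ ρ hφ htr hF hFc, ← sd_mem φ ρ hφ htr hF'n hF', hd, hi, hj]
  by_cases c : sd φ ρ F z ≤ 2 * ρ + 1
  · rw [h2 c]
    omega
  · omega

end

/-- **Theorem A for chains.** -/
theorem chainA {n : ℕ} {E : Type u} [Group E] (φ : FreeGroup (Fin n) →* E)
    (hφ : Function.Surjective φ) (R : Set (FreeGroup (Fin n)))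
    (hR : Subgroup.normalClosure R = φ.ker) {ρ : ℕ} (hρ : 2 ≤ ρ)
    (hρR : ∀ r ∈ R, r.toWord.length ≤ ρ) (B : ℕ) {Ω : Type v} [MulAction E Ω]
    (htr : ∀ x y : Ω, ∃ g : E, g • x = y) (y : Ω) (F : ℕ → Set Ω)
    (h : IsChain φ ρ B y (Nat.card (Code (Fin n × Bool) ρ B)) F) : VirtInd E := by
  obtain ⟨k, l, hkl, hl, τ, hk1, hl1⟩ := h.exists_pair hφ htr le_rfl
  have hck := h.cut k (by omega)
  have hcl := h.cut l hl
  have hs := h.sep' hkl hl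
  have : Nonempty Ω := ⟨y⟩
  obtain ⟨I⟩ := wiso_of_code hk1 hl1
  obtain ⟨W, hW1, hW2, hW3, hW4, hW5⟩ := exists_win_of_cuts φ hφ htr (by omega) hs ⟨y, hck.mem⟩
    hcl.compl I
  obtain ⟨Φ, hΦ⟩ := glue_hom φ hφ R hR W hW1 (by omega) (by rw [hW2]; exact hρR) False
  obtain ⟨z, hz⟩ := exists_between hφ htr hs ⟨y, hck.mem⟩ hck.compl
  have hM := Md_iff hφ htr hs ⟨y, hck.mem⟩ hcl.compl W hW3 hW4 hW5
  exact indicable_of_down φ hφ W Φ hΦ
    (down_of_conn φ hφ htr ⟨y, hck.mem⟩ hcl.compl hs hck.mem hcl.conn W hW1 hW3 hW4 hW5)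
    (hcl.fin.subset fun x hx => ((hM x).1 hx).1) ⟨z, (hM z).2 hz⟩

/-- The code `τ` occurs twice around the base point of a coset space. -/
def RepPair {n : ℕ} {E : Type u} [Group E] (φ : FreeGroup (Fin n) →* E) (ρ B : ℕ)
    (τ : Code (Fin n × Bool) ρ B) (H : Subgroup E) (F F' : Set (E ⧸ H)) : Prop :=
  IsCut φ ρ B ((1 : E) : E ⧸ H) F ∧ IsCut φ ρ B ((1 : E) : E ⧸ H) F' ∧ Sep φ ρ F F' ∧
    HasCode (lact φ) (sd φ ρ F) ρ B τ ∧ HasCode (lact φ) (sd φ ρ F') ρ B τ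

theorem quot_tr {E : Type u} [Group E] (H : Subgroup E) : ∀ x y : E ⧸ H, ∃ g : E, g • x = y :=
  fun x y => MulAction.exists_smul_eq E x y

/-- **Theorem B for chains.** -/
theorem chainB {n : ℕ} {E : Type u} [Group E] (φ : FreeGroup (Fin n) →* E)
    (hφ : Function.Surjective φ) (Rel : Set (FreeGroup (Fin n)))
    (hRel : Subgroup.normalClosure Rel = φ.ker) {ρ : ℕ} (hρ : 2 ≤ ρ)
    (hρR : ∀ r ∈ Rel, r.toWord.length ≤ ρ) (B : ℕ) (hns : NoFreeSemigroup E) :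
    ∃ (r₀ : ℕ) (A : Subgroup E), A.FiniteIndex ∧ ∀ (H : Subgroup E) (F : ℕ → Set (E ⧸ H)),
      IsChain φ ρ B ((1 : E) : E ⧸ H) (Nat.card (Code (Fin n × Bool) ρ B)) F →
      (∀ w : List (Fin n × Bool), w.length ≤ r₀ → run (lact φ) w ((1 : E) : E ⧸ H) ∈ F 0) →
      ∀ g ∈ A, ∀ h ∈ A, (g * h) • ((1 : E) : E ⧸ H) = (h * g) • ((1 : E) : E ⧸ H) := by
  classical
  have hfg : Group.FG E := fg_of_setup φ hφ
  -- one pair for each code
  let P : Code (Fin n × Bool) ρ B → (Σ H : Subgroup E, Set (E ⧸ H) × Set (E ⧸ H)) → Prop :=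
    fun τ p => RepPair φ ρ B τ p.1 p.2.1 p.2.2
  let m : Code (Fin n × Bool) ρ B → ℕ := fun τ =>
    if h : ∃ p, P τ p then (h.choose.2.2 \ h.choose.2.1).ncard else 0
  obtain ⟨m0, hm0⟩ := (Set.finite_range m).bddAbove
  have hE1 : (E0 E m0).FiniteIndex := E0_finiteIndex hfg m0
  obtain ⟨K, hKfg, hKn, hK1, hK2, hK3⟩ := exists_kernel hfg hns (E0 E m0) hE1
  obtain ⟨T, hT, hTf⟩ := (Subgroup.fg_iff K).1 hKfg
  have hw : ∀ g : E, ∃ w : List (Fin n × Bool), φ (FreeGroup.mk w) = g := by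
    intro g
    obtain ⟨u, hu⟩ := hφ g
    exact ⟨u.toWord, by rw [FreeGroup.mk_toWord, hu]⟩
  choose wd hwd using hw
  obtain ⟨r, hr⟩ := (hTf.image fun g => (wd g).length).bddAbove
  refine ⟨r, E0 E m0, hE1, fun H F h hr₀ g hg g' hg' => ?_⟩
  obtain ⟨k, l, hkl, hl, τ, hk1, hl1⟩ := h.exists_pair hφ (quot_tr H) le_rfl
  have hck := h.cut k (by omega)
  have hex : ∃ p, P τ p := ⟨⟨H, F k, F l⟩, hck, h.cut l hl, h.sep' hkl hl, hk1, hl1⟩
  have hmτ : (hex.choose.2.2 \ hex.choose.2.1).ncard ≤ m0 := by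
    have h1 : m τ = (hex.choose.2.2 \ hex.choose.2.1).ncard := by
      simp only [m]
      rw [dif_pos hex]
    rw [← h1]
    exact hm0 ⟨τ, rfl⟩
  obtain ⟨p, hp1, hp2⟩ : ∃ p, P τ p ∧ (p.2.2 \ p.2.1).ncard ≤ m0 :=
    ⟨hex.choose, hex.choose_spec, hmτ⟩
  obtain ⟨H', F1, F2⟩ := p
  obtain ⟨hc1, hc2, hs, ht1, ht2⟩ := hp1
  replace hp2 : (F2 \ F1).ncard ≤ m0 := hp2
  obtain ⟨I⟩ := wiso_of_code ht1 ht2
  obtain ⟨W, hW1, hW2, hW3, hW4, hW5⟩ := exists_win_of_cuts φ hφ (quot_tr H') (show 1 ≤ ρ by omega) hs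
    ⟨_, hc1.mem⟩ hc2.compl I
  obtain ⟨J⟩ := wiso_of_code hk1 ht1
  obtain ⟨A, hA1, hA2, hA3⟩ := exists_att φ hφ (quot_tr H') (quot_tr H) ⟨_, hck.mem⟩ hck.compl hs
    ⟨_, hc1.mem⟩ hc2.compl J W hW1 hW2 hW3 hW5
  obtain ⟨z, hz⟩ := exists_between hφ (quot_tr H') hs ⟨_, hc1.mem⟩ hc1.compl
  have hM := Md_iff hφ (quot_tr H') hs ⟨_, hc1.mem⟩ hc2.compl W hW3 hW4 hW5
  have hMset : {x | W.i < W.d x ∧ W.d x ≤ W.j} = F2 \ F1 := by
    ext x
    exact hM x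
  have hi : ∀ x, A.d₀ x ≤ A.W.i ↔ x ∈ F k := by
    intro x
    rw [hA3, hA1, hW3]
    exact sd_mem φ ρ hφ (quot_tr H) ⟨_, hck.mem⟩ hck.compl x
  have key := fix_of_att φ hφ Rel hRel A hA2 (by rw [hA1]; exact hW1) (by rw [hA1]; omega)
    (by rw [hA1, hW2]; exact hρR) ((1 : E) : E ⧸ H) (by
      intro x hx
      have h3 := hck.conn x ((hi x).1 hx)
      unfold Conn at h3 ⊢
      rw [hA2]
      refine Relation.ReflTransGen.mono ?_ _ _ h3
      rintro u v ⟨h4, h5, h6⟩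
      exact ⟨(hi u).2 h4, (hi v).2 h5, h6⟩) (by
      rw [hA1]
      exact down_of_conn φ hφ (quot_tr H') ⟨_, hc1.mem⟩ hc2.compl hs hc1.mem hc2.conn W hW1 hW3
        hW4 hW5) m0 (by rw [hA1, hMset]; exact hc2.fin.subset Set.sdiff_subset) (by
      rw [hA1]
      have h1 : Nat.card (Md W) = {x | W.i < W.d x ∧ W.d x ≤ W.j}.ncard :=
        Nat.card_coe_set_eq _
      rw [h1, hMset]
      exact hp2) (by rw [hA1]; exact ⟨⟨z, (hM z).2 hz⟩⟩) K hKn hK1 hK2 r (by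
      intro v hv
      rw [hi, hA2]
      exact h.subset (k := 0) (Nat.zero_le _) (by omega) (hr₀ v hv)) T hT
    (fun g hg => ⟨wd g, hr ⟨g, hg, rfl⟩, hwd g⟩) _ (hK3 g hg g' hg')
  rw [mul_smul, inv_smul_eq_iff] at key
  exact key

end Pool.Agent.H76.Pump
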