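import Pool.Agent.Lib.H76.Pump.Win2

/-!
# Two windows with the same code
-/

namespace Pool.Agent.H76.Pump

/-- The codes of windows with at most `B` points. -/
abbrev Code (L : Type*) (ρ B : ℕ) : Type _ :=
  (Fin B → Option (Fin (2 * ρ + 1))) × (L → Fin B → Option (Fin B))

section

variable {L Ω : Type*} (act : L → Ω → Ω) (d : Ω → ℕ) (ρ B : ℕ)

open Classical in
/-- The code of a window `s` with centre `i` enumerated by `e`. -/
noncomputable def code (s : Set Ω) (i : ℕ) (e : Ω → ℕ) : Code L ρ B :=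
  (fun b => if h : ∃ x ∈ s, e x = b then
      some ⟨(d h.choose + ρ - i) % (2 * ρ + 1), Nat.mod_lt _ (by omega)⟩ else none,
   fun a b => if h : ∃ x ∈ s, e x = b ∧ act a x ∈ s ∧ e (act a x) < B then
      some ⟨e (act a h.choose), h.choose_spec.2.2.2⟩ else none)

theorem code_lev {s s' : Set Ω} {i i' : ℕ} {e e' : Ω → ℕ}
    (hs : ∀ x ∈ s, i ≤ d x + ρ ∧ d x ≤ i + ρ) (hs' : ∀ x ∈ s', i' ≤ d x + ρ ∧ d x ≤ i' + ρ)
    (hlt : ∀ x ∈ s, e x < B) (hinj : Set.InjOn e s)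
    (h : code act d ρ B s i e = code act d ρ B s' i' e') {x : Ω} (hx : x ∈ s) :
    ∃ x' ∈ s', e' x' = e x ∧ d x' + i = d x + i' := by
  classical
  have h1 := congrFun (congrArg Prod.fst h) ⟨e x, hlt x hx⟩
  unfold code at h1
  simp only at h1
  have h2 : ∃ z ∈ s, e z = e x := ⟨x, hx, rfl⟩
  rw [dif_pos h2] at h1
  have h3 : h2.choose = x := hinj h2.choose_spec.1 hx h2.choose_spec.2
  by_cases h4 : ∃ z ∈ s', e' z = e x
  · rw [dif_pos h4] at h1
    obtain ⟨h5, h6⟩ := h4.choose_spec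
    refine ⟨h4.choose, h5, h6, ?_⟩
    have h7 := congrArg Fin.val (Option.some.inj h1)
    simp only at h7
    have h8 : ∀ z, z = x → (d z + ρ - i) % (2 * ρ + 1) = (d x + ρ - i) % (2 * ρ + 1) := by
      rintro z rfl; rfl
    rw [h8 _ h3] at h7
    obtain ⟨ha, hb⟩ := hs x hx
    obtain ⟨hc, hd⟩ := hs' _ h5
    rw [Nat.mod_eq_of_lt (by omega), Nat.mod_eq_of_lt (by omega)] at h7
    omega
  · rw [dif_neg h4] at h1
    exact absurd h1 (by simp)

theorem code_edge {s s' : Set Ω} {i i' : ℕ} {e e' : Ω → ℕ}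
    (hlt : ∀ x ∈ s, e x < B) (hinj : Set.InjOn e s) (hinj' : Set.InjOn e' s')
    (h : code act d ρ B s i e = code act d ρ B s' i' e') {a : L} {x x' : Ω} (hx : x ∈ s)
    (hax : act a x ∈ s) (hx' : x' ∈ s') (hee : e' x' = e x) :
    act a x' ∈ s' ∧ e' (act a x') = e (act a x) := by
  classical
  have h1 := congrFun (congrFun (congrArg Prod.snd h) a) ⟨e x, hlt x hx⟩
  unfold code at h1
  simp only at h1
  have h2 : ∃ z ∈ s, e z = e x ∧ act a z ∈ s ∧ e (act a z) < B := ⟨x, hx, rfl, hax, hlt _ hax⟩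
  rw [dif_pos h2] at h1
  have h3 : h2.choose = x := hinj h2.choose_spec.1 hx h2.choose_spec.2.1
  by_cases h4 : ∃ z ∈ s', e' z = e x ∧ act a z ∈ s' ∧ e' (act a z) < B
  · rw [dif_pos h4] at h1
    obtain ⟨h5, h6, h7, h8⟩ := h4.choose_spec
    have h9 : h4.choose = x' := hinj' h5 hx' (by rw [h6, hee])
    have h10 := congrArg Fin.val (Option.some.inj h1)
    simp only at h10
    have h11 : ∀ z, z = x → e (act a z) = e (act a x) := by
      rintro z rfl; rfl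
    have h12 : ∀ z, z = x' → e' (act a z) = e' (act a x') := by
      rintro z rfl; rfl
    rw [h11 _ h3, h12 _ h9] at h10
    rw [h9] at h7
    exact ⟨h7, h10.symm⟩
  · rw [dif_neg h4] at h1
    exact absurd h1 (by simp)

/-- Two windows with the same code give a `Win`. -/
theorem win_of_code (hρ : 1 ≤ ρ) (hd : ∀ a x, d (act a x) ≤ d x + 1)
    (hd' : ∀ a x, d x ≤ d (act a x) + 1) {i j : ℕ} (hij : i + 2 * ρ + 1 ≤ j) {e e' : Ω → ℕ}
    (hlt : ∀ x, i ≤ d x + ρ → d x ≤ i + ρ → e x < B)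
    (hlt' : ∀ x, j ≤ d x + ρ → d x ≤ j + ρ → e' x < B)
    (hinj : Set.InjOn e {x | i ≤ d x + ρ ∧ d x ≤ i + ρ})
    (hinj' : Set.InjOn e' {x | j ≤ d x + ρ ∧ d x ≤ j + ρ})
    (h : code act d ρ B {x | i ≤ d x + ρ ∧ d x ≤ i + ρ} i e =
      code act d ρ B {x | j ≤ d x + ρ ∧ d x ≤ j + ρ} j e') :
    ∃ W : Win L Ω, W.act = act ∧ W.d = d ∧ W.ρ = ρ ∧ W.i = i ∧ W.j = j := by
  classical
  have h1 : ∀ x : Ω, ∃ x' : Ω, (i ≤ d x + ρ → d x ≤ i + ρ →
      (j ≤ d x' + ρ ∧ d x' ≤ j + ρ) ∧ e' x' = e x ∧ d x' + i = d x + j) := by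
    intro x
    by_cases hx : i ≤ d x + ρ ∧ d x ≤ i + ρ
    · obtain ⟨x', hx', h2, h3⟩ := code_lev act d ρ B (fun z hz => hz) (fun z hz => hz)
        (fun z hz => hlt z hz.1 hz.2) hinj h (x := x) hx
      exact ⟨x', fun _ _ => ⟨hx', h2, h3⟩⟩
    · exact ⟨x, fun h2 h3 => absurd ⟨h2, h3⟩ hx⟩
  have h1' : ∀ x : Ω, ∃ x' : Ω, (j ≤ d x + ρ → d x ≤ j + ρ →
      (i ≤ d x' + ρ ∧ d x' ≤ i + ρ) ∧ e x' = e' x ∧ d x' + j = d x + i) := by
    intro x
    by_cases hx : j ≤ d x + ρ ∧ d x ≤ j + ρ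
    · obtain ⟨x', hx', h2, h3⟩ := code_lev act d ρ B (fun z hz => hz) (fun z hz => hz)
        (fun z hz => hlt' z hz.1 hz.2) hinj' h.symm (x := x) hx
      exact ⟨x', fun _ _ => ⟨hx', h2, h3⟩⟩
    · exact ⟨x, fun h2 h3 => absurd ⟨h2, h3⟩ hx⟩
  choose θ hθ using h1
  choose θ' hθ' using h1'
  refine ⟨{ act := act, d := d, i := i, j := j, ρ := ρ, θ := θ, θ' := θ', ρ1 := hρ, hd := hd,
            hd' := hd', hj := hij, hθd := fun x h2 h3 => (hθ x h2 h3).2.2, hθθ := ?_,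
            hθ'd := fun x h2 h3 => (hθ' x h2 h3).2.2, hθ'θ := ?_, heq := ?_ },
          rfl, rfl, rfl, rfl, rfl⟩
  · intro x h2 h3
    obtain ⟨h4, h5, h6⟩ := hθ x h2 h3
    obtain ⟨h7, h8, h9⟩ := hθ' (θ x) h4.1 h4.2
    exact hinj h7 ⟨h2, h3⟩ (by rw [h8, h5])
  · intro x h2 h3
    obtain ⟨h4, h5, h6⟩ := hθ' x h2 h3
    obtain ⟨h7, h8, h9⟩ := hθ (θ' x) h4.1 h4.2
    exact hinj' h7 ⟨h2, h3⟩ (by rw [h8, h5])
  · intro a x h2 h3 h4 h5
    obtain ⟨h6, h7, h8⟩ := hθ x h2 h3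
    obtain ⟨h9, h10, h11⟩ := hθ (act a x) h4 h5
    obtain ⟨h12, h13⟩ := code_edge act d ρ B (fun z hz => hlt z hz.1 hz.2) hinj hinj' h
      (x := x) (x' := θ x) (a := a) ⟨h2, h3⟩ ⟨h4, h5⟩ h6 h7
    exact hinj' h9 h12 (by rw [h10, h13])

end

/-- Pigeonhole: if an annulus has few points, it contains two isomorphic windows. -/
theorem exists_win {L Ω : Type*} [Fintype L] (act : L → Ω → Ω) (d : Ω → ℕ) (ρ : ℕ)
    (hρ : 1 ≤ ρ) (hd : ∀ a x, d (act a x) ≤ d x + 1) (hd' : ∀ a x, d x ≤ d (act a x) + 1)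
    (hfin : ∀ r, {x | d x ≤ r}.Finite) (c Q B T : ℕ)
    (hT : {x | c < d x ∧ d x ≤ c + Q * (2 * ρ + 1)}.ncard ≤ T)
    (hN : T + (B + 1) * Nat.card (Code L ρ B) < (B + 1) * Q) :
    ∃ W : Win L Ω, W.act = act ∧ W.d = d ∧ W.ρ = ρ ∧ c + ρ + 1 ≤ W.i ∧
      W.j + ρ ≤ c + Q * (2 * ρ + 1) := by
  classical
  have hAfin : {x | c < d x ∧ d x ≤ c + Q * (2 * ρ + 1)}.Finite :=
    (hfin (c + Q * (2 * ρ + 1))).subset fun x hx => hx.2
  let A : Finset Ω := hAfin.toFinset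
  have hA : ∀ x, x ∈ A ↔ c < d x ∧ d x ≤ c + Q * (2 * ρ + 1) := by
    intro x
    simp [A]
  have hAc : A.card ≤ T := by
    rw [Set.ncard_eq_toFinset_card _ hAfin] at hT
    exact hT
  let fib : ℕ → Finset Ω := fun q => A.filter fun x => (d x - c - 1) / (2 * ρ + 1) = q
  have hmaps : ∀ x ∈ A, (d x - c - 1) / (2 * ρ + 1) ∈ Finset.range Q := by
    intro x hx
    rw [hA] at hx
    rw [Finset.mem_range, Nat.div_lt_iff_lt_mul (by omega)]
    omega
  have hsum : A.card = ∑ q ∈ Finset.range Q, (fib q).card :=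
    Finset.card_eq_sum_card_fiberwise hmaps
  -- centres
  let ctr : ℕ → ℕ := fun q => c + q * (2 * ρ + 1) + ρ + 1
  have hwin : ∀ q, q < Q → ∀ x, (ctr q ≤ d x + ρ ∧ d x ≤ ctr q + ρ) ↔ x ∈ fib q := by
    intro q hq x
    simp only [fib, Finset.mem_filter, hA, ctr]
    have h1 : (q + 1) * (2 * ρ + 1) ≤ Q * (2 * ρ + 1) := Nat.mul_le_mul_right _ hq
    have h2 : (q + 1) * (2 * ρ + 1) = q * (2 * ρ + 1) + (2 * ρ + 1) := by ring
    constructor
    · rintro ⟨h3, h4⟩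
      refine ⟨⟨by omega, by omega⟩, ?_⟩
      rw [Nat.div_eq_iff (by omega)]
      constructor
      · omega
      · omega
    · rintro ⟨⟨h3, h4⟩, h5⟩
      rw [Nat.div_eq_iff (by omega)] at h5
      omega
  let bad : Finset ℕ := (Finset.range Q).filter fun q => B < (fib q).card
  let good : Finset ℕ := (Finset.range Q).filter fun q => ¬ B < (fib q).card
  have hcard : bad.card + good.card = Q := by
    rw [Finset.card_filter_add_card_filter_not, Finset.card_range]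
  have hbad : bad.card * (B + 1) ≤ T := by
    calc bad.card * (B + 1) = bad.card • (B + 1) := by rw [smul_eq_mul]
      _ ≤ ∑ q ∈ bad, (fib q).card := by
          apply Finset.card_nsmul_le_sum
          intro q hq
          have := (Finset.mem_filter.1 hq).2
          omega
      _ ≤ ∑ q ∈ Finset.range Q, (fib q).card :=
          Finset.sum_le_sum_of_subset (Finset.filter_subset _ _)
      _ = A.card := hsum.symm
      _ ≤ T := hAc
  have hgood : Nat.card (Code L ρ B) < good.card := by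
    have h1 : (B + 1) * (Nat.card (Code L ρ B) + bad.card) < (B + 1) * Q := by
      calc (B + 1) * (Nat.card (Code L ρ B) + bad.card) =
            bad.card * (B + 1) + (B + 1) * Nat.card (Code L ρ B) := by ring
        _ ≤ T + (B + 1) * Nat.card (Code L ρ B) := Nat.add_le_add_right hbad _
        _ < _ := hN
    have h2 := Nat.lt_of_mul_lt_mul_left h1
    omega
  -- enumerations
  let e : ℕ → Ω → ℕ := fun q x => if h : x ∈ fib q then ((fib q).equivFin ⟨x, h⟩ : ℕ) else 0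
  have helt : ∀ q ∈ good, ∀ x ∈ fib q, e q x < B := by
    intro q hq x hx
    have h1 := (Finset.mem_filter.1 hq).2
    have h2 : e q x = ((fib q).equivFin ⟨x, hx⟩ : ℕ) := by simp only [e, dif_pos hx]
    rw [h2]
    have h3 := ((fib q).equivFin ⟨x, hx⟩).isLt
    omega
  have heinj : ∀ q, Set.InjOn (e q) (fib q : Set Ω) := by
    intro q x hx z hz h
    have h2 : e q x = ((fib q).equivFin ⟨x, hx⟩ : ℕ) := by
      simp only [e]; rw [dif_pos (Finset.mem_coe.1 hx)]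
    have h3 : e q z = ((fib q).equivFin ⟨z, hz⟩ : ℕ) := by
      simp only [e]; rw [dif_pos (Finset.mem_coe.1 hz)]
    rw [h2, h3] at h
    have h4 := (fib q).equivFin.injective (Fin.ext h)
    exact congrArg Subtype.val h4
  let cd : ℕ → Code L ρ B := fun q =>
    code act d ρ B {x | ctr q ≤ d x + ρ ∧ d x ≤ ctr q + ρ} (ctr q) (e q)
  have hpig : ∃ q ∈ good, ∃ q' ∈ good, q ≠ q' ∧ cd q = cd q' := by
    apply Finset.exists_ne_map_eq_of_card_lt_of_maps_to (t := (Finset.univ : Finset (Code L ρ B)))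
    · rw [Finset.card_univ, ← Nat.card_eq_fintype_card]
      exact hgood
    · intro q _
      exact Finset.mem_univ _
  have hmain : ∀ q ∈ good, ∀ q' ∈ good, q < q' → cd q = cd q' →
      ∃ W : Win L Ω, W.act = act ∧ W.d = d ∧ W.ρ = ρ ∧ c + ρ + 1 ≤ W.i ∧
      W.j + ρ ≤ c + Q * (2 * ρ + 1) := by
    intro q hq q' hq' hlt hcd
    have hqQ : q < Q := Finset.mem_range.1 (Finset.mem_filter.1 hq).1
    have hqQ' : q' < Q := Finset.mem_range.1 (Finset.mem_filter.1 hq').1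
    have h1 : (q + 1) * (2 * ρ + 1) ≤ q' * (2 * ρ + 1) := Nat.mul_le_mul_right _ hlt
    have h2 : (q + 1) * (2 * ρ + 1) = q * (2 * ρ + 1) + (2 * ρ + 1) := by ring
    have h3 : (q' + 1) * (2 * ρ + 1) ≤ Q * (2 * ρ + 1) := Nat.mul_le_mul_right _ hqQ'
    have h4 : (q' + 1) * (2 * ρ + 1) = q' * (2 * ρ + 1) + (2 * ρ + 1) := by ring
    have hset : ∀ q, q < Q → {x | ctr q ≤ d x + ρ ∧ d x ≤ ctr q + ρ} = (fib q : Set Ω) := by
      intro q hq
      ext x
      exact hwin q hq x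
    obtain ⟨W, hW1, hW2, hW3, hW4, hW5⟩ := win_of_code act d ρ B hρ hd hd' (i := ctr q)
      (j := ctr q') (by simp only [ctr]; omega) (e := e q) (e' := e q')
      (fun x hx1 hx2 => helt q hq x ((hwin q hqQ x).1 ⟨hx1, hx2⟩))
      (fun x hx1 hx2 => helt q' hq' x ((hwin q' hqQ' x).1 ⟨hx1, hx2⟩))
      (by rw [hset q hqQ]; exact heinj q) (by rw [hset q' hqQ']; exact heinj q') hcd
    refine ⟨W, hW1, hW2, hW3, ?_, ?_⟩
    · rw [hW4]; simp only [ctr]; omega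
    · rw [hW5]; simp only [ctr]; omega
  obtain ⟨q, hq, q', hq', hne, hcd⟩ := hpig
  rcases Nat.lt_or_gt_of_ne hne with h | h
  · exact hmain q hq q' hq' h hcd
  · exact hmain q' hq' q hq h hcd.symm

end Pool.Agent.H76.Pump
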