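import Pool.Agent.Lib.H76.Pump.Chain

/-!
# Components of cuts and chains of arbitrary sets
-/

namespace Pool.Agent.H76.Pump

open Pool.Agent.Lib.Helper67.FCC

universe u v

section

variable {n : ℕ} {E : Type*} [Group E] (φ : FreeGroup (Fin n) →* E) {Ω : Type*} [MulAction E Ω]

/-- the component of `y` in `F` -/
def cmp (F : Set Ω) (y : Ω) : Set Ω := {x | x ∈ F ∧ Conn (lact φ) (fun z => z ∈ F) x y}

variable {φ}

theorem cmp_subset {F : Set Ω} {y : Ω} : cmp φ F y ⊆ F := fun _ h => h.1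

theorem self_mem_cmp {F : Set Ω} {y : Ω} (h : y ∈ F) : y ∈ cmp φ F y :=
  ⟨h, Relation.ReflTransGen.refl⟩

theorem cmp_step {F : Set Ω} {y x : Ω} (h : x ∈ cmp φ F y) (a : Fin n × Bool)
    (ha : lact φ a x ∈ F) : lact φ a x ∈ cmp φ F y :=
  ⟨ha, Relation.ReflTransGen.head ⟨ha, h.1, linv a, lact_linv φ a x⟩ h.2⟩

theorem cmp_conn {F : Set Ω} {y x : Ω} (h : x ∈ cmp φ F y) :
    Conn (lact φ) (fun z => z ∈ cmp φ F y) x y := by
  obtain ⟨h1, h2⟩ := h
  induction h2 using Relation.ReflTransGen.head_induction_on with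
  | refl => exact Relation.ReflTransGen.refl
  | @head a c hac hc ih =>
    have hcm : c ∈ cmp φ F y := ⟨hac.2.1, hc⟩
    have ham : a ∈ cmp φ F y := ⟨h1, Relation.ReflTransGen.head hac hc⟩
    exact Relation.ReflTransGen.head ⟨ham, hcm, hac.2.2⟩ (ih hac.2.1)

theorem cmp_mono {F F' : Set Ω} (h : F ⊆ F') {y : Ω} : cmp φ F y ⊆ cmp φ F' y := by
  rintro x ⟨h1, h2⟩
  refine ⟨h h1, ?_⟩
  unfold Conn at h2 ⊢
  refine Relation.ReflTransGen.mono ?_ _ _ h2
  rintro u v ⟨h3, h4, h5⟩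
  exact ⟨h h3, h h4, h5⟩

theorem bd_cmp {F : Set Ω} {y : Ω} : bd φ (cmp φ F y) ⊆ bd φ F := by
  rintro x ⟨h1, a, h2⟩
  exact ⟨h1.1, a, fun h3 => h2 (cmp_step h1 a h3)⟩

theorem sep_cmp {ρ : ℕ} {F F' : Set Ω} (h : Sep φ ρ F F') {y : Ω} :
    Sep φ ρ (cmp φ F y) (cmp φ F' y) := by
  have hsub : F ⊆ F' := fun z hz => h z hz [] (by simp)
  intro z hz w
  induction w with
  | nil => exact fun _ => cmp_mono hsub hz
  | cons a w ih =>
    intro hw
    rw [List.length_cons] at hw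
    rw [run_cons]
    refine cmp_step (ih (by omega)) a ?_
    have := h z hz.1 (a :: w) (by rw [List.length_cons]; omega)
    rwa [run_cons] at this

theorem isCut_cmp {ρ B : ℕ} (hφ : Function.Surjective φ) (htr : ∀ x y : Ω, ∃ g : E, g • x = y)
    {F : Set Ω} {y : Ω} (hfin : F.Finite) (hy : y ∈ F) (hc : Fᶜ.Nonempty)
    (hB : {w : List (Fin n × Bool) | w.length ≤ ρ}.ncard * (bd φ F).ncard ≤ B) :
    IsCut φ ρ B y (cmp φ F y) where
  fin := hfin.subset cmp_subset
  mem := self_mem_cmp hy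
  compl := hc.mono (Set.compl_subset_compl.2 cmp_subset)
  conn := fun x hx => cmp_conn hx
  col := by
    refine le_trans (collar_ncard φ ρ hφ htr ⟨y, self_mem_cmp hy⟩
      (hc.mono (Set.compl_subset_compl.2 cmp_subset)) (hfin.subset cmp_subset)) ?_
    refine le_trans (Nat.mul_le_mul_left _ (Set.ncard_le_ncard bd_cmp ?_)) hB
    exact hfin.subset fun z hz => hz.1

end

/-- A chain of finite sets around `x` with boundaries of size at most `C`, each containing the
`D`-neighbourhood of the preceding one. -/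
def SChain {E : Type u} [Group E] {V : Type v} [MulAction E V] (S : Set E) (D C : ℕ) (x : V)
    (N : ℕ) (F : ℕ → Set V) : Prop :=
  x ∈ F 0 ∧
    (∀ k ≤ N, (F k).Finite ∧ {v | v ∈ F k ∧ ∃ s, (s ∈ S ∨ s⁻¹ ∈ S) ∧ s • v ∉ F k}.ncard ≤ C) ∧
    ∀ k < N, ∀ y ∈ F k, OB S y D ⊆ F (k + 1)

section

variable {n : ℕ} {E : Type u} [Group E] {φ : FreeGroup (Fin n) →* E} {V : Type v} [MulAction E V]
  {S : Set E}

/-- leaving a set along a word in the generators -/
theorem exists_exit {F : Set V} : ∀ (l : List E), (∀ s ∈ l, s ∈ S ∨ s⁻¹ ∈ S) → ∀ z : V, z ∈ F →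
    l.prod • z ∉ F → ∃ g : E, InBall S l.length g ∧ g • z ∈ F ∧
      ∃ s, (s ∈ S ∨ s⁻¹ ∈ S) ∧ s • g • z ∉ F := by
  intro l
  induction l with
  | nil =>
    intro _ z hz h
    rw [List.prod_nil, one_smul] at h
    exact absurd hz h
  | cons s l ih =>
    intro hl z hz h
    have hl' : ∀ t ∈ l, t ∈ S ∨ t⁻¹ ∈ S := fun t ht => hl t (List.mem_cons_of_mem _ ht)
    by_cases c : l.prod • z ∈ F
    · refine ⟨l.prod, ⟨l, by rw [List.length_cons]; omega, hl', rfl⟩, c, s,
        hl s List.mem_cons_self, ?_⟩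
      rwa [List.prod_cons, mul_smul] at h
    · obtain ⟨g, h1, h2⟩ := ih hl' z hz c
      exact ⟨g, h1.mono (by rw [List.length_cons]; omega), h2⟩

theorem bd_subset {ℓ : ℕ} (hℓ : ∀ w : List (Fin n × Bool), InBall S (ℓ * w.length)
    (φ (FreeGroup.mk w))) (F : Set V) (H : Subgroup E) (f : E ⧸ H → V)
    (hfs : ∀ (g : E) (q : E ⧸ H), f (g • q) = g • f q) :
    f '' bd φ {q | f q ∈ F} ⊆ (fun p : E × V => p.1 • p.2) '' ({g | InBall S ℓ g} ×ˢ
      {v | v ∈ F ∧ ∃ s, (s ∈ S ∨ s⁻¹ ∈ S) ∧ s • v ∉ F}) := by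
  rintro _ ⟨q, ⟨h1, a, h2⟩, rfl⟩
  have h3 : InBall S ℓ (φ (FreeGroup.mk [a])) := by
    have := hℓ [a]
    rwa [List.length_singleton, mul_one] at this
  obtain ⟨l, hl1, hl2, hl3⟩ := h3
  have h4 : l.prod • f q ∉ F := by
    rw [hl3]
    intro h5
    apply h2
    show f (lact φ a q) ∈ F
    have h6 : lact φ a q = φ (FreeGroup.mk [a]) • q := by
      have := run_lact φ [a] q
      rwa [run_cons, run_nil] at this
    rw [h6, hfs]
    exact h5
  obtain ⟨g, h5, h6, h7⟩ := exists_exit l hl2 (f q) h1 h4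
  exact ⟨(g⁻¹, g • f q), ⟨(h5.mono hl1).inv, h6, h7⟩, inv_smul_smul g (f q)⟩

/-- Chains in the coset space. -/
theorem SChain.isChain (hφ : Function.Surjective φ) (hSf : S.Finite) {ℓ : ℕ}
    (hℓ : ∀ w : List (Fin n × Bool), InBall S (ℓ * w.length) (φ (FreeGroup.mk w)))
    {ρ D C N N' B : ℕ} (hD : ℓ * (2 * ρ + 3) ≤ D) {x : V} {F : ℕ → Set V}
    (h : SChain S D C x N F) (hN : N' ≤ N) (hx : ¬ MulAction.orbit E x ⊆ F N)
    (hB : {w : List (Fin n × Bool) | w.length ≤ ρ}.ncard * ({g : E | InBall S ℓ g}.ncard * C) ≤ B) :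
    IsChain φ ρ B ((1 : E) : E ⧸ MulAction.stabilizer E x) N' (fun k =>
      cmp φ {q | MulAction.ofQuotientStabilizer E x q ∈ F k}
        ((1 : E) : E ⧸ MulAction.stabilizer E x)) := by
  obtain ⟨h0, h1, h2⟩ := h
  set f := MulAction.ofQuotientStabilizer E x with hf
  have hinj : Function.Injective f := MulAction.injective_ofQuotientStabilizer E x
  have hfs : ∀ (g : E) (q : E ⧸ MulAction.stabilizer E x), f (g • q) = g • f q :=
    fun g q => MulAction.ofQuotientStabilizer_smul E x g q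
  have hf1 : f ((1 : E) : E ⧸ MulAction.stabilizer E x) = x := by
    rw [hf, MulAction.ofQuotientStabilizer_mk, one_smul]
  have hmono : ∀ k l, k ≤ l → l ≤ N → F k ⊆ F l := by
    intro k l hkl
    induction l with
    | zero =>
      intro _
      have : k = 0 := by omega
      rw [this]
    | succ l ih =>
      intro hl
      rcases Nat.lt_or_ge l k with h3 | h3
      · have : k = l + 1 := by omega
        rw [this]
      · refine (ih h3 (by omega)).trans fun z hz => h2 l (by omega) z hz ⟨1, inBall_one S D, one_smul E z⟩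
  have hmem : ∀ k, k ≤ N → x ∈ F k := fun k hk => hmono 0 k (Nat.zero_le k) hk h0
  constructor
  · intro k hk
    have hfink : (F k).Finite := (h1 k (by omega)).1
    have hbfin : {v | v ∈ F k ∧ ∃ s, (s ∈ S ∨ s⁻¹ ∈ S) ∧ s • v ∉ F k}.Finite :=
      hfink.subset fun v hv => hv.1
    refine isCut_cmp hφ (quot_tr _) (hfink.preimage hinj.injOn) ?_ ?_ ?_
    · show f _ ∈ F k
      rw [hf1]
      exact hmem k (by omega)
    · rw [Set.not_subset] at hx
      obtain ⟨_, ⟨g, rfl⟩, hg⟩ := hx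
      refine ⟨(g : E ⧸ MulAction.stabilizer E x), fun h3 => hg (hmono k N (by omega) le_rfl ?_)⟩
      have h4 : f (g : E ⧸ MulAction.stabilizer E x) = g • x := by
        rw [hf, MulAction.ofQuotientStabilizer_mk]
      have h5 : f (g : E ⧸ MulAction.stabilizer E x) ∈ F k := h3
      rwa [h4] at h5
    · refine le_trans (Nat.mul_le_mul_left _ ?_) hB
      rw [← Set.ncard_image_of_injective _ hinj]
      refine (Set.ncard_le_ncard (bd_subset hℓ (F k) _ f hfs)
        (((finite_ball hSf ℓ).prod hbfin).image _)).trans ?_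
      refine (Set.ncard_image_le ((finite_ball hSf ℓ).prod hbfin)).trans ?_
      rw [Set.ncard_prod]
      exact Nat.mul_le_mul_left _ (h1 k (by omega)).2
  · intro k hk
    apply sep_cmp
    intro z hz w hw
    refine h2 k (by omega) (f z) hz ⟨φ (FreeGroup.mk w), (hℓ w).mono ?_, ?_⟩
    · exact (Nat.mul_le_mul_left ℓ hw).trans hD
    · rw [← hfs, run_lact]

end

end Pool.Agent.H76.Pump
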