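import Pool.Agent.Lib.H76.Pump.Att

/-!
# The two main arguments, for connected pieces
-/

namespace Pool.Agent.H76.Pump

universe u v v'

/-- Paths inside a set. -/
def Conn {L Ω : Type*} (act : L → Ω → Ω) (P : Ω → Prop) : Ω → Ω → Prop :=
  Relation.ReflTransGen fun u v => P u ∧ P v ∧ ∃ a, act a u = v

/-- Every point of the piece can be connected, below the level `j`, to a point below the
level `i`. -/
def Win.Down {L Ω : Type*} (W : Win L Ω) : Prop :=
  ∀ x, W.i < W.d x → W.d x ≤ W.j → ∃ z, W.d z ≤ W.i ∧ Conn W.act (fun z => W.d z ≤ W.j) x z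

theorem Win.down_F {L Ω : Type*} (W : Win L Ω) (hD : W.Down) {x : Ω} (h1 : W.i < W.d x)
    (h2 : W.d x ≤ W.j) (k : ℤ) :
    ∃ (w : List L) (x' : Ω), W.i < W.d x' ∧ W.d x' ≤ W.j ∧
      run (W.F False) w (x, k) = (x', k - 1) := by
  obtain ⟨z, hz, hc⟩ := hD x h1 h2
  have hj := W.hj
  have hρ := W.ρ1
  induction hc using Relation.ReflTransGen.head_induction_on with
  | refl => omega
  | @head x x1 hx _ ih =>
    obtain ⟨h3, h4, a, rfl⟩ := hx
    by_cases c : W.d (W.act a x) ≤ W.i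
    · have hd' := W.hd' a x
      have h5 := W.hθd (W.act a x) (by omega) (by omega)
      refine ⟨[a], W.θ (W.act a x), by omega, by omega, ?_⟩
      rw [run_cons, run_nil, W.F_down False (p := (x, k)) c (fun h => h.1.elim)]
    · obtain ⟨w, x', h5, h6, h7⟩ := ih (by omega) h4
      refine ⟨w ++ [a], x', h5, h6, ?_⟩
      rw [run_append, run_cons, run_nil, W.F_mid False (p := (x, k)) h4 (Or.inl (by
        show W.i < W.d (W.act a x); omega))]
      exact h7

theorem Win.deep_F {L Ω : Type*} (W : Win L Ω) (hD : W.Down) (N : ℕ) :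
    ∀ {x : Ω}, W.i < W.d x → W.d x ≤ W.j → ∀ k : ℤ,
    ∃ (w : List L) (x' : Ω), W.i < W.d x' ∧ W.d x' ≤ W.j ∧
      run (W.F False) w (x, k) = (x', k - N) := by
  induction N with
  | zero => exact fun {x} h1 h2 k => ⟨[], x, h1, h2, by simp⟩
  | succ N ih =>
    intro x h1 h2 k
    obtain ⟨w, x', h3, h4, h5⟩ := W.down_F hD h1 h2 k
    obtain ⟨w', x'', h6, h7, h8⟩ := ih h3 h4 (k - 1)
    refine ⟨w' ++ w, x'', h6, h7, ?_⟩
    rw [run_append, h5, h8]
    push_cast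
    congr 1
    ring

theorem indicable_of_down {n : ℕ} {E : Type u} [Group E] (φ : FreeGroup (Fin n) →* E)
    (hφ : Function.Surjective φ) {Ω : Type v} (W : Win (Fin n × Bool) Ω)
    (Φ : E →* Equiv.Perm {p : Ω × ℤ // W.V False p})
    (hΦ : ∀ (w : List (Fin n × Bool)) (p : {p : Ω × ℤ // W.V False p}),
      (Φ (φ (FreeGroup.mk w)) p).1 = run (W.F False) w p.1) (hD : W.Down)
    (hfin : {x | W.i < W.d x ∧ W.d x ≤ W.j}.Finite) (x : Md W) :
    ∃ N : Subgroup E, N.FiniteIndex ∧ ∃ f : N →* Multiplicative ℤ, Function.Surjective f := by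
  have hs := shifty φ hφ W Φ hΦ
  have hfM : Finite (Md W) := hfin
  let N : Subgroup E := hs.actM.ker
  have hN : ∀ g ∈ N, hs.actM g = 1 := fun g hg => hg
  have hNf : N.FiniteIndex := inferInstance
  refine ⟨N, hNf, ?_⟩
  by_cases h : ∃ g, hs.transl x hN g ≠ 1
  · obtain ⟨f', h1, -⟩ := exists_surj _ h
    exact ⟨f', h1⟩
  · exfalso
    push Not at h
    have h1 : ∀ g ∈ N, Φ g (pt W x 0) = pt W x 0 := fun g hg =>
      hs.eq_of_transl hN hg (h ⟨g, hg⟩) 0
    have h2 : (Set.range fun g : E => Φ g (pt W x 0)).Finite := by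
      have : Finite (E ⧸ N) := Subgroup.finite_quotient_of_finiteIndex
      let q : E ⧸ N → {p : Ω × ℤ // W.V False p} := fun c => Φ c.out (pt W x 0)
      have h3 : (Set.range fun g : E => Φ g (pt W x 0)) ⊆ Set.range q := by
        rintro _ ⟨g, rfl⟩
        refine ⟨(g : E ⧸ N), ?_⟩
        obtain ⟨m, hm⟩ := QuotientGroup.mk_out_eq_mul N g
        simp only [q]
        rw [hm, map_mul, Equiv.Perm.mul_apply, h1 m m.2]
      exact (Set.finite_range q).subset h3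
    choose wd hwd using fun k : ℕ => W.deep_F hD k x.2.1 x.2.2 0
    have h3 : Function.Injective fun k : ℕ => (run (W.F False) (wd k) (x.1, (0 : ℤ))).2 := by
      intro k l hkl
      obtain ⟨x1, -, -, h4⟩ := hwd k
      obtain ⟨x2, -, -, h5⟩ := hwd l
      simp only at hkl
      rw [h4, h5] at hkl
      simp only at hkl
      omega
    have h4 : (Set.range fun k : ℕ => (run (W.F False) (wd k) (x.1, (0 : ℤ))).2) ⊆
        (fun p : {p : Ω × ℤ // W.V False p} => p.1.2) ''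
          (Set.range fun g : E => Φ g (pt W x 0)) := by
      rintro _ ⟨k, rfl⟩
      refine ⟨_, ⟨φ (FreeGroup.mk (wd k)), rfl⟩, ?_⟩
      simp only
      rw [hΦ]
      rfl
    exact Set.infinite_range_of_injective h3 ((h2.image _).subset h4)

section

variable {L Ω₀ Ω : Type*} (A : Att L Ω₀ Ω)

theorem Att.reach_base {x y : Ω₀} (h : Conn A.act₀ (fun z => A.d₀ z ≤ A.W.i) x y) :
    ∃ w : List L, run A.G w (Sum.inl x) = Sum.inl y := by
  induction h using Relation.ReflTransGen.head_induction_on with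
  | refl => exact ⟨[], rfl⟩
  | @head x x1 hx _ ih =>
    obtain ⟨h3, h4, a, rfl⟩ := hx
    obtain ⟨w, hw⟩ := ih
    refine ⟨w ++ [a], ?_⟩
    rw [run_append, run_cons, run_nil, A.G_inl h4, hw]

theorem Att.reach_down (hD : A.W.Down) {x : Ω} (h1 : A.W.i < A.W.d x) (h2 : A.W.d x ≤ A.W.j)
    (k : ℤ) : ∃ w : List L,
      (k = 0 ∧ ∃ x₀ : Ω₀, A.d₀ x₀ ≤ A.W.i ∧ run A.G w (Sum.inr (x, k)) = Sum.inl x₀) ∨
      (k ≠ 0 ∧ ∃ x' : Ω, A.W.i < A.W.d x' ∧ A.W.d x' ≤ A.W.j ∧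
        run A.G w (Sum.inr (x, k)) = Sum.inr (x', k - 1)) := by
  obtain ⟨z, hz, hc⟩ := hD x h1 h2
  have hj := A.W.hj
  have hρ := A.W.ρ1
  induction hc using Relation.ReflTransGen.head_induction_on with
  | refl => omega
  | @head x x1 hx _ ih =>
    obtain ⟨h3, h4, a, rfl⟩ := hx
    have hd' := A.W.hd' a x
    by_cases c : A.W.d (A.W.act a x) ≤ A.W.i
    · refine ⟨[a], ?_⟩
      rw [run_cons, run_nil]
      by_cases hk : k = 0
      · left
        have h5 := A.hτ'd (A.W.act a x) (by omega) (by omega)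
        exact ⟨hk, A.τ' (A.W.act a x), by omega, A.G_bot hk c⟩
      · right
        have h5 := A.W.hθd (A.W.act a x) (by omega) (by omega)
        refine ⟨hk, A.W.θ (A.W.act a x), by omega, by omega, ?_⟩
        rw [A.G_F (fun h => hk h.1), A.W_down c]
    · obtain ⟨w, hw⟩ := ih (by omega) h4
      have h5 : A.G a (Sum.inr (x, k)) = Sum.inr (A.W.act a x, k) := by
        rw [A.G_F (fun h => c h.2), A.W_mid (by omega) h4]
      refine ⟨w ++ [a], ?_⟩
      rw [run_append, run_cons, run_nil, h5]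
      exact hw

theorem Att.reach (hD : A.W.Down) {y : Ω₀}
    (h₀ : ∀ x, A.d₀ x ≤ A.W.i → Conn A.act₀ (fun z => A.d₀ z ≤ A.W.i) x y) (N : ℕ) :
    ∀ {x : Ω}, A.W.i < A.W.d x → A.W.d x ≤ A.W.j →
    ∃ w : List L, run A.G w (Sum.inr (x, (N : ℤ))) = Sum.inl y := by
  induction N with
  | zero =>
    intro x h1 h2
    obtain ⟨w, h | h⟩ := A.reach_down hD h1 h2 ((0 : ℕ) : ℤ)
    · obtain ⟨-, x₀, h3, h4⟩ := h
      obtain ⟨w', hw'⟩ := A.reach_base (h₀ x₀ h3)
      exact ⟨w' ++ w, by rw [run_append, h4, hw']⟩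
    · exact absurd rfl h.1
  | succ N ih =>
    intro x h1 h2
    obtain ⟨w, h | h⟩ := A.reach_down hD h1 h2 ((N + 1 : ℕ) : ℤ)
    · have := h.1
      push_cast at this
      omega
    · obtain ⟨-, x', h3, h4, h5⟩ := h
      obtain ⟨w', hw'⟩ := ih h3 h4
      refine ⟨w' ++ w, ?_⟩
      rw [run_append, h5]
      push_cast
      rw [add_sub_cancel_right]
      exact hw'

end

/-- The common kernel fixes the base points. -/
theorem fix_of_att {n : ℕ} {E : Type u} [Group E] (φ : FreeGroup (Fin n) →* E)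
    (hφ : Function.Surjective φ) (R : Set (FreeGroup (Fin n)))
    (hR : Subgroup.normalClosure R = φ.ker) {Ω₀ : Type v'} [MulAction E Ω₀] {Ω : Type v}
    [MulAction E Ω] (A : Att (Fin n × Bool) Ω₀ Ω) (hA₀ : A.act₀ = lact φ) (hA : A.W.act = lact φ)
    (hρ : 2 ≤ A.W.ρ) (hρR : ∀ r ∈ R, r.toWord.length ≤ A.W.ρ) (y : Ω₀)
    (h₀ : ∀ x, A.d₀ x ≤ A.W.i → Conn A.act₀ (fun z => A.d₀ z ≤ A.W.i) x y) (hD : A.W.Down)
    (m0 : ℕ) (hfM : {x | A.W.i < A.W.d x ∧ A.W.d x ≤ A.W.j}.Finite)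
    (hm0 : Nat.card (Md A.W) ≤ m0) (hne : Nonempty (Md A.W)) (K : Subgroup E) (hKn : K.Normal)
    (hK1 : K ≤ E0 E m0)
    (hK2 : ∀ g (hg : g ∈ E0 E m0), g ∈ K → ∀ χ : E0 E m0 →* Multiplicative ℤ, χ ⟨g, hg⟩ = 1)
    (r : ℕ) (hr : ∀ v : List (Fin n × Bool), v.length ≤ r → A.d₀ (run A.act₀ v y) ≤ A.W.i)
    (T : Set E) (hT : Subgroup.closure T = K)
    (hTr : ∀ g ∈ T, ∃ w : List (Fin n × Bool), w.length ≤ r ∧ φ (FreeGroup.mk w) = g) :
    ∀ g ∈ K, g • y = y := by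
  have hone : ∀ r ∈ R, φ r = 1 := by
    intro r hr
    have h2 : r ∈ φ.ker := by
      rw [← hR]
      exact Subgroup.subset_normalClosure hr
    exact h2
  obtain ⟨Φ1, hΦ1'⟩ := exists_hom φ hφ R hR A.Gs (fun a q => by
    apply Subtype.ext
    exact A.run_eq (w := [linv a, a]) (by simpa using hρ) (fun x => by
      rw [hA₀, run_cons, run_cons, run_nil, lact_linv]) (fun x => by
      rw [hA, run_cons, run_cons, run_nil, lact_linv]) q.2) (fun r hr q => by
    apply Subtype.ext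
    rw [A.run_Gs]
    apply A.run_eq (hρR r hr) _ _ q.2
    · intro x
      rw [hA₀, run_lact, FreeGroup.mk_toWord, hone r hr, one_smul]
    · intro x
      rw [hA, run_lact, FreeGroup.mk_toWord, hone r hr, one_smul])
  have hΦ1 : ∀ (w : List (Fin n × Bool)) (q : {q : Ω₀ ⊕ (Ω × ℤ) // A.VV q}),
      (Φ1 (φ (FreeGroup.mk w)) q).1 = run A.G w q.1 := fun w q => by rw [hΦ1', A.run_Gs]
  obtain ⟨Φ2, hΦ2⟩ := glue_hom φ hφ R hR A.W hA hρ hρR False
  have hs := shifty φ hφ A.W Φ2 hΦ2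
  have hfM' : Finite (Md A.W) := hfM
  have hN : ∀ g ∈ E0 E m0, hs.actM g = 1 := fun g hg => E0_apply hg hm0 hs.actM
  obtain ⟨x⟩ := hne
  -- the deep point
  let p : {q : Ω₀ ⊕ (Ω × ℤ) // A.VV q} :=
    ⟨Sum.inr (x.1, ((r + 1 : ℕ) : ℤ)), x.2.1, x.2.2, by
      show (0 : ℤ) ≤ ((r + 1 : ℕ) : ℤ); positivity⟩
  have hp : ∀ g ∈ K, Φ1 g p = p := by
    have h1 : K ≤ (MulAction.stabilizer (Equiv.Perm {q : Ω₀ ⊕ (Ω × ℤ) // A.VV q}) p).comap
        Φ1 := by
      rw [← hT, Subgroup.closure_le]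
      intro g hg
      show Φ1 g p = p
      obtain ⟨w, hw, rfl⟩ := hTr g hg
      apply Subtype.ext
      rw [hΦ1, A.run_deep (by show (w.length : ℤ) < ((r + 1 : ℕ) : ℤ); push_cast; omega)]
      have h2 := hΦ2 w (pt A.W x ((r + 1 : ℕ) : ℤ))
      have h3 : φ (FreeGroup.mk w) ∈ K := by rw [← hT]; exact Subgroup.subset_closure hg
      rw [hs.eq_of_transl hN (hK1 h3) (hK2 _ (hK1 h3) h3 (hs.transl x hN))] at h2
      exact congrArg Sum.inr h2.symm
    intro g hg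
    exact h1 hg
  -- the base point
  obtain ⟨w, hw⟩ := A.reach hD h₀ (r + 1) x.2.1 x.2.2
  let b : {q : Ω₀ ⊕ (Ω × ℤ) // A.VV q} := ⟨Sum.inl y, hr [] (by simp)⟩
  have hb : Φ1 (φ (FreeGroup.mk w)) p = b := by
    apply Subtype.ext
    rw [hΦ1]
    exact hw
  have hbK : ∀ g ∈ K, Φ1 g b = b := by
    intro g hg
    have h1 : (φ (FreeGroup.mk w))⁻¹ * g * (φ (FreeGroup.mk w)) ∈ K := by
      have h2 := hKn.conj_mem g hg (φ (FreeGroup.mk w))⁻¹
      rwa [inv_inv] at h2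
    have h2 := hp _ h1
    have h3 : g * φ (FreeGroup.mk w) =
        φ (FreeGroup.mk w) * ((φ (FreeGroup.mk w))⁻¹ * g * (φ (FreeGroup.mk w))) := by group
    rw [← hb, ← Equiv.Perm.mul_apply, ← map_mul, h3, map_mul, Equiv.Perm.mul_apply, h2]
  have hfinal : K ≤ MulAction.stabilizer E y := by
    rw [← hT, Subgroup.closure_le]
    intro g hg
    show g • y = y
    have h3 : g ∈ K := by rw [← hT]; exact Subgroup.subset_closure hg
    have h4 := hbK g h3
    obtain ⟨v, hv, rfl⟩ := hTr g hg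
    have h5 := congrArg Subtype.val h4
    rw [hΦ1] at h5
    have h6 : run A.G v (Sum.inl y) = Sum.inl (run A.act₀ v y) :=
      A.run_shallow (fun v' hv' => hr v' (hv'.trans hv))
    have h7 : run A.G v b.1 = run A.G v (Sum.inl y) := rfl
    rw [h7, h6] at h5
    have h8 := Sum.inl.inj h5
    rw [hA₀, run_lact] at h8
    exact h8
  exact fun g hg => hfinal hg

end Pool.Agent.H76.Pump
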