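import Pool.Agent.Lib.H76.Pump.Code

/-!
# The distance from a base point in a transitive set
-/

namespace Pool.Agent.H76.Pump

section

variable {n : ℕ} {E : Type*} [Group E] (φ : FreeGroup (Fin n) →* E) {Ω : Type*} [MulAction E Ω]
  (y : Ω)

/-- the distance from the base point -/
noncomputable def dist (x : Ω) : ℕ :=
  sInf {l | ∃ w : List (Fin n × Bool), w.length = l ∧ run (lact φ) w y = x}

theorem dist_le {w : List (Fin n × Bool)} {x : Ω} (h : run (lact φ) w y = x) :
    dist φ y x ≤ w.length := Nat.sInf_le ⟨w, rfl, h⟩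

variable (hφ : Function.Surjective φ) (htr : ∀ x : Ω, ∃ g : E, g • y = x)

include hφ htr

theorem exists_word (x : Ω) : ∃ w : List (Fin n × Bool), w.length = dist φ y x ∧
    run (lact φ) w y = x := by
  have h : {l | ∃ w : List (Fin n × Bool), w.length = l ∧ run (lact φ) w y = x}.Nonempty := by
    obtain ⟨g, hg⟩ := htr x
    obtain ⟨u, hu⟩ := hφ g
    refine ⟨_, u.toWord, rfl, ?_⟩
    rw [run_lact, FreeGroup.mk_toWord, hu, hg]
  exact Nat.sInf_mem h

theorem dist_act (a : Fin n × Bool) (x : Ω) : dist φ y (lact φ a x) ≤ dist φ y x + 1 := by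
  obtain ⟨w, hw, hx⟩ := exists_word φ y hφ htr x
  rw [← hw, ← List.length_cons (a := a)]
  apply dist_le
  rw [run_cons, hx]

theorem dist_act' (a : Fin n × Bool) (x : Ω) : dist φ y x ≤ dist φ y (lact φ a x) + 1 := by
  have h := dist_act φ y hφ htr (linv a) (lact φ a x)
  rwa [lact_linv] at h

theorem dist_eq_zero {x : Ω} (h : dist φ y x = 0) : x = y := by
  obtain ⟨w, hw, hx⟩ := exists_word φ y hφ htr x
  rw [h, List.length_eq_zero_iff] at hw
  rw [hw, run_nil] at hx
  exact hx.symm

omit hφ htr in
theorem dist_self : dist φ y y = 0 := by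
  have h := dist_le φ y (w := []) (x := y) rfl
  simpa using h

theorem dist_desc (x : Ω) (h : dist φ y x ≠ 0) : ∃ a, dist φ y (lact φ a x) + 1 = dist φ y x := by
  obtain ⟨w, hw, hx⟩ := exists_word φ y hφ htr x
  cases w with
  | nil => exact absurd hw.symm h
  | cons a w =>
    refine ⟨linv a, ?_⟩
    rw [run_cons] at hx
    have h1 : lact φ (linv a) x = run (lact φ) w y := by rw [← hx, lact_linv]
    have h2 := dist_le φ y h1.symm
    have h3 := dist_act' φ y hφ htr (linv a) x
    rw [List.length_cons] at hw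
    omega

theorem dist_ball_finite (r : ℕ) : {x : Ω | dist φ y x ≤ r}.Finite := by
  have h1 : {x : Ω | dist φ y x ≤ r} ⊆
      (fun w => run (lact φ) w y) '' {w : List (Fin n × Bool) | w.length ≤ r} := by
    intro x hx
    obtain ⟨w, hw, hx'⟩ := exists_word φ y hφ htr x
    exact ⟨w, by rw [Set.mem_ofPred_eq, hw]; exact hx, hx'⟩
  exact ((List.finite_length_le (Fin n × Bool) r).image _).subset h1

/-- There are points at every distance up to the radius. -/
theorem exists_dist_eq {x : Ω} {r : ℕ} (h : r ≤ dist φ y x) : ∃ z, dist φ y z = r := by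
  induction hk : dist φ y x - r generalizing x with
  | zero => exact ⟨x, by omega⟩
  | succ k ih =>
    obtain ⟨a, ha⟩ := dist_desc φ y hφ htr x (by omega)
    exact ih (x := lact φ a x) (by omega) (by omega)

end

end Pool.Agent.H76.Pump
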