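import Pool.Agent.Lib.H76.Pump.Core
import Pool.Agent.Lib.H76.Pump.Dist

/-!
# Finite sets with small boundary and their collars
-/

namespace Pool.Agent.H76.Pump

universe u v

section

variable {n : ℕ} {E : Type*} [Group E] (φ : FreeGroup (Fin n) →* E) {Ω : Type*} [MulAction E Ω]

theorem run_invRev (w : List (Fin n × Bool)) (x : Ω) :
    run (lact φ) (FreeGroup.invRev w) (run (lact φ) w x) = x := by
  rw [run_lact, run_lact, ← FreeGroup.inv_mk, map_inv, inv_smul_smul]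

/-- the distance from `z` to the set `A` -/
noncomputable def dset (A : Set Ω) (z : Ω) : ℕ :=
  sInf {l | ∃ w : List (Fin n × Bool), w.length = l ∧ run (lact φ) w z ∈ A}

theorem dset_le {A : Set Ω} {z : Ω} {w : List (Fin n × Bool)} (h : run (lact φ) w z ∈ A) :
    dset φ A z ≤ w.length := Nat.sInf_le ⟨w, rfl, h⟩

variable (hφ : Function.Surjective φ) (htr : ∀ x y : Ω, ∃ g : E, g • x = y)

include hφ htr

theorem dset_spec {A : Set Ω} (hA : A.Nonempty) (z : Ω) :
    ∃ w : List (Fin n × Bool), w.length = dset φ A z ∧ run (lact φ) w z ∈ A := by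
  have h : {l | ∃ w : List (Fin n × Bool), w.length = l ∧ run (lact φ) w z ∈ A}.Nonempty := by
    obtain ⟨y, hy⟩ := hA
    obtain ⟨g, hg⟩ := htr z y
    obtain ⟨u, hu⟩ := hφ g
    refine ⟨_, u.toWord, rfl, ?_⟩
    rw [run_lact, FreeGroup.mk_toWord, hu, hg]
    exact hy
  exact Nat.sInf_mem h

theorem dset_act' {A : Set Ω} (hA : A.Nonempty) (a : Fin n × Bool) (z : Ω) :
    dset φ A z ≤ dset φ A (lact φ a z) + 1 := by
  obtain ⟨w, hw, h⟩ := dset_spec φ hφ htr hA (lact φ a z)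
  have h1 : run (lact φ) (w ++ [a]) z ∈ A := by
    rw [run_append]
    exact h
  have h2 := dset_le φ h1
  rw [List.length_append, hw] at h2
  exact h2

theorem dset_act {A : Set Ω} (hA : A.Nonempty) (a : Fin n × Bool) (z : Ω) :
    dset φ A (lact φ a z) ≤ dset φ A z + 1 := by
  have h := dset_act' φ hφ htr hA (linv a) (lact φ a z)
  rwa [lact_linv] at h

theorem dset_eq_zero {A : Set Ω} (hA : A.Nonempty) {z : Ω} : dset φ A z = 0 ↔ z ∈ A := by
  constructor
  · intro h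
    obtain ⟨w, hw, h1⟩ := dset_spec φ hφ htr hA z
    rw [h, List.length_eq_zero_iff] at hw
    rw [hw] at h1
    exact h1
  · intro h
    have h1 := dset_le φ (A := A) (z := z) (w := []) h
    simpa using h1

end

section

variable {n : ℕ} {E : Type*} [Group E] (φ : FreeGroup (Fin n) →* E) {Ω : Type*} [MulAction E Ω]
  (ρ : ℕ)

open Classical in
/-- The clipped signed distance: at most `ρ + 1` inside `F`, more outside. -/
noncomputable def sd (F : Set Ω) (z : Ω) : ℕ :=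
  if z ∈ F then ρ + 2 - min (dset φ Fᶜ z) (ρ + 2) else ρ + 1 + min (dset φ F z) (ρ + 1)

/-- the points of `F` with a neighbour outside `F` -/
def bd (F : Set Ω) : Set Ω := {z | z ∈ F ∧ ∃ a, lact φ a z ∉ F}

theorem sd_in {F : Set Ω} {z : Ω} (h : z ∈ F) : sd φ ρ F z = ρ + 2 - min (dset φ Fᶜ z) (ρ + 2) := by
  unfold sd; rw [if_pos h]

theorem sd_out {F : Set Ω} {z : Ω} (h : z ∉ F) : sd φ ρ F z = ρ + 1 + min (dset φ F z) (ρ + 1) := by
  unfold sd; rw [if_neg h]

theorem sd_le (F : Set Ω) (z : Ω) : sd φ ρ F z ≤ 2 * ρ + 2 := by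
  by_cases h : z ∈ F
  · rw [sd_in φ ρ h]; omega
  · rw [sd_out φ ρ h]; omega

variable (hφ : Function.Surjective φ) (htr : ∀ x y : Ω, ∃ g : E, g • x = y)

include hφ htr

theorem sd_mem {F : Set Ω} (hF : F.Nonempty) (hF' : Fᶜ.Nonempty) (z : Ω) :
    sd φ ρ F z ≤ ρ + 1 ↔ z ∈ F := by
  by_cases h : z ∈ F
  · rw [sd_in φ ρ h]
    have h1 : dset φ Fᶜ z ≠ 0 := fun h0 => (dset_eq_zero φ hφ htr hF').1 h0 h
    simp only [h, iff_true]
    omega
  · rw [sd_out φ ρ h]
    have h1 : dset φ F z ≠ 0 := fun h0 => h ((dset_eq_zero φ hφ htr hF).1 h0)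
    simp only [h, iff_false]
    omega

theorem sd_act {F : Set Ω} (hF : F.Nonempty) (hF' : Fᶜ.Nonempty) (a : Fin n × Bool) (z : Ω) :
    sd φ ρ F (lact φ a z) ≤ sd φ ρ F z + 1 := by
  have h1 := dset_act φ hφ htr hF a z
  have h2 := dset_act' φ hφ htr hF a z
  have h3 := dset_act φ hφ htr hF' a z
  have h4 := dset_act' φ hφ htr hF' a z
  have h5 := dset_eq_zero φ hφ htr hF (z := z)
  have h6 := dset_eq_zero φ hφ htr hF' (z := z)
  have h7 := dset_eq_zero φ hφ htr hF (z := lact φ a z)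
  have h8 := dset_eq_zero φ hφ htr hF' (z := lact φ a z)
  by_cases c1 : z ∈ F
  · have e1 : dset φ F z = 0 := h5.2 c1
    have e2 : dset φ Fᶜ z ≠ 0 := fun h0 => h6.1 h0 c1
    by_cases c2 : lact φ a z ∈ F
    · rw [sd_in φ ρ c1, sd_in φ ρ c2]
      omega
    · have e3 : dset φ Fᶜ (lact φ a z) = 0 := h8.2 c2
      rw [sd_in φ ρ c1, sd_out φ ρ c2]
      omega
  · have e1 : dset φ Fᶜ z = 0 := h6.2 c1
    by_cases c2 : lact φ a z ∈ F
    · have e3 : dset φ Fᶜ (lact φ a z) ≠ 0 := fun h0 => h8.1 h0 c2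
      rw [sd_out φ ρ c1, sd_in φ ρ c2]
      omega
    · rw [sd_out φ ρ c1, sd_out φ ρ c2]
      omega

theorem sd_act' {F : Set Ω} (hF : F.Nonempty) (hF' : Fᶜ.Nonempty) (a : Fin n × Bool) (z : Ω) :
    sd φ ρ F z ≤ sd φ ρ F (lact φ a z) + 1 := by
  have h := sd_act φ ρ hφ htr hF hF' (linv a) (lact φ a z)
  rwa [lact_linv] at h

/-- The collar is covered by the translates of the boundary. -/
theorem collar_subset {F : Set Ω} (hF : F.Nonempty) (hF' : Fᶜ.Nonempty) :
    {z | 1 ≤ sd φ ρ F z ∧ sd φ ρ F z ≤ 2 * ρ + 1} ⊆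
      (fun p : List (Fin n × Bool) × Ω => run (lact φ) p.1 p.2) ''
        ({w | w.length ≤ ρ} ×ˢ bd φ F) := by
  rintro z ⟨h1, h2⟩
  by_cases c : z ∈ F
  · rw [sd_in φ ρ c] at h1
    have h3 : dset φ Fᶜ z ≤ ρ + 1 := by omega
    have h4 : dset φ Fᶜ z ≠ 0 := fun h0 => (dset_eq_zero φ hφ htr hF').1 h0 c
    obtain ⟨w, hw, h5⟩ := dset_spec φ hφ htr hF' z
    cases w with
    | nil => exact absurd hw.symm h4
    | cons a w =>
      rw [List.length_cons] at hw
      have h6 : run (lact φ) w z ∈ F := by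
        by_contra h7
        have h8 := dset_le φ (A := Fᶜ) (z := z) (w := w) h7
        omega
      refine ⟨(FreeGroup.invRev w, run (lact φ) w z), ⟨?_, h6, a, h5⟩, run_invRev φ w z⟩
      show (FreeGroup.invRev w).length ≤ ρ
      rw [FreeGroup.invRev_length]
      omega
  · rw [sd_out φ ρ c] at h2
    have h3 : dset φ F z ≤ ρ := by omega
    have h4 : dset φ F z ≠ 0 := fun h0 => c ((dset_eq_zero φ hφ htr hF).1 h0)
    obtain ⟨w, hw, h5⟩ := dset_spec φ hφ htr hF z
    cases w with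
    | nil => exact absurd hw.symm h4
    | cons a w =>
      have h6 : run (lact φ) w z ∉ F := by
        intro h7
        have h8 := dset_le φ (A := F) (z := z) (w := w) h7
        rw [List.length_cons] at hw
        omega
      refine ⟨(FreeGroup.invRev (a :: w), run (lact φ) (a :: w) z), ⟨?_, h5, linv a, ?_⟩,
        run_invRev φ (a :: w) z⟩
      · show (FreeGroup.invRev (a :: w)).length ≤ ρ
        rw [FreeGroup.invRev_length]
        omega
      · rw [run_cons, lact_linv]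
        exact h6

theorem collar_finite {F : Set Ω} (hF : F.Nonempty) (hF' : Fᶜ.Nonempty) (hfin : F.Finite) :
    {z | 1 ≤ sd φ ρ F z ∧ sd φ ρ F z ≤ 2 * ρ + 1}.Finite := by
  refine Set.Finite.subset (Set.Finite.image _ (Set.Finite.prod
    (List.finite_length_le (Fin n × Bool) ρ) (hfin.subset fun z hz => hz.1)))
    (collar_subset φ ρ hφ htr hF hF')

theorem collar_ncard {F : Set Ω} (hF : F.Nonempty) (hF' : Fᶜ.Nonempty) (hfin : F.Finite) :
    {z | 1 ≤ sd φ ρ F z ∧ sd φ ρ F z ≤ 2 * ρ + 1}.ncard ≤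
      {w : List (Fin n × Bool) | w.length ≤ ρ}.ncard * (bd φ F).ncard := by
  have h1 := List.finite_length_le (Fin n × Bool) ρ
  have h2 : (bd φ F).Finite := hfin.subset fun z hz => hz.1
  refine (Set.ncard_le_ncard (collar_subset φ ρ hφ htr hF hF')
    (Set.Finite.image _ (Set.Finite.prod h1 h2))).trans ?_
  refine (Set.ncard_image_le (Set.Finite.prod h1 h2)).trans ?_
  rw [Set.ncard_prod]

end

section

variable {n : ℕ} {E : Type*} [Group E] (φ : FreeGroup (Fin n) →* E) {Ω : Type*} [MulAction E Ω]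
  (ρ : ℕ)

/-- `F'` contains the `(2 * ρ + 3)`-neighbourhood of `F`. -/
def Sep (F F' : Set Ω) : Prop :=
  ∀ z ∈ F, ∀ w : List (Fin n × Bool), w.length ≤ 2 * ρ + 3 → run (lact φ) w z ∈ F'

variable (hφ : Function.Surjective φ) (htr : ∀ x y : Ω, ∃ g : E, g • x = y)

include hφ htr

theorem sd_sep {F F' : Set Ω} (hs : Sep φ ρ F F') (hF : F.Nonempty) (hF' : F'ᶜ.Nonempty) {z : Ω}
    (hz : dset φ F z ≤ ρ + 1) : sd φ ρ F' z = 0 := by
  obtain ⟨w, hw, h1⟩ := dset_spec φ hφ htr hF z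
  have hzF' : z ∈ F' := by
    have h2 := hs _ h1 (FreeGroup.invRev w) (by rw [FreeGroup.invRev_length]; omega)
    rwa [run_invRev] at h2
  rw [sd_in φ ρ hzF']
  have h2 : ρ + 2 ≤ dset φ F'ᶜ z := by
    by_contra h3
    push Not at h3
    obtain ⟨v, hv, h4⟩ := dset_spec φ hφ htr hF' z
    apply h4
    have h5 := hs _ h1 (v ++ FreeGroup.invRev w) (by
      rw [List.length_append, FreeGroup.invRev_length]; omega)
    rwa [run_append, run_invRev] at h5
  omega

theorem sd_sep' {F F' : Set Ω} (hs : Sep φ ρ F F') (hF : F.Nonempty) (hF' : F'ᶜ.Nonempty) {z : Ω}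
    (hz : sd φ ρ F z ≤ 2 * ρ + 1) : sd φ ρ F' z = 0 := by
  apply sd_sep φ ρ hφ htr hs hF hF'
  by_cases c : z ∈ F
  · rw [(dset_eq_zero φ hφ htr hF).2 c]
    omega
  · rw [sd_out φ ρ c] at hz
    omega

theorem sd_near {F F' : Set Ω} (hs : Sep φ ρ F F') (hF : F.Nonempty) (hF' : F'ᶜ.Nonempty) {z : Ω}
    (a : Fin n × Bool) (hz : sd φ ρ F z ≤ 2 * ρ + 1) : sd φ ρ F' (lact φ a z) = 0 := by
  apply sd_sep φ ρ hφ htr hs hF hF'
  have h1 := dset_act φ hφ htr hF a z
  by_cases c : z ∈ F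
  · rw [(dset_eq_zero φ hφ htr hF).2 c] at h1
    omega
  · rw [sd_out φ ρ c] at hz
    omega

end

end Pool.Agent.H76.Pump
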