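import Pool.Agent.Lib.H76.Pump.Hom

/-!
# The common kernel of the translation numbers fixes base points
-/

namespace Pool.Agent.H76.Pump

universe u v

theorem ht_nonneg {L : Type*} {Ω : Type v} (W : Win L Ω) {p : Ω × ℤ} (hp : W.V True p) :
    0 ≤ W.ht p := by
  have h1 := hp.2.2 trivial
  have hj := W.hj
  have h3 : (0 : ℤ) ≤ (W.j : ℤ) - W.i := by omega
  unfold Win.ht
  positivity

theorem fix_of_common_kernel {n : ℕ} {E : Type u} [Group E] (φ : FreeGroup (Fin n) →* E)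
    (hφ : Function.Surjective φ) (R : Set (FreeGroup (Fin n)))
    (hR : Subgroup.normalClosure R = φ.ker) {Ω : Type v} [MulAction E Ω] (y : Ω)
    (W : Win (Fin n × Bool) Ω) (hW : W.act = lact φ) (hρ : 2 ≤ W.ρ)
    (hρR : ∀ r ∈ R, r.toWord.length ≤ W.ρ)
    (hdesc : ∀ x, W.d x ≠ 0 → ∃ a, W.d (W.act a x) + 1 = W.d x)
    (hd0 : ∀ x, W.d x = 0 → x = y) (hy : W.d y = 0)
    (hfin : {x | W.d x ≤ W.j}.Finite) (m0 : ℕ) (hm0 : Nat.card (Md W) ≤ m0)
    (hne : Nonempty (Md W)) (K : Subgroup E) (hKn : K.Normal) (hK1 : K ≤ E0 E m0)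
    (hK2 : ∀ g (hg : g ∈ E0 E m0), g ∈ K → ∀ χ : E0 E m0 →* Multiplicative ℤ, χ ⟨g, hg⟩ = 1)
    (r : ℕ) (hr : r ≤ W.j) (T : Set E) (hT : Subgroup.closure T = K)
    (hTr : ∀ g ∈ T, ∃ w : List (Fin n × Bool), w.length ≤ r ∧ φ (FreeGroup.mk w) = g) :
    ∀ g ∈ K, g • y = y := by
  obtain ⟨Φ1, hΦ1⟩ := glue_hom φ hφ R hR W hW hρ hρR True
  obtain ⟨Φ2, hΦ2⟩ := glue_hom φ hφ R hR W hW hρ hρR False
  have hs := shifty φ hφ W Φ2 hΦ2
  have hfM : Finite (Md W) := (hfin.subset fun x hx => hx.2 : {x | W.i < W.d x ∧ W.d x ≤ W.j}.Finite)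
  have hN : ∀ g ∈ E0 E m0, hs.actM g = 1 := fun g hg => E0_apply hg hm0 hs.actM
  obtain ⟨x⟩ := hne
  -- the deep point
  let p : {p : Ω × ℤ // W.V True p} :=
    ⟨(x.1, (r : ℤ) + 1), x.2.2, Or.inl x.2.1, fun _ => by show (0 : ℤ) ≤ (r : ℤ) + 1; positivity⟩
  have hp : ∀ g ∈ K, Φ1 g p = p := by
    have h1 : K ≤ (MulAction.stabilizer (Equiv.Perm {p : Ω × ℤ // W.V True p}) p).comap Φ1 := by
      rw [← hT, Subgroup.closure_le]
      intro g hg
      show Φ1 g p = p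
      obtain ⟨w, hw, rfl⟩ := hTr g hg
      apply Subtype.ext
      rw [hΦ1, W.run_agree (by show (w.length : ℤ) < (r : ℤ) + 1; omega)]
      have h2 := hΦ2 w (pt W x ((r : ℤ) + 1))
      have h3 : φ (FreeGroup.mk w) ∈ K := by rw [← hT]; exact Subgroup.subset_closure hg
      rw [hs.eq_of_transl hN (hK1 h3) (hK2 _ (hK1 h3) h3 (hs.transl x hN))] at h2
      exact h2.symm
    intro g hg
    exact h1 hg
  -- the bottom point
  obtain ⟨N, hN2⟩ := Int.eq_ofNat_of_zero_le (ht_nonneg W p.2)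
  obtain ⟨w, hw1, hw2⟩ := W.exists_bottom hdesc N p.2 hN2
  let b : {p : Ω × ℤ // W.V True p} :=
    ⟨(y, 0), by show W.d y ≤ W.j; omega, Or.inr ⟨trivial, rfl⟩, fun _ => le_rfl⟩
  have hb : Φ1 (φ (FreeGroup.mk w)) p = b := by
    apply Subtype.ext
    rw [hΦ1]
    exact Prod.ext (hd0 _ hw1) hw2
  have hbK : ∀ g ∈ K, Φ1 g b = b := by
    intro g hg
    have h1 : (φ (FreeGroup.mk w))⁻¹ * g * (φ (FreeGroup.mk w)) ∈ K := by
      have h2 := hKn.conj_mem g hg (φ (FreeGroup.mk w))⁻¹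
      rwa [inv_inv] at h2
    have h2 := hp _ h1
    have h3 : g * φ (FreeGroup.mk w) =
        φ (FreeGroup.mk w) * ((φ (FreeGroup.mk w))⁻¹ * g * (φ (FreeGroup.mk w))) := by group
    rw [← hb, ← Equiv.Perm.mul_apply, ← map_mul, h3, map_mul, Equiv.Perm.mul_apply, h2]
  have hfinal : K ≤ MulAction.stabilizer E y := by
    rw [← hT, Subgroup.closure_le]
    intro g hg
    show g • y = y
    have h3 : g ∈ K := by rw [← hT]; exact Subgroup.subset_closure hg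
    have h4 := hbK g h3
    obtain ⟨v, hv, rfl⟩ := hTr g hg
    have h5 := congrArg Subtype.val h4
    rw [hΦ1] at h5
    have h6 : run (W.F True) v (y, 0) = (run W.act v y, 0) := W.run_base (by omega)
    have h7 : run (W.F True) v b.1 = run (W.F True) v (y, 0) := rfl
    rw [h7, h6] at h5
    have h8 := congrArg Prod.fst h5
    simp only at h8
    rw [hW, run_lact] at h8
    exact h8
  exact fun g hg => hfinal hg

end Pool.Agent.H76.Pump
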