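import Pool.Agent.Lib.H76.Pump.MR

/-!
# The common kernel of all homomorphisms to the integers
-/

namespace Pool.Agent.H76.Pump

universe u

variable {G : Type u} [Group G]

theorem fg_map {H : Type*} [Group H] (f : G →* H) {K : Subgroup G} (hK : K.FG) : (K.map f).FG := by
  rw [Subgroup.fg_iff] at hK ⊢
  obtain ⟨S, hS, hf⟩ := hK
  refine ⟨f '' S, ?_, hf.image _⟩
  rw [← hS, MonoidHom.map_closure]

theorem inf_ker_fg (hns : NoFreeSemigroup G) {K : Subgroup G} (hK : K.FG)
    (χ : G →* Multiplicative ℤ) : (K ⊓ χ.ker).FG := by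
  have h1 : Group.FG K := (Group.fg_iff_subgroup_fg K).2 hK
  have h2 := ker_fg h1 (hns.subgroup K) (χ.comp K.subtype)
  have h3 : K ⊓ χ.ker = ((χ.comp K.subtype).ker).map K.subtype := by
    ext g
    constructor
    · rintro ⟨h4, h5⟩
      exact ⟨⟨g, h4⟩, h5, rfl⟩
    · rintro ⟨x, hx, rfl⟩
      exact ⟨x.2, hx⟩
  rw [h3]
  exact fg_map _ h2

theorem finset_ker_fg (hfg : Group.FG G) (hns : NoFreeSemigroup G)
    (l : List (G →* Multiplicative ℤ)) :
    ∃ K : Subgroup G, K.FG ∧ ∀ g, g ∈ K ↔ ∀ χ ∈ l, χ g = 1 := by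
  induction l with
  | nil => exact ⟨⊤, Group.fg_def.1 hfg, by simp⟩
  | cons χ l ih =>
    obtain ⟨K, hK, h⟩ := ih
    refine ⟨K ⊓ χ.ker, inf_ker_fg hns hK χ, fun g => ?_⟩
    rw [Subgroup.mem_inf, h, MonoidHom.mem_ker]
    simp only [List.mem_cons, forall_eq_or_imp]
    exact and_comm

theorem exists_finset_homs (hfg : Group.FG G) :
    ∃ l : List (G →* Multiplicative ℤ), ∀ g, (∀ χ ∈ l, χ g = 1) →
      ∀ χ : G →* Multiplicative ℤ, χ g = 1 := by
  classical
  obtain ⟨T, hT⟩ := Group.fg_def.1 hfg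
  let res : (G →* Multiplicative ℤ) → (T → ℤ) := fun χ t => Multiplicative.toAdd (χ t)
  have h1 : (Submodule.span ℤ (Set.range res)).FG := IsNoetherian.noetherian _
  rw [Submodule.fg_span_iff_fg_span_finset_subset] at h1
  obtain ⟨s, hs, hspan⟩ := h1
  choose! ψ hψ using fun v (hv : v ∈ s) => hs hv
  refine ⟨s.toList.map ψ, fun g hg χ => ?_⟩
  have h2 : ∀ v ∈ s, (ψ v) g = 1 := fun v hv =>
    hg _ (List.mem_map.2 ⟨v, Finset.mem_toList.2 hv, rfl⟩)
  have h3 : res χ ∈ Submodule.span ℤ (s : Set (T → ℤ)) := by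
    rw [← hspan]
    exact Submodule.subset_span ⟨χ, rfl⟩
  have key : ∀ u ∈ Submodule.span ℤ (s : Set (T → ℤ)),
      ∃ η : G →* Multiplicative ℤ, res η = u ∧ η g = 1 := by
    intro u hu
    induction hu using Submodule.span_induction with
    | mem v hv => exact ⟨ψ v, hψ v hv, h2 v hv⟩
    | zero => exact ⟨1, by ext t; rfl, rfl⟩
    | add v w _ _ hv hw =>
      obtain ⟨η, h5, h6⟩ := hv
      obtain ⟨η', h7, h8⟩ := hw
      refine ⟨η * η', ?_, by rw [MonoidHom.mul_apply, h6, h8, one_mul]⟩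
      rw [← h5, ← h7]
      ext t
      rfl
    | smul a v _ hv =>
      obtain ⟨η, h5, h6⟩ := hv
      refine ⟨η ^ a, ?_, ?_⟩
      · rw [← h5]
        ext t
        show Multiplicative.toAdd ((η ^ a) t) = a • Multiplicative.toAdd (η t)
        rw [← toAdd_zpow]
        rfl
      · show (η g) ^ a = 1
        rw [h6, one_zpow]
  obtain ⟨η, h5, h6⟩ := key _ h3
  have h7 : η = χ := by
    apply MonoidHom.eq_of_eqOn_dense hT
    intro t ht
    have h8 := congrFun h5 ⟨t, ht⟩
    exact Multiplicative.toAdd.injective h8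
  rw [← h7]
  exact h6

/-- The common kernel of all homomorphisms to the integers is finitely generated. -/
theorem exists_common_kernel (hfg : Group.FG G) (hns : NoFreeSemigroup G) :
    ∃ K : Subgroup G, K.FG ∧ ∀ g, g ∈ K ↔ ∀ χ : G →* Multiplicative ℤ, χ g = 1 := by
  obtain ⟨l, hl⟩ := exists_finset_homs hfg
  obtain ⟨K, hK, h⟩ := finset_ker_fg hfg hns l
  refine ⟨K, hK, fun g => ?_⟩
  rw [h]
  exact ⟨hl g, fun h2 χ _ => h2 χ⟩

/-- Elements acting trivially in all actions on at most `m` points. -/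
def E0 (G : Type u) [Group G] (m : ℕ) : Subgroup G :=
  ⨅ (k : Fin (m + 1)), ⨅ (ψ : G →* Equiv.Perm (Fin k)), ψ.ker

instance E0_normal (m : ℕ) : (E0 G m).Normal := by
  unfold E0
  apply Subgroup.normal_iInf_normal
  intro k
  apply Subgroup.normal_iInf_normal
  intro ψ
  infer_instance

theorem finite_homs (hfg : Group.FG G) (P : Type*) [Group P] [Finite P] : Finite (G →* P) := by
  obtain ⟨T, hT⟩ := Group.fg_def.1 hfg
  apply Finite.of_injective (fun (f : G →* P) (t : T) => f t)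
  intro f g h
  apply MonoidHom.eq_of_eqOn_dense hT
  intro t ht
  exact congrFun h ⟨t, ht⟩

theorem E0_finiteIndex (hfg : Group.FG G) (m : ℕ) : (E0 G m).FiniteIndex := by
  unfold E0
  apply Subgroup.finiteIndex_iInf
  intro k
  have := finite_homs hfg (Equiv.Perm (Fin k))
  apply Subgroup.finiteIndex_iInf
  intro ψ
  infer_instance

theorem E0_apply {m : ℕ} {g : G} (hg : g ∈ E0 G m) {Z : Type*} [Finite Z] (hZ : Nat.card Z ≤ m)
    (ψ : G →* Equiv.Perm Z) : ψ g = 1 := by
  let e : Z ≃ Fin (Nat.card Z) := Finite.equivFin Z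
  let ψ' : G →* Equiv.Perm (Fin (Nat.card Z)) := (e.permCongrHom.toMonoidHom).comp ψ
  have h1 : g ∈ ψ'.ker := by
    have h2 := Subgroup.mem_iInf.1 hg ⟨Nat.card Z, by omega⟩
    exact Subgroup.mem_iInf.1 h2 ψ'
  have h2 : e.permCongrHom (ψ g) = 1 := h1
  exact (map_eq_one_iff _ e.permCongrHom.injective).1 h2

/-- in an action, `E0 m` fixes all points with orbit of size at most `m` -/
theorem E0_smul {m : ℕ} {g : G} (hg : g ∈ E0 G m) {Ω : Type*} [MulAction G Ω] (x : Ω)
    (hfin : (MulAction.orbit G x).Finite) (hx : (MulAction.orbit G x).ncard ≤ m) : g • x = x := by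
  have : Finite (MulAction.orbit G x) := hfin
  have h1 := E0_apply hg (Z := MulAction.orbit G x) (by
    rw [Nat.card_coe_set_eq]; exact hx) (MulAction.toPermHom G (MulAction.orbit G x))
  have h2 := congrArg (fun p : Equiv.Perm (MulAction.orbit G x) =>
    ((p ⟨x, MulAction.mem_orbit_self x⟩ : MulAction.orbit G x) : Ω)) h1
  exact h2

end Pool.Agent.H76.Pump
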