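import Pool.Agent.Lib.H76.Pump.Dist
import Pool.Agent.Lib.H76.Pump.KerAll

/-!
# Finitely presented groups act on the glued sets
-/

namespace Pool.Agent.H76.Pump

universe u v

section

variable {n : ℕ} {E : Type u} [Group E] (φ : FreeGroup (Fin n) →* E)
  (hφ : Function.Surjective φ) (R : Set (FreeGroup (Fin n)))
  (hR : Subgroup.normalClosure R = φ.ker) {Ω : Type v} [MulAction E Ω]
  (W : Win (Fin n × Bool) Ω) (hW : W.act = lact φ) (hρ : 2 ≤ W.ρ)
  (hρR : ∀ r ∈ R, r.toWord.length ≤ W.ρ)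

include hφ hR hW hρ hρR

theorem glue_hom (os : Prop) [Decidable os] :
    ∃ Φ : E →* Equiv.Perm {p : Ω × ℤ // W.V os p}, ∀ (w : List (Fin n × Bool))
      (p : {p : Ω × ℤ // W.V os p}), (Φ (φ (FreeGroup.mk w)) p).1 = run (W.F os) w p.1 := by
  obtain ⟨Φ, hΦ⟩ := exists_hom φ hφ R hR (W.Fs os) (fun a y => by
    apply Subtype.ext
    have h1 := W.run_eq os (w := [linv a, a]) (by simpa using hρ) (fun x => by
      rw [hW, run_cons, run_cons, run_nil, lact_linv]) y.2
    exact h1) (fun r hr y => by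
    apply Subtype.ext
    rw [W.run_Fs]
    apply W.run_eq os (hρR r hr) _ y.2
    intro x
    rw [hW, run_lact, FreeGroup.mk_toWord]
    have h1 : φ r = 1 := by
      have h2 : r ∈ φ.ker := by
        rw [← hR]
        exact Subgroup.subset_normalClosure hr
      exact h2
    rw [h1, one_smul])
  exact ⟨Φ, fun w p => by rw [hΦ, W.run_Fs]⟩

end

section

variable {L : Type*} {E : Type u} [Group E] {Ω : Type v} (W : Win L Ω)

/-- the fundamental domain -/
abbrev Md : Type v := {x : Ω // W.i < W.d x ∧ W.d x ≤ W.j}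

/-- points of the glued set -/
def pt (x : Md W) (k : ℤ) : {p : Ω × ℤ // W.V False p} :=
  ⟨(x.1, k), x.2.2, Or.inl x.2.1, fun h => h.elim⟩

theorem pt_proj (p : {p : Ω × ℤ // W.V False p}) : W.i < W.d p.1.1 ∧ W.d p.1.1 ≤ W.j := by
  obtain ⟨p, h1, h2, h3⟩ := p
  refine ⟨?_, h1⟩
  rcases h2 with h2 | h2
  · exact h2
  · exact h2.1.elim

/-- projection to the fundamental domain -/
def pj (p : {p : Ω × ℤ // W.V False p}) : Md W := ⟨p.1.1, pt_proj W p⟩

/-- The action commutes with the shift. -/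
def Shifty (Φ : E →* Equiv.Perm {p : Ω × ℤ // W.V False p}) : Prop :=
  ∀ (g : E) (x : Md W) (k : ℤ),
    (Φ g (pt W x k)).1 = ((Φ g (pt W x 0)).1.1, (Φ g (pt W x 0)).1.2 + k)

variable {W} {Φ : E →* Equiv.Perm {p : Ω × ℤ // W.V False p}} 

theorem Shifty.pt_eq (h : Shifty W Φ) (g : E) (x : Md W) (k : ℤ) :
    Φ g (pt W x k) = pt W (pj W (Φ g (pt W x 0))) ((Φ g (pt W x 0)).1.2 + k) :=
  Subtype.ext (h g x k)

/-- the action on the fundamental domain -/
def Shifty.actM (h : Shifty W Φ) : E →* Equiv.Perm (Md W) :=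
  MonoidHom.toHomPerm
    { toFun := fun g x => pj W (Φ g (pt W x 0))
      map_one' := by
        funext x
        rw [map_one]
        rfl
      map_mul' := fun g g' => by
        funext x
        rw [map_mul, Equiv.Perm.mul_apply]
        have h1 : Φ g' (pt W x 0) = pt W (pj W (Φ g' (pt W x 0))) (Φ g' (pt W x 0)).1.2 := rfl
        rw [h1, h.pt_eq g]
        rfl }

theorem Shifty.actM_apply (h : Shifty W Φ) (g : E) (x : Md W) :
    h.actM g x = pj W (Φ g (pt W x 0)) := rfl

/-- translation numbers on the kernel -/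
def Shifty.transl (h : Shifty W Φ) (x : Md W) {N : Subgroup E} (hN : ∀ g ∈ N, h.actM g = 1) :
    N →* Multiplicative ℤ where
  toFun := fun g => Multiplicative.ofAdd (Φ g (pt W x 0)).1.2
  map_one' := by
    rw [Subgroup.coe_one, map_one]
    rfl
  map_mul' := fun g g' => by
    rw [← ofAdd_add, Subgroup.coe_mul, map_mul, Equiv.Perm.mul_apply]
    have h1 : Φ g' (pt W x 0) = pt W (pj W (Φ g' (pt W x 0))) (Φ g' (pt W x 0)).1.2 := rfl
    have h2 : pj W (Φ g' (pt W x 0)) = x := by
      rw [← h.actM_apply, hN g' g'.2]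
      rfl
    rw [h2] at h1
    rw [h1, h.pt_eq g]
    rfl

theorem Shifty.eq_of_transl (h : Shifty W Φ) {x : Md W} {N : Subgroup E}
    (hN : ∀ g ∈ N, h.actM g = 1) {g : E} (hg : g ∈ N) (h1 : h.transl x hN ⟨g, hg⟩ = 1) (k : ℤ) :
    Φ g (pt W x k) = pt W x k := by
  rw [h.pt_eq]
  have h2 : pj W (Φ g (pt W x 0)) = x := by
    rw [← h.actM_apply, hN g hg]
    rfl
  have h3 : (Φ g (pt W x 0)).1.2 = 0 := Multiplicative.ofAdd.injective h1
  rw [h2, h3, zero_add]

end

section

variable {n : ℕ} {E : Type u} [Group E] (φ : FreeGroup (Fin n) →* E)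
  (hφ : Function.Surjective φ) {Ω : Type v}
  (W : Win (Fin n × Bool) Ω)
  (Φ : E →* Equiv.Perm {p : Ω × ℤ // W.V False p})
  (hΦ : ∀ (w : List (Fin n × Bool)) (p : {p : Ω × ℤ // W.V False p}),
    (Φ (φ (FreeGroup.mk w)) p).1 = run (W.F False) w p.1)

include hφ hΦ

theorem shifty : Shifty W Φ := by
  intro g x k
  obtain ⟨u, rfl⟩ := hφ g
  rw [← FreeGroup.mk_toWord (x := u), hΦ, hΦ]
  have h1 := W.run_shift u.toWord x.1 0 k
  rw [zero_add] at h1
  exact h1

/-- The main consequence: the group is virtually indicable. -/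
theorem indicable (hdesc : ∀ x, W.d x ≠ 0 → ∃ a, W.d (W.act a x) + 1 = W.d x)
    (hfin : {x | W.d x ≤ W.j}.Finite) (x : Md W) :
    ∃ N : Subgroup E, N.FiniteIndex ∧ ∃ f : N →* Multiplicative ℤ, Function.Surjective f := by
  have hs := shifty φ hφ W Φ hΦ
  have hfM : Finite (Md W) := (hfin.subset fun x hx => hx.2 : {x | W.i < W.d x ∧ W.d x ≤ W.j}.Finite)
  let N : Subgroup E := hs.actM.ker
  have hN : ∀ g ∈ N, hs.actM g = 1 := fun g hg => hg
  have hNf : N.FiniteIndex := inferInstance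
  refine ⟨N, hNf, ?_⟩
  by_cases h : ∃ g, hs.transl x hN g ≠ 1
  · obtain ⟨f', h1, -⟩ := exists_surj _ h
    exact ⟨f', h1⟩
  · exfalso
    push Not at h
    have h1 : ∀ g ∈ N, Φ g (pt W x 0) = pt W x 0 := fun g hg =>
      hs.eq_of_transl hN hg (h ⟨g, hg⟩) 0
    -- the orbit is finite
    have h2 : (Set.range fun g : E => Φ g (pt W x 0)).Finite := by
      have : Finite (E ⧸ N) := Subgroup.finite_quotient_of_finiteIndex
      let q : E ⧸ N → {p : Ω × ℤ // W.V False p} := fun c => Φ c.out (pt W x 0)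
      have h3 : (Set.range fun g : E => Φ g (pt W x 0)) ⊆ Set.range q := by
        rintro _ ⟨g, rfl⟩
        refine ⟨(g : E ⧸ N), ?_⟩
        obtain ⟨m, hm⟩ := QuotientGroup.mk_out_eq_mul N g
        simp only [q]
        rw [hm, map_mul, Equiv.Perm.mul_apply, h1 m m.2]
      exact (Set.finite_range q).subset h3
    have h3 : Function.Injective fun k : ℕ => W.ht (run (W.F False)
        (W.exists_low hdesc (pt W x 0).2 k).choose (pt W x 0).1) := by
      intro k l hkl
      simp only at hkl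
      rw [(W.exists_low hdesc (pt W x 0).2 k).choose_spec.1,
        (W.exists_low hdesc (pt W x 0).2 l).choose_spec.1] at hkl
      omega
    have h4 : (Set.range fun k : ℕ => W.ht (run (W.F False)
        (W.exists_low hdesc (pt W x 0).2 k).choose (pt W x 0).1)) ⊆
        (fun p : {p : Ω × ℤ // W.V False p} => W.ht p.1) ''
          (Set.range fun g : E => Φ g (pt W x 0)) := by
      rintro _ ⟨k, rfl⟩
      refine ⟨_, ⟨φ (FreeGroup.mk (W.exists_low hdesc (pt W x 0).2 k).choose), rfl⟩, ?_⟩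
      simp only
      rw [hΦ]
    exact Set.infinite_range_of_injective h3 ((h2.image _).subset h4)

end

end Pool.Agent.H76.Pump
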