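import Mathlib

/-!
# Kernels of homomorphisms to the integers in groups without free subsemigroups

The lemma of Milnor and Rosset: in a finitely generated group without free subsemigroup of rank
two, the kernel of every homomorphism to the integers is finitely generated.
-/

namespace Pool.Agent.H76.Pump

universe u

/-- No two elements freely generate a free subsemigroup (submonoid) of rank two. -/
def NoFreeSemigroup (G : Type u) [Group G] : Prop :=
  ∀ a b : G, ∃ v w : List Bool, v ≠ w ∧
    (v.map fun t => if t then a else b).prod = (w.map fun t => if t then a else b).prod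

theorem NoFreeSemigroup.subgroup {G : Type u} [Group G] (h : NoFreeSemigroup G) (H : Subgroup G) :
    NoFreeSemigroup H := by
  intro a b
  obtain ⟨v, w, hvw, h1⟩ := h a b
  refine ⟨v, w, hvw, Subtype.ext ?_⟩
  have h2 : ∀ l : List Bool, (((l.map fun t => if t then a else b).prod : H) : G) =
      (l.map fun t => if t then (a : G) else (b : G)).prod := by
    intro l
    induction l with
    | nil => rfl
    | cons t l ih =>
      rw [List.map_cons, List.prod_cons, List.map_cons, List.prod_cons, Subgroup.coe_mul, ih]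
      cases t <;> rfl
  rw [h2, h2, h1]

section

variable {G : Type u} [Group G]

/-- A nontrivial homomorphism to the integers can be divided to become surjective. -/
theorem exists_surj (f : G →* Multiplicative ℤ) (hf : ∃ g, f g ≠ 1) :
    ∃ f' : G →* Multiplicative ℤ, Function.Surjective f' ∧ ∀ g, f' g = 1 ↔ f g = 1 := by
  let H : AddSubgroup ℤ := f.range.toAddSubgroup'
  obtain ⟨a, ha⟩ := Int.subgroup_cyclic H
  have hmem : ∀ g, Multiplicative.toAdd (f g) ∈ H := fun g => ⟨g, rfl⟩
  have hdvd : ∀ g, a ∣ Multiplicative.toAdd (f g) := by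
    intro g
    have h1 := hmem g
    rw [ha, AddSubgroup.mem_closure_singleton] at h1
    obtain ⟨k, hk⟩ := h1
    exact ⟨k, by rw [← hk, smul_eq_mul, mul_comm]⟩
  have ha0 : a ≠ 0 := by
    rintro rfl
    obtain ⟨g, hg⟩ := hf
    apply hg
    have h1 := hdvd g
    rw [zero_dvd_iff] at h1
    exact Multiplicative.toAdd.injective h1
  have haH : a ∈ H := by
    rw [ha]
    exact AddSubgroup.subset_closure rfl
  obtain ⟨g₀, hg₀⟩ := haH
  let f' : G →* Multiplicative ℤ :=
    { toFun := fun g => Multiplicative.ofAdd (Multiplicative.toAdd (f g) / a)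
      map_one' := by simp
      map_mul' := fun x y => by
        rw [← ofAdd_add, map_mul, toAdd_mul, Int.add_ediv_of_dvd_left (hdvd x)] }
  have hf'0 : f' g₀ = Multiplicative.ofAdd 1 := by
    show Multiplicative.ofAdd (Multiplicative.toAdd (f g₀) / a) = _
    have h1 : Multiplicative.toAdd (f g₀) = a := hg₀
    rw [h1, Int.ediv_self ha0]
  refine ⟨f', ?_, ?_⟩
  · intro z
    refine ⟨g₀ ^ (Multiplicative.toAdd z), ?_⟩
    rw [map_zpow, hf'0, ← ofAdd_zsmul]
    simp
  · intro g
    obtain ⟨k, hk⟩ := hdvd g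
    have h1 : f' g = Multiplicative.ofAdd k := by
      show Multiplicative.ofAdd (Multiplicative.toAdd (f g) / a) = _
      rw [hk, Int.mul_ediv_cancel_left _ ha0]
    rw [h1]
    constructor
    · intro h2
      have h3 : k = 0 := Multiplicative.ofAdd.injective h2
      rw [h3, mul_zero] at hk
      exact Multiplicative.toAdd.injective hk
    · intro h2
      rw [h2, toAdd_one] at hk
      rcases mul_eq_zero.1 hk.symm with h3 | h3
      · exact absurd h3 ha0
      · rw [h3]; rfl

/-- the conjugates `t ^ k y t ^ (-k)` -/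
def zz (t y : G) (k : ℤ) : G := t ^ k * y * (t ^ k)⁻¹

theorem zz_conj (t y : G) (k : ℤ) : t * zz t y k * t⁻¹ = zz t y (k + 1) := by
  unfold zz
  rw [add_comm k 1, zpow_add, zpow_one]
  group

/-- the group generated by the conjugates with index in an interval -/
def CC (t y : G) (a b : ℤ) : Subgroup G := Subgroup.closure (zz t y '' Set.Icc a b)

theorem CC_conj {t y g : G} {a b : ℤ} (h : g ∈ CC t y a b) :
    t * g * t⁻¹ ∈ CC t y (a + 1) (b + 1) := by
  unfold CC at h
  induction h using Subgroup.closure_induction with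
  | mem x hx =>
    obtain ⟨k, hk, rfl⟩ := hx
    rw [zz_conj]
    exact Subgroup.subset_closure ⟨k + 1, ⟨by linarith [hk.1], by linarith [hk.2]⟩, rfl⟩
  | one => simp
  | mul x y _ _ hx hy =>
    have h1 := Subgroup.mul_mem _ hx hy
    convert h1 using 1
    group
  | inv x _ hx =>
    have h1 := Subgroup.inv_mem _ hx
    convert h1 using 1
    group

theorem CC_conj' {t y g : G} {a b : ℤ} (h : g ∈ CC t y a b) :
    t⁻¹ * g * t ∈ CC t y (a - 1) (b - 1) := by
  unfold CC at h
  induction h using Subgroup.closure_induction with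
  | mem x hx =>
    obtain ⟨k, hk, rfl⟩ := hx
    have h1 := zz_conj t y (k - 1)
    rw [sub_add_cancel] at h1
    rw [← h1]
    have h2 : t⁻¹ * (t * zz t y (k - 1) * t⁻¹) * t = zz t y (k - 1) := by group
    rw [h2]
    exact Subgroup.subset_closure ⟨k - 1, ⟨by linarith [hk.1], by linarith [hk.2]⟩, rfl⟩
  | one => simp
  | mul x y _ _ hx hy =>
    have h1 := Subgroup.mul_mem _ hx hy
    convert h1 using 1
    group
  | inv x _ hx =>
    have h1 := Subgroup.inv_mem _ hx
    convert h1 using 1
    group

theorem CC_mono {t y : G} {a b a' b' : ℤ} (ha : a' ≤ a) (hb : b ≤ b') : CC t y a b ≤ CC t y a' b' :=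
  Subgroup.closure_mono (Set.image_mono (Set.Icc_subset_Icc ha hb))

/-- value of a word in `t y` and `t` -/
def ev (t y : G) (l : List Bool) : G := (l.map fun b => if b then t * y else t).prod

@[simp] theorem ev_nil (t y : G) : ev t y [] = 1 := rfl

@[simp] theorem ev_cons (t y : G) (b : Bool) (l : List Bool) :
    ev t y (b :: l) = (if b then t * y else t) * ev t y l := by
  simp [ev]

theorem ev_append (t y : G) (l l' : List Bool) : ev t y (l ++ l') = ev t y l * ev t y l' := by
  simp [ev]

theorem ev_mem (t y : G) (l : List Bool) :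
    ev t y l * (t ^ (l.length : ℤ))⁻¹ ∈ CC t y 1 l.length := by
  induction l with
  | nil => simp
  | cons b l ih =>
    have h1 := CC_conj ih
    have h2 : ev t y (b :: l) * (t ^ (((b :: l).length : ℕ) : ℤ))⁻¹ =
        (if b then zz t y 1 else 1) * (t * (ev t y l * (t ^ (l.length : ℤ))⁻¹) * t⁻¹) := by
      rw [ev_cons, List.length_cons, Nat.cast_add, Nat.cast_one, zpow_add, zpow_one]
      cases b
      · simp only [Bool.false_eq_true, ↓reduceIte]
        group
      · simp only [↓reduceIte]
        unfold zz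
        group
    rw [h2]
    apply Subgroup.mul_mem
    · cases b
      · exact Subgroup.one_mem _
      · apply Subgroup.subset_closure
        refine ⟨1, ⟨le_refl _, ?_⟩, rfl⟩
        rw [List.length_cons]
        push_cast
        omega
    · apply CC_mono _ _ h1
      · norm_num
      · rw [List.length_cons]
        push_cast
        exact le_refl _

/-- A minimal coincidence. -/
theorem exists_coincidence (hns : NoFreeSemigroup G) (χ : G →* Multiplicative ℤ) {t y : G}
    (ht : χ t = Multiplicative.ofAdd 1) (hy : χ y = 1) :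
    ∃ (m : ℕ), zz t y 1 ∈ CC t y 2 m ∧ zz t y m ∈ CC t y 1 (m - 1 : ℤ) := by
  have hlen : ∀ l : List Bool, χ (ev t y l) = Multiplicative.ofAdd (l.length : ℤ) := by
    intro l
    induction l with
    | nil => simp
    | cons b l ih =>
      rw [ev_cons, map_mul, ih, List.length_cons]
      have h1 : χ (if b then t * y else t) = Multiplicative.ofAdd 1 := by
        cases b
        · simpa using ht
        · simp [ht, hy]
      rw [h1, ← ofAdd_add]
      congr 1
      push_cast
      ring
  have hex : ∃ m : ℕ, ∃ u v : List Bool, u.length = m ∧ v.length = m ∧ u ≠ v ∧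
      ev t y u = ev t y v := by
    obtain ⟨u, v, huv, h⟩ := hns (t * y) t
    refine ⟨u.length, u, v, rfl, ?_, huv, h⟩
    have h1 := congrArg χ (show ev t y u = ev t y v from h)
    rw [hlen, hlen] at h1
    have h2 := Multiplicative.ofAdd.injective h1
    exact_mod_cast h2.symm
  classical
  have hmin : ∀ k < Nat.find hex, ∀ u v : List Bool, u.length = k → v.length = k →
      ev t y u = ev t y v → u = v := by
    intro k hk u v hu hv h
    by_contra hne
    exact Nat.find_min hex hk ⟨u, v, hu, hv, hne, h⟩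
  obtain ⟨u, v, hu, hv, hne, h⟩ := Nat.find_spec hex
  set m := Nat.find hex
  have hm : m ≠ 0 := by
    intro h0
    rw [h0, List.length_eq_zero_iff] at hu hv
    exact hne (hu.trans hv.symm)
  refine ⟨m, ?_, ?_⟩
  · -- first letters
    obtain ⟨b, u', rfl⟩ := List.exists_cons_of_ne_nil (l := u) (by rintro rfl; exact hm hu.symm)
    obtain ⟨b', v', rfl⟩ := List.exists_cons_of_ne_nil (l := v) (by rintro rfl; exact hm hv.symm)
    rw [List.length_cons] at hu hv
    have hbb : b ≠ b' := by
      rintro rfl
      rw [ev_cons, ev_cons] at h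
      exact hne (by rw [hmin u'.length (by omega) u' v' rfl (by omega) (mul_left_cancel h)])
    have key : ∀ u' v' : List Bool, u'.length + 1 = m → v'.length + 1 = m →
        t * y * ev t y u' = t * ev t y v' → zz t y 1 ∈ CC t y 2 m := by
      intro u' v' hu hv h
      have h1 := CC_conj (ev_mem t y u')
      have h2 := CC_conj (ev_mem t y v')
      have hu2 : (u'.length : ℤ) + 1 = m := by exact_mod_cast hu
      have hv2 : (v'.length : ℤ) + 1 = m := by exact_mod_cast hv
      have huv : (u'.length : ℤ) = v'.length := by linarith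
      rw [hu2] at h1
      rw [hv2] at h2
      have h3 : zz t y 1 = (t * (ev t y v' * (t ^ (v'.length : ℤ))⁻¹) * t⁻¹) *
          (t * (ev t y u' * (t ^ (u'.length : ℤ))⁻¹) * t⁻¹)⁻¹ := by
        rw [huv]
        have h4 : y = ev t y v' * (ev t y u')⁻¹ := by
          rw [mul_assoc] at h
          rw [← mul_left_cancel h]
          group
        unfold zz
        calc t ^ (1 : ℤ) * y * (t ^ (1 : ℤ))⁻¹ = t * y * t⁻¹ := by group
          _ = t * (ev t y v' * (ev t y u')⁻¹) * t⁻¹ := by rw [← h4]
          _ = _ := by group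
      rw [h3]
      exact Subgroup.mul_mem _ h2 (Subgroup.inv_mem _ h1)
    cases b <;> cases b'
    · exact absurd rfl hbb
    · simp only [ev_cons, Bool.false_eq_true, ↓reduceIte] at h
      exact key v' u' (by omega) (by omega) h.symm
    · simp only [ev_cons, Bool.false_eq_true, ↓reduceIte] at h
      exact key u' v' (by omega) (by omega) h
    · exact absurd rfl hbb
  · -- last letters
    obtain ⟨u', b, rfl⟩ := List.eq_nil_or_concat u |>.resolve_left
      (by rintro rfl; exact hm hu.symm)
    obtain ⟨v', b', rfl⟩ := List.eq_nil_or_concat v |>.resolve_left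
      (by rintro rfl; exact hm hv.symm)
    rw [List.concat_eq_append] at hu hv hne h
    rw [List.concat_eq_append] at hne h
    rw [List.length_append, List.length_singleton] at hu hv
    have hbb : b ≠ b' := by
      rintro rfl
      rw [ev_append, ev_append] at h
      exact hne (by rw [hmin u'.length (by omega) u' v' rfl (by omega) (mul_right_cancel h)])
    have key : ∀ u' v' : List Bool, u'.length + 1 = m → v'.length + 1 = m →
        ev t y u' * (t * y) = ev t y v' * t → zz t y m ∈ CC t y 1 (m - 1 : ℤ) := by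
      intro u' v' hu hv h
      have h1 := ev_mem t y u'
      have h2 := ev_mem t y v'
      have hu2 : (u'.length : ℤ) = m - 1 := by
        have : (u'.length : ℤ) + 1 = m := by exact_mod_cast hu
        linarith
      have hv2 : (v'.length : ℤ) = m - 1 := by
        have : (v'.length : ℤ) + 1 = m := by exact_mod_cast hv
        linarith
      rw [hu2] at h1
      rw [hv2] at h2
      have h3 : zz t y m = (ev t y u' * (t ^ (m - 1 : ℤ))⁻¹)⁻¹ *
          (ev t y v' * (t ^ (m - 1 : ℤ))⁻¹) := by
        have h4 : t * y * t⁻¹ = (ev t y u')⁻¹ * ev t y v' := by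
          have h5 : t * y = (ev t y u')⁻¹ * (ev t y v' * t) := by
            rw [← h]; group
          rw [h5]; group
        unfold zz
        calc t ^ (m : ℤ) * y * (t ^ (m : ℤ))⁻¹ =
              t ^ (m - 1 : ℤ) * (t * y * t⁻¹) * (t ^ (m - 1 : ℤ))⁻¹ := by
                have h6 : t ^ (m : ℤ) = t ^ (m - 1 : ℤ) * t := by
                  rw [zpow_sub_one, inv_mul_cancel_right]
                rw [h6]; group
          _ = _ := by rw [h4]; group
      rw [h3]
      exact Subgroup.mul_mem _ (Subgroup.inv_mem _ h1) h2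
    cases b <;> cases b'
    · exact absurd rfl hbb
    · simp only [ev_append, ev_cons, ev_nil, mul_one, Bool.false_eq_true, ↓reduceIte] at h
      exact key v' u' (by omega) (by omega) h.symm
    · simp only [ev_append, ev_cons, ev_nil, mul_one, Bool.false_eq_true, ↓reduceIte] at h
      exact key u' v' (by omega) (by omega) h
    · exact absurd rfl hbb

/-- For `y` in the kernel there is a finitely generated subgroup of the kernel which contains `y`
and is normalised by `t`. -/
theorem exists_invariant (hns : NoFreeSemigroup G) (χ : G →* Multiplicative ℤ) {t y : G}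
    (ht : χ t = Multiplicative.ofAdd 1) (hy : χ y = 1) :
    ∃ Z : Set G, Z.Finite ∧ Z ⊆ χ.ker ∧ y ∈ Subgroup.closure Z ∧
      (∀ g ∈ Subgroup.closure Z, t * g * t⁻¹ ∈ Subgroup.closure Z) ∧
      (∀ g ∈ Subgroup.closure Z, t⁻¹ * g * t ∈ Subgroup.closure Z) := by
  obtain ⟨m, h1, h2⟩ := exists_coincidence hns χ ht hy
  have hz0 : zz t y 0 = y := by simp [zz]
  have hQ1 : CC t y 1 m ≤ CC t y 1 (m - 1 : ℤ) := by
    unfold CC
    rw [Subgroup.closure_le]
    rintro _ ⟨k, ⟨hk1, hk2⟩, rfl⟩
    rcases lt_or_eq_of_le hk2 with hk | hk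
    · exact Subgroup.subset_closure ⟨k, ⟨hk1, by omega⟩, rfl⟩
    · rw [hk]; exact h2
  have hz0Q : zz t y 0 ∈ CC t y 1 (m - 1 : ℤ) := by
    have h3 := CC_conj' h1
    have h4 : t⁻¹ * zz t y 1 * t = zz t y 0 := by
      have h5 := zz_conj t y 0
      rw [zero_add] at h5
      rw [← h5]; group
    rw [h4] at h3
    exact CC_mono (by norm_num) le_rfl h3
  have hQ0 : CC t y 0 (m - 1 : ℤ) ≤ CC t y 1 (m - 1 : ℤ) := by
    unfold CC
    rw [Subgroup.closure_le]
    rintro _ ⟨k, ⟨hk1, hk2⟩, rfl⟩
    rcases lt_or_eq_of_le hk1 with hk | hk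
    · exact Subgroup.subset_closure ⟨k, ⟨by omega, hk2⟩, rfl⟩
    · rw [← hk]; exact hz0Q
  refine ⟨zz t y '' Set.Icc 1 (m - 1 : ℤ), (Set.finite_Icc _ _).image _, ?_, ?_, ?_, ?_⟩
  · rintro _ ⟨k, _, rfl⟩
    show χ (zz t y k) = 1
    unfold zz
    rw [map_mul, map_mul, hy, map_inv]
    simp
  · have h3 : y ∈ CC t y 1 (m - 1 : ℤ) := by rw [hz0] at hz0Q; exact hz0Q
    exact h3
  · intro g hg
    have h3 := CC_conj (show g ∈ CC t y 1 (m - 1 : ℤ) from hg)
    rw [sub_add_cancel] at h3
    exact hQ1 (CC_mono (by norm_num) le_rfl h3)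
  · intro g hg
    have h3 := CC_conj' (show g ∈ CC t y 1 (m - 1 : ℤ) from hg)
    exact hQ0 (CC_mono (by norm_num) (by linarith) h3)

/-- The lemma of Milnor and Rosset. -/
theorem ker_fg (hfg : Group.FG G) (hns : NoFreeSemigroup G) (χ : G →* Multiplicative ℤ) :
    χ.ker.FG := by
  classical
  by_cases htriv : ∀ g, χ g = 1
  · have h1 : χ.ker = ⊤ := by
      rw [eq_top_iff]
      intro g _
      exact htriv g
    rw [h1]
    exact Group.fg_def.1 hfg
  push Not at htriv
  obtain ⟨χ', hsurj, hker⟩ := exists_surj χ htriv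
  have hkk : χ.ker = χ'.ker := by
    ext g
    exact (hker g).symm
  rw [hkk]
  clear hkk hker htriv
  obtain ⟨t, ht⟩ := hsurj (Multiplicative.ofAdd 1)
  obtain ⟨T, hT⟩ := Group.fg_def.1 hfg
  let yy : G → G := fun g => g * (t ^ (Multiplicative.toAdd (χ' g)))⁻¹
  have hyy : ∀ g, χ' (yy g) = 1 := by
    intro g
    simp only [yy]
    rw [map_mul, map_inv, map_zpow, ht, ← ofAdd_zsmul]
    simp
  choose Z hZf hZk hZy hZt hZt' using fun g => exists_invariant hns χ' ht (hyy g)
  let N : Subgroup G := Subgroup.closure (⋃ g ∈ T, Z g)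
  have hle : ∀ g ∈ T, Subgroup.closure (Z g) ≤ N := fun g hg =>
    Subgroup.closure_mono (Set.subset_biUnion_of_mem (u := Z) hg)
  have hNt : ∀ x ∈ N, t * x * t⁻¹ ∈ N := by
    intro x hx
    induction hx using Subgroup.closure_induction with
    | mem x hx =>
      simp only [Set.mem_iUnion] at hx
      obtain ⟨g, hg, hx⟩ := hx
      exact hle g hg (hZt g x (Subgroup.subset_closure hx))
    | one => simp
    | mul x y _ _ hx hy =>
      have h1 := N.mul_mem hx hy
      have h2 : t * x * t⁻¹ * (t * y * t⁻¹) = t * (x * y) * t⁻¹ := by group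
      rwa [h2] at h1
    | inv x _ hx =>
      have h1 := N.inv_mem hx
      have h2 : (t * x * t⁻¹)⁻¹ = t * x⁻¹ * t⁻¹ := by group
      rwa [h2] at h1
  have hNt' : ∀ x ∈ N, t⁻¹ * x * t ∈ N := by
    intro x hx
    induction hx using Subgroup.closure_induction with
    | mem x hx =>
      simp only [Set.mem_iUnion] at hx
      obtain ⟨g, hg, hx⟩ := hx
      exact hle g hg (hZt' g x (Subgroup.subset_closure hx))
    | one => simp
    | mul x y _ _ hx hy =>
      have h1 := N.mul_mem hx hy
      have h2 : t⁻¹ * x * t * (t⁻¹ * y * t) = t⁻¹ * (x * y) * t := by group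
      rwa [h2] at h1
    | inv x _ hx =>
      have h1 := N.inv_mem hx
      have h2 : (t⁻¹ * x * t)⁻¹ = t⁻¹ * x⁻¹ * t := by group
      rwa [h2] at h1
  have hNk : ∀ (k : ℤ), ∀ x ∈ N, t ^ k * x * (t ^ k)⁻¹ ∈ N := by
    intro k
    induction k using Int.induction_on with
    | zero => intro x hx; simpa using hx
    | succ k ih =>
      intro x hx
      have h1 := hNt _ (ih x hx)
      have h2 : t * (t ^ (k : ℤ) * x * (t ^ (k : ℤ))⁻¹) * t⁻¹ =
          t ^ (k + 1 : ℤ) * x * (t ^ (k + 1 : ℤ))⁻¹ := by
        rw [add_comm (k : ℤ) 1, zpow_add, zpow_one]; group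
      rwa [h2] at h1
    | pred k ih =>
      intro x hx
      have h1 := hNt' _ (ih x hx)
      have h2 : t⁻¹ * (t ^ (-k : ℤ) * x * (t ^ (-k : ℤ))⁻¹) * t =
          t ^ (-k - 1 : ℤ) * x * (t ^ (-k - 1 : ℤ))⁻¹ := by
        have h3 : (-k - 1 : ℤ) = -1 + -k := by ring
        rw [h3, zpow_add, zpow_neg_one]; group
      rwa [h2] at h1
  have hdec : ∀ g : G, ∃ x ∈ N, ∃ k : ℤ, g = x * t ^ k := by
    intro g
    have hg : g ∈ Subgroup.closure (T : Set G) := by rw [hT]; exact Subgroup.mem_top g
    induction hg using Subgroup.closure_induction with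
    | mem x hx =>
      refine ⟨yy x, hle x hx (hZy x), Multiplicative.toAdd (χ' x), ?_⟩
      simp [yy]
    | one => exact ⟨1, N.one_mem, 0, by simp⟩
    | mul x y _ _ hx hy =>
      obtain ⟨a, ha, k, rfl⟩ := hx
      obtain ⟨b, hb, l, rfl⟩ := hy
      refine ⟨a * (t ^ k * b * (t ^ k)⁻¹), N.mul_mem ha (hNk k b hb), k + l, ?_⟩
      rw [zpow_add]; group
    | inv x _ hx =>
      obtain ⟨a, ha, k, rfl⟩ := hx
      refine ⟨t ^ (-k) * a⁻¹ * (t ^ (-k))⁻¹, hNk (-k) _ (N.inv_mem ha), -k, ?_⟩
      group
  have hNle : N ≤ χ'.ker := by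
    rw [Subgroup.closure_le]
    intro x hx
    simp only [Set.mem_iUnion] at hx
    obtain ⟨g, _, hx⟩ := hx
    exact hZk g hx
  have hkN : χ'.ker = N := by
    apply le_antisymm _ hNle
    intro g hg
    obtain ⟨x, hx, k, rfl⟩ := hdec g
    have h1 : χ' (x * t ^ k) = 1 := hg
    have h2 : χ' x = 1 := hNle hx
    rw [map_mul, h2, one_mul, map_zpow, ht, ← ofAdd_zsmul] at h1
    have h3 : k = 0 := by
      have h4 := Multiplicative.ofAdd.injective h1
      simpa using h4
    rw [h3, zpow_zero, mul_one]
    exact hx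
  rw [hkN]
  rw [Subgroup.fg_iff]
  exact ⟨_, rfl, T.finite_toSet.biUnion fun g _ => hZf g⟩

end

end Pool.Agent.H76.Pump
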