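import Pool.Agent.Lib.H76.Pump.Setup

/-!
# Superlinear growth of Schreier graphs
-/

namespace Pool.Agent.H76.Pump

open Pool.Agent.Lib.Helper67.FCC

universe u v

/-- virtually indicable -/
def VirtInd (E : Type u) [Group E] : Prop :=
  ∃ N : Subgroup E, N.FiniteIndex ∧ ∃ f : N →* Multiplicative ℤ, Function.Surjective f

theorem virtInd_of_ball {n : ℕ} {E : Type u} [Group E] (φ : FreeGroup (Fin n) →* E)
    (hφ : Function.Surjective φ) (R : Set (FreeGroup (Fin n)))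
    (hR : Subgroup.normalClosure R = φ.ker) {ρ : ℕ} (hρ : 2 ≤ ρ)
    (hρR : ∀ r ∈ R, r.toWord.length ≤ ρ) {Ω : Type v} [MulAction E Ω] (y : Ω)
    (htr : ∀ x : Ω, ∃ g : E, g • y = x) (Q B T r : ℕ) (hr : Q * (2 * ρ + 1) ≤ r)
    (hbig : ∃ x, r < dist φ y x) (hT : {x | dist φ y x ≤ r}.ncard ≤ T)
    (hN : T + (B + 1) * Nat.card (Code (Fin n × Bool) ρ B) < (B + 1) * Q) : VirtInd E := by
  have hfin := dist_ball_finite φ y hφ htr
  obtain ⟨W, hW1, hW2, hW3, hW4, hW5⟩ := exists_win (lact φ) (dist φ y) ρ (by omega)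
    (dist_act φ y hφ htr) (dist_act' φ y hφ htr) hfin 0 Q B T (by
      refine (Set.ncard_le_ncard ?_ (hfin r)).trans hT
      intro x hx
      have := hx.2
      show dist φ y x ≤ r
      omega) hN
  obtain ⟨x₀, hx₀⟩ := hbig
  obtain ⟨z, hz⟩ := exists_dist_eq φ y hφ htr (x := x₀) (r := W.j) (by omega)
  have hj := W.hj
  have hzM : W.i < W.d z ∧ W.d z ≤ W.j := by
    rw [hW2]
    omega
  obtain ⟨Φ, hΦ⟩ := glue_hom φ hφ R hR W hW1 (by omega) (by rw [hW3]; exact hρR) False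
  exact indicable φ hφ W Φ hΦ (by
    intro x hx
    rw [hW2] at hx ⊢
    rw [hW1]
    exact dist_desc φ y hφ htr x hx) (by rw [hW2]; exact hfin _) ⟨z, hzM⟩

theorem arith1 {n ρ ℓ C R : ℕ} (hρ : 2 ≤ ρ) (hℓ : 1 ≤ ℓ) (hC : 1 ≤ C)
    (hR : (((4 * n + 3) * (ρ + 1) * 2 * ℓ * (2 * ρ + 1)) * C) ^
      (((4 * n + 3) * (ρ + 1) * 2 * ℓ * (2 * ρ + 1)) * C) ≤ R) :
    (2 * ((2 * ρ + 2) ^ (2 * (C * ℓ * (2 * ρ + 1))) *
      ((2 * (C * ℓ * (2 * ρ + 1)) + 1) ^ (2 * (C * ℓ * (2 * ρ + 1)))) ^ (n * 2)) + 3) *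
      (ℓ * (2 * ρ + 1)) ≤ R := by
  refine le_trans ?_ hR
  set c : ℕ := ℓ * (2 * ρ + 1) with hc
  have hc5 : 5 ≤ c := by
    rw [hc]
    calc 5 = 1 * 5 := rfl
      _ ≤ ℓ * (2 * ρ + 1) := Nat.mul_le_mul hℓ (by omega)
  set K : ℕ := (4 * n + 3) * (ρ + 1) * 2 * ℓ * (2 * ρ + 1) with hK
  have hKc : K = (4 * n + 3) * (2 * (ρ + 1)) * c := by rw [hK, hc]; ring
  have hCc : C * ℓ * (2 * ρ + 1) = C * c := by rw [hc]; ring
  rw [hCc]
  -- the base
  have hK1 : 2 * ρ + 2 ≤ K * C := by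
    rw [hKc]
    calc 2 * ρ + 2 = 1 * (2 * (ρ + 1)) * 1 * 1 := by ring
      _ ≤ (4 * n + 3) * (2 * (ρ + 1)) * c * C :=
        Nat.mul_le_mul (Nat.mul_le_mul (Nat.mul_le_mul (by omega) le_rfl) (by omega)) hC
  have hK2 : 2 * (C * c) + 1 ≤ K * C := by
    rw [hKc]
    calc 2 * (C * c) + 1 ≤ 3 * (C * c) := by
          have : 1 ≤ C * c := Nat.mul_pos hC (by omega)
          omega
      _ = 3 * 1 * c * C := by ring
      _ ≤ (4 * n + 3) * (2 * (ρ + 1)) * c * C :=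
        Nat.mul_le_mul (Nat.mul_le_mul (Nat.mul_le_mul (by omega) (by omega)) le_rfl) le_rfl
  have hK3 : 5 * c ≤ K * C := by
    rw [hKc]
    calc 5 * c = 5 * c * 1 := by ring
      _ ≤ (4 * n + 3) * (2 * (ρ + 1)) * c * C := by
        refine Nat.mul_le_mul (Nat.mul_le_mul ?_ le_rfl) hC
        calc 5 ≤ 3 * (2 * (2 + 1)) := by norm_num
          _ ≤ (4 * n + 3) * (2 * (ρ + 1)) :=
            Nat.mul_le_mul (by omega) (by omega)
  have hKC1 : 1 ≤ K * C := by omega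
  -- the exponent
  have hE : 2 * (C * c) + 2 * (C * c) * (n * 2) + 1 ≤ K * C := by
    rw [hKc]
    calc 2 * (C * c) + 2 * (C * c) * (n * 2) + 1 ≤ (4 * n + 3) * (C * c) := by
          have : 1 ≤ C * c := Nat.mul_pos hC (by omega)
          nlinarith
      _ = (4 * n + 3) * 1 * c * C := by ring
      _ ≤ (4 * n + 3) * (2 * (ρ + 1)) * c * C :=
        Nat.mul_le_mul (Nat.mul_le_mul (Nat.mul_le_mul le_rfl (by omega)) le_rfl) le_rfl
  set X : ℕ := K * C with hX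
  have h1 : (2 * ρ + 2) ^ (2 * (C * c)) * ((2 * (C * c) + 1) ^ (2 * (C * c))) ^ (n * 2) ≤
      X ^ (2 * (C * c) + 2 * (C * c) * (n * 2)) := by
    rw [pow_add, pow_mul (a := X) (m := 2 * (C * c)) (n := n * 2)]
    exact Nat.mul_le_mul (Nat.pow_le_pow_left hK1 _)
      (Nat.pow_le_pow_left (Nat.pow_le_pow_left hK2 _) _)
  have h2 : 1 ≤ X ^ (2 * (C * c) + 2 * (C * c) * (n * 2)) := Nat.one_le_pow _ _ hKC1
  calc _ ≤ (2 * X ^ (2 * (C * c) + 2 * (C * c) * (n * 2)) + 3) * c :=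
        Nat.mul_le_mul_right _ (by omega)
    _ ≤ (5 * X ^ (2 * (C * c) + 2 * (C * c) * (n * 2))) * c :=
        Nat.mul_le_mul_right _ (by omega)
    _ = X ^ (2 * (C * c) + 2 * (C * c) * (n * 2)) * (5 * c) := by ring
    _ ≤ X ^ (2 * (C * c) + 2 * (C * c) * (n * 2)) * X := Nat.mul_le_mul_left _ hK3
    _ = X ^ (2 * (C * c) + 2 * (C * c) * (n * 2) + 1) := by rw [pow_succ]
    _ ≤ X ^ X := Nat.pow_le_pow_right hKC1 hE

theorem arith2 {D N Q : ℕ} (hQ : 2 * N + 2 ≤ Q) :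
    D * (Q + 1) + (2 * D + 1) * N < (2 * D + 1) * Q := by
  have h1 : (D + 1) * (2 * N + 2) ≤ (D + 1) * Q := Nat.mul_le_mul_left _ hQ
  nlinarith

/-- **Theorem A.** In a finitely presented group which is not virtually indicable, balls in
Schreier graphs grow superlinearly until they fill the orbit. -/
theorem theoremA (E : Type u) [Group E] [Group.IsFinitelyPresented E] (hE : ¬ VirtInd E)
    {S : Set E} (hSf : S.Finite) (hS : Subgroup.closure S = ⊤) :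
    ∃ K : ℕ, ∀ C : ℕ, 1 ≤ C → ∀ R : ℕ, (K * C) ^ (K * C) ≤ R →
      ∀ (Ω : Type v) [MulAction E Ω] (x : Ω), (∃ y ∈ MulAction.orbit E x, y ∉ OB S x R) →
        C * R < (OB S x R).ncard := by
  obtain ⟨n, φ, Rel, ρ, hφ, hRel, hρ, hρR⟩ := exists_setup E
  obtain ⟨ℓ, hℓ1, hℓ⟩ := exists_scale φ hS
  refine ⟨(4 * n + 3) * (ρ + 1) * 2 * ℓ * (2 * ρ + 1), fun C hC R hR Ω _ x hx => ?_⟩
  by_contra hcon
  push Not at hcon
  apply hE
  -- pass to the orbit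
  let O := MulAction.orbit E x
  let y : O := ⟨x, MulAction.mem_orbit_self x⟩
  have htr : ∀ z : O, ∃ g : E, g • y = z := by
    rintro ⟨z, g, rfl⟩
    exact ⟨g, rfl⟩
  have hOB : (Subtype.val : O → Ω) '' (OB S y R) ⊆ OB S x R := by
    rintro _ ⟨z, ⟨g, hg, rfl⟩, rfl⟩
    exact ⟨g, hg, rfl⟩
  have hOB' : (OB S y R).ncard ≤ C * R := by
    rw [← Set.ncard_image_of_injective _ Subtype.val_injective]
    exact (Set.ncard_le_ncard hOB (OB_finite hSf x R)).trans hcon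
  obtain ⟨y', ⟨g', rfl⟩, hy'⟩ := hx
  have hbig : ∃ z : O, R / ℓ < dist φ y z := by
    refine ⟨⟨g' • x, g', rfl⟩, ?_⟩
    by_contra h1
    push Not at h1
    apply hy'
    have h2 := dist_subset_OB hφ hℓ y htr (Nat.mul_div_le R ℓ) h1
    obtain ⟨g, hg, h3⟩ := h2
    exact ⟨g, hg, congrArg Subtype.val h3⟩
  have hT : {z : O | dist φ y z ≤ R / ℓ}.ncard ≤ C * R :=
    (Set.ncard_le_ncard (dist_subset_OB hφ hℓ y htr (Nat.mul_div_le R ℓ))
      (OB_finite hSf y R)).trans hOB'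
  let D : ℕ := C * ℓ * (2 * ρ + 1)
  let Q : ℕ := R / ℓ / (2 * ρ + 1)
  have hQ1 : R < (Q + 1) * (ℓ * (2 * ρ + 1)) := by
    simp only [Q]
    rw [Nat.div_div_eq_div_mul]
    have h1 := Nat.lt_div_mul_add (a := R) (b := ℓ * (2 * ρ + 1)) (Nat.mul_pos hℓ1 (by omega))
    calc R < R / (ℓ * (2 * ρ + 1)) * (ℓ * (2 * ρ + 1)) + ℓ * (2 * ρ + 1) := h1
      _ = _ := by ring
  refine virtInd_of_ball φ hφ Rel hRel hρ hρR y htr Q (2 * D) (C * R) (R / ℓ)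
    (Nat.div_mul_le_self _ _) hbig hT ?_
  rw [card_code]
  have h1 := arith1 (n := n) hρ hℓ1 hC hR
  set N : ℕ := (2 * ρ + 2) ^ (2 * D) * ((2 * D + 1) ^ (2 * D)) ^ (n * 2) with hN
  have h2 : 2 * N + 3 ≤ Q := by
    simp only [Q]
    rw [Nat.div_div_eq_div_mul, Nat.le_div_iff_mul_le (Nat.mul_pos hℓ1 (by omega))]
    exact h1
  have h3 : C * R ≤ D * (Q + 1) := by
    calc C * R ≤ C * ((Q + 1) * (ℓ * (2 * ρ + 1))) := Nat.mul_le_mul_left _ hQ1.le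
      _ = D * (Q + 1) := by simp only [D]; ring
  have h4 := arith2 (D := D) (N := N) (Q := Q) (by omega)
  omega

end Pool.Agent.H76.Pump
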