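import Pool.Agent.Lib.H76.Pump.Fix
import Pool.Agent.Lib.Helper67.FCC.Growth

/-!
# Finite presentations, word lengths and orbit balls
-/

namespace Pool.Agent.H76.Pump

open Pool.Agent.Lib.Helper67.FCC

universe u v

theorem exists_setup (E : Type u) [Group E] [h : Group.IsFinitelyPresented E] :
    ∃ (n : ℕ) (φ : FreeGroup (Fin n) →* E) (R : Set (FreeGroup (Fin n))) (ρ : ℕ),
      Function.Surjective φ ∧ Subgroup.normalClosure R = φ.ker ∧ 2 ≤ ρ ∧
        ∀ r ∈ R, r.toWord.length ≤ ρ := by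
  obtain ⟨n, φ, hφ, R, hRf, hR⟩ := h.out
  obtain ⟨M, hM⟩ := (hRf.image fun r => r.toWord.length).bddAbove
  refine ⟨n, φ, R, M + 2, hφ, hR, by omega, fun r hr => ?_⟩
  have := hM ⟨r, hr, rfl⟩
  simp only at this
  omega

variable {E : Type u} [Group E]

theorem exists_scale {n : ℕ} (φ : FreeGroup (Fin n) →* E) {S : Set E}
    (hS : Subgroup.closure S = ⊤) :
    ∃ ℓ : ℕ, 1 ≤ ℓ ∧ ∀ w : List (Fin n × Bool), InBall S (ℓ * w.length) (φ (FreeGroup.mk w)) := by
  choose f hf using fun a : Fin n × Bool => exists_inBall hS (φ (FreeGroup.mk [a]))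
  obtain ⟨M, hM⟩ := (Set.finite_range f).bddAbove
  refine ⟨M + 1, by omega, fun w => ?_⟩
  induction w with
  | nil =>
    have h1 : (FreeGroup.mk [] : FreeGroup (Fin n)) = 1 := rfl
    rw [h1, map_one]
    exact inBall_one S _
  | cons a w ih =>
    have h1 : (FreeGroup.mk (a :: w) : FreeGroup (Fin n)) = FreeGroup.mk [a] * FreeGroup.mk w := by
      rw [FreeGroup.mul_mk]
      rfl
    rw [h1, map_mul]
    refine ((hf a).mul ih).mono ?_
    have h2 : f a ≤ M := hM ⟨a, rfl⟩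
    rw [List.length_cons]
    calc f a + (M + 1) * w.length ≤ (M + 1) + (M + 1) * w.length := by omega
      _ = (M + 1) * (w.length + 1) := by ring

theorem fg_of_setup {n : ℕ} (φ : FreeGroup (Fin n) →* E) (hφ : Function.Surjective φ) :
    Group.FG E := Group.fg_of_surjective hφ

/-- The points of the orbit of `x` at distance at most `r`. -/
def OB {Ω : Type v} [MulAction E Ω] (S : Set E) (x : Ω) (r : ℕ) : Set Ω :=
  {y | ∃ g : E, InBall S r g ∧ g • x = y}

theorem OB_finite {Ω : Type v} [MulAction E Ω] {S : Set E} (hS : S.Finite) (x : Ω) (r : ℕ) :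
    (OB S x r).Finite := by
  refine ((finite_ball hS r).image fun g => g • x).subset ?_
  rintro y ⟨g, hg, rfl⟩
  exact ⟨g, hg, rfl⟩

theorem dist_subset_OB {n : ℕ} {φ : FreeGroup (Fin n) →* E} (hφ : Function.Surjective φ)
    {S : Set E} {ℓ : ℕ} (hℓ : ∀ w : List (Fin n × Bool), InBall S (ℓ * w.length) (φ (FreeGroup.mk w)))
    {Ω : Type v} [MulAction E Ω] (y : Ω) (htr : ∀ x : Ω, ∃ g : E, g • y = x) {r R : ℕ}
    (h : ℓ * r ≤ R) : {x : Ω | dist φ y x ≤ r} ⊆ OB S y R := by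
  intro x hx
  obtain ⟨w, hw, rfl⟩ := exists_word φ y hφ htr x
  refine ⟨φ (FreeGroup.mk w), (hℓ w).mono ?_, (run_lact φ w y).symm⟩
  have h1 : w.length ≤ r := by rw [hw]; exact hx
  exact (Nat.mul_le_mul_left ℓ h1).trans h

theorem card_code (n ρ B : ℕ) : Nat.card (Code (Fin n × Bool) ρ B) =
    (2 * ρ + 2) ^ B * ((B + 1) ^ B) ^ (n * 2) := by
  simp [Code, Nat.card_eq_fintype_card]

end Pool.Agent.H76.Pump
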