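import Pool.Agent.Lib.H76.Pump.Cut

/-!
# Isomorphisms of collars
-/

namespace Pool.Agent.H76.Pump

universe u v

/-- An isomorphism of the collars `1 ≤ s ≤ 2 * ρ + 1`. -/
structure WIso {L Ω₁ Ω₂ : Type*} (ρ : ℕ) (act₁ : L → Ω₁ → Ω₁) (s₁ : Ω₁ → ℕ)
    (act₂ : L → Ω₂ → Ω₂) (s₂ : Ω₂ → ℕ) where
  θ : Ω₁ → Ω₂
  θ' : Ω₂ → Ω₁
  h1 : ∀ x, 1 ≤ s₁ x → s₁ x ≤ 2 * ρ + 1 → s₂ (θ x) = s₁ x ∧ θ' (θ x) = x
  h2 : ∀ x, 1 ≤ s₂ x → s₂ x ≤ 2 * ρ + 1 → s₁ (θ' x) = s₂ x ∧ θ (θ' x) = x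
  h3 : ∀ a x, 1 ≤ s₁ x → s₁ x ≤ 2 * ρ + 1 → 1 ≤ s₁ (act₁ a x) → s₁ (act₁ a x) ≤ 2 * ρ + 1 →
    θ (act₁ a x) = act₂ a (θ x)

/-- The collar. -/
def col {Ω : Type*} (ρ : ℕ) (s : Ω → ℕ) : Set Ω := {x | 1 ≤ s x ∧ s x ≤ 2 * ρ + 1}

/-- `τ` is a code of the collar. -/
def HasCode {L Ω : Type*} (act : L → Ω → Ω) (s : Ω → ℕ) (ρ B : ℕ) (τ : Code L ρ B) : Prop :=
  ∃ e : Ω → ℕ, (∀ x ∈ col ρ s, e x < B) ∧ Set.InjOn e (col ρ s) ∧
    code act s ρ B (col ρ s) (ρ + 1) e = τ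

theorem exists_code {L Ω : Type*} (act : L → Ω → Ω) (s : Ω → ℕ) (ρ B : ℕ)
    (hfin : (col ρ s).Finite) (hB : (col ρ s).ncard ≤ B) : ∃ τ, HasCode act s ρ B τ := by
  classical
  have hf : Finite (col ρ s) := hfin
  let φ : col ρ s ≃ Fin (Nat.card (col ρ s)) := Finite.equivFin _
  have hc : Nat.card (col ρ s) ≤ B := by
    rw [Nat.card_coe_set_eq]
    exact hB
  refine ⟨_, fun x => if h : x ∈ col ρ s then (φ ⟨x, h⟩ : ℕ) else 0, ?_, ?_, rfl⟩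
  · intro x hx
    simp only [dif_pos hx]
    have := (φ ⟨x, hx⟩).2
    omega
  · intro x hx y hy h
    simp only [dif_pos hx, dif_pos hy] at h
    exact congrArg Subtype.val (φ.injective (Fin.ext h))

section

variable {L Ω₁ Ω₂ : Type*} {act₁ : L → Ω₁ → Ω₁} {s₁ : Ω₁ → ℕ} {act₂ : L → Ω₂ → Ω₂} {s₂ : Ω₂ → ℕ}
  {ρ B : ℕ}

theorem code_lev₂ {e₁ : Ω₁ → ℕ} {e₂ : Ω₂ → ℕ} (hlt : ∀ x ∈ col ρ s₁, e₁ x < B)
    (hinj : Set.InjOn e₁ (col ρ s₁))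
    (h : code act₁ s₁ ρ B (col ρ s₁) (ρ + 1) e₁ = code act₂ s₂ ρ B (col ρ s₂) (ρ + 1) e₂)
    {x : Ω₁} (hx : x ∈ col ρ s₁) : ∃ x' ∈ col ρ s₂, e₂ x' = e₁ x ∧ s₂ x' = s₁ x := by
  classical
  have h1 := congrFun (congrArg Prod.fst h) ⟨e₁ x, hlt x hx⟩
  unfold code at h1
  simp only at h1
  have h2 : ∃ z ∈ col ρ s₁, e₁ z = e₁ x := ⟨x, hx, rfl⟩
  rw [dif_pos h2] at h1
  have h3 : h2.choose = x := hinj h2.choose_spec.1 hx h2.choose_spec.2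
  by_cases h4 : ∃ z ∈ col ρ s₂, e₂ z = e₁ x
  · rw [dif_pos h4] at h1
    obtain ⟨h5, h6⟩ := h4.choose_spec
    refine ⟨h4.choose, h5, h6, ?_⟩
    have h7 := congrArg Fin.val (Option.some.inj h1)
    simp only at h7
    have h8 : ∀ z, z = x → (s₁ z + ρ - (ρ + 1)) % (2 * ρ + 1) =
        (s₁ x + ρ - (ρ + 1)) % (2 * ρ + 1) := by
      rintro z rfl; rfl
    rw [h8 _ h3] at h7
    obtain ⟨ha, hb⟩ := hx
    obtain ⟨hc, hd⟩ := h5
    rw [Nat.mod_eq_of_lt (by omega), Nat.mod_eq_of_lt (by omega)] at h7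
    omega
  · rw [dif_neg h4] at h1
    exact absurd h1 (by simp)

theorem code_edge₂ {e₁ : Ω₁ → ℕ} {e₂ : Ω₂ → ℕ} (hlt : ∀ x ∈ col ρ s₁, e₁ x < B)
    (hinj : Set.InjOn e₁ (col ρ s₁)) (hinj' : Set.InjOn e₂ (col ρ s₂))
    (h : code act₁ s₁ ρ B (col ρ s₁) (ρ + 1) e₁ = code act₂ s₂ ρ B (col ρ s₂) (ρ + 1) e₂)
    {a : L} {x : Ω₁} {x' : Ω₂} (hx : x ∈ col ρ s₁) (hax : act₁ a x ∈ col ρ s₁)
    (hx' : x' ∈ col ρ s₂) (hee : e₂ x' = e₁ x) :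
    act₂ a x' ∈ col ρ s₂ ∧ e₂ (act₂ a x') = e₁ (act₁ a x) := by
  classical
  have h1 := congrFun (congrFun (congrArg Prod.snd h) a) ⟨e₁ x, hlt x hx⟩
  unfold code at h1
  simp only at h1
  have h2 : ∃ z ∈ col ρ s₁, e₁ z = e₁ x ∧ act₁ a z ∈ col ρ s₁ ∧ e₁ (act₁ a z) < B :=
    ⟨x, hx, rfl, hax, hlt _ hax⟩
  rw [dif_pos h2] at h1
  have h3 : h2.choose = x := hinj h2.choose_spec.1 hx h2.choose_spec.2.1
  by_cases h4 : ∃ z ∈ col ρ s₂, e₂ z = e₁ x ∧ act₂ a z ∈ col ρ s₂ ∧ e₂ (act₂ a z) < B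
  · rw [dif_pos h4] at h1
    obtain ⟨h5, h6, h7, h8⟩ := h4.choose_spec
    have h9 : h4.choose = x' := hinj' h5 hx' (by rw [h6, hee])
    have h10 := congrArg Fin.val (Option.some.inj h1)
    simp only at h10
    have h11 : ∀ z, z = x → e₁ (act₁ a z) = e₁ (act₁ a x) := by
      rintro z rfl; rfl
    have h12 : ∀ z, z = x' → e₂ (act₂ a z) = e₂ (act₂ a x') := by
      rintro z rfl; rfl
    rw [h11 _ h3, h12 _ h9] at h10
    rw [h9] at h7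
    exact ⟨h7, h10.symm⟩
  · rw [dif_neg h4] at h1
    exact absurd h1 (by simp)

theorem wiso_of_code [Nonempty Ω₁] [Nonempty Ω₂] {τ : Code L ρ B}
    (hc₁ : HasCode act₁ s₁ ρ B τ) (hc₂ : HasCode act₂ s₂ ρ B τ) :
    Nonempty (WIso ρ act₁ s₁ act₂ s₂) := by
  classical
  obtain ⟨e₁, hlt₁, hinj₁, hc₁⟩ := hc₁
  obtain ⟨e₂, hlt₂, hinj₂, hc₂⟩ := hc₂
  have h : code act₁ s₁ ρ B (col ρ s₁) (ρ + 1) e₁ = code act₂ s₂ ρ B (col ρ s₂) (ρ + 1) e₂ := by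
    rw [hc₁, hc₂]
  have h1 : ∀ x : Ω₁, ∃ x' : Ω₂, x ∈ col ρ s₁ → x' ∈ col ρ s₂ ∧ e₂ x' = e₁ x ∧ s₂ x' = s₁ x := by
    intro x
    by_cases hx : x ∈ col ρ s₁
    · obtain ⟨x', ha, hb, hc⟩ := code_lev₂ hlt₁ hinj₁ h hx
      exact ⟨x', fun _ => ⟨ha, hb, hc⟩⟩
    · exact ⟨Classical.arbitrary _, fun h2 => absurd h2 hx⟩
  have h2 : ∀ x : Ω₂, ∃ x' : Ω₁, x ∈ col ρ s₂ → x' ∈ col ρ s₁ ∧ e₁ x' = e₂ x ∧ s₁ x' = s₂ x := by
    intro x
    by_cases hx : x ∈ col ρ s₂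
    · obtain ⟨x', ha, hb, hc⟩ := code_lev₂ hlt₂ hinj₂ h.symm hx
      exact ⟨x', fun _ => ⟨ha, hb, hc⟩⟩
    · exact ⟨Classical.arbitrary _, fun h2 => absurd h2 hx⟩
  choose θ hθ using h1
  choose θ' hθ' using h2
  refine ⟨⟨θ, θ', ?_, ?_, ?_⟩⟩
  · intro x ha hb
    obtain ⟨h3, h4, h5⟩ := hθ x ⟨ha, hb⟩
    obtain ⟨h6, h7, h8⟩ := hθ' (θ x) h3
    exact ⟨h5, hinj₁ h6 ⟨ha, hb⟩ (by rw [h7, h4])⟩
  · intro x ha hb
    obtain ⟨h3, h4, h5⟩ := hθ' x ⟨ha, hb⟩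
    obtain ⟨h6, h7, h8⟩ := hθ (θ' x) h3
    exact ⟨h5, hinj₂ h6 ⟨ha, hb⟩ (by rw [h7, h4])⟩
  · intro a x ha hb hc hd
    obtain ⟨h3, h4, h5⟩ := hθ x ⟨ha, hb⟩
    obtain ⟨h6, h7, h8⟩ := hθ (act₁ a x) ⟨hc, hd⟩
    obtain ⟨h9, h10⟩ := code_edge₂ hlt₁ hinj₁ hinj₂ h (x := x) (x' := θ x) (a := a) ⟨ha, hb⟩
      ⟨hc, hd⟩ h3 h4
    exact hinj₂ h6 h9 (by rw [h7, h10])

end

section

variable {n : ℕ} {E : Type*} [Group E] (φ : FreeGroup (Fin n) →* E) {Ω : Type*} [MulAction E Ω]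
  {ρ : ℕ} (hφ : Function.Surjective φ) (htr : ∀ x y : Ω, ∃ g : E, g • x = y)

include hφ htr

/-- Two nested cuts with isomorphic collars give two isomorphic windows. -/
theorem exists_win_of_cuts (hρ : 1 ≤ ρ) {F F' : Set Ω} (hs : Sep φ ρ F F') (hF : F.Nonempty)
    (hF' : F'ᶜ.Nonempty)
    (I : WIso ρ (lact φ) (sd φ ρ F) (lact φ) (sd φ ρ F')) :
    ∃ W : Win (Fin n × Bool) Ω, W.act = lact φ ∧ W.ρ = ρ ∧ W.i = ρ + 1 ∧ W.j = 3 * ρ + 3 ∧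
      (∀ z, W.d z = sd φ ρ F z + sd φ ρ F' z) := by
  have hsub : F ⊆ F' := fun z hz => hs z hz [] (by simp)
  have hFc : Fᶜ.Nonempty := hF'.mono (Set.compl_subset_compl.2 hsub)
  have hF'n : F'.Nonempty := hF.mono hsub
  have hle := sd_le φ ρ F
  have hle' := sd_le φ ρ F'
  have hz := fun z => sd_sep' φ ρ hφ htr hs hF hF' (z := z)
  have hz' := fun a z => sd_near φ ρ hφ htr hs hF hF' (z := z) a
  have ha := sd_act φ ρ hφ htr hF hFc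
  have ha' := sd_act' φ ρ hφ htr hF hFc
  have hb := sd_act φ ρ hφ htr hF'n hF'
  have hb' := sd_act' φ ρ hφ htr hF'n hF'
  refine ⟨{ act := lact φ, d := fun z => sd φ ρ F z + sd φ ρ F' z, i := ρ + 1, j := 3 * ρ + 3,
            ρ := ρ, θ := I.θ, θ' := I.θ', ρ1 := hρ, hd := ?_, hd' := ?_, hj := by omega,
            hθd := ?_, hθθ := ?_, hθ'd := ?_, hθ'θ := ?_, heq := ?_ },
          rfl, rfl, rfl, rfl, fun _ => rfl⟩
  · intro a z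
    have e1 := ha a z
    have e2 := hb a z
    have e3 := hle z
    have e4 := hle (lact φ a z)
    by_cases c : sd φ ρ F z ≤ 2 * ρ + 1
    · have e5 := hz z c
      have e6 := hz' a z c
      show sd φ ρ F (lact φ a z) + sd φ ρ F' (lact φ a z) ≤ sd φ ρ F z + sd φ ρ F' z + 1
      omega
    · show sd φ ρ F (lact φ a z) + sd φ ρ F' (lact φ a z) ≤ sd φ ρ F z + sd φ ρ F' z + 1
      omega
  · intro a z
    have e1 := ha' a z
    have e2 := hb' a z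
    have e3 := hle z
    have e4 := hle (lact φ a z)
    by_cases c : sd φ ρ F (lact φ a z) ≤ 2 * ρ + 1
    · have e5 := hz _ c
      have e6 := hz' (linv a) _ c
      rw [lact_linv] at e6
      show sd φ ρ F z + sd φ ρ F' z ≤ sd φ ρ F (lact φ a z) + sd φ ρ F' (lact φ a z) + 1
      omega
    · show sd φ ρ F z + sd φ ρ F' z ≤ sd φ ρ F (lact φ a z) + sd φ ρ F' (lact φ a z) + 1
      omega
  · intro z h1 h2
    have e1 := hz z (by omega)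
    have e2 := I.h1 z (by omega) (by omega)
    have e3 := hle (I.θ z)
    have e4 : sd φ ρ F (I.θ z) = 2 * ρ + 2 := by
      by_contra h
      have := hz (I.θ z) (by omega)
      omega
    omega
  · intro z h1 h2
    have e1 := hz z (by omega)
    exact (I.h1 z (by omega) (by omega)).2
  · intro z h1 h2
    have e3 := hle z
    have e4 : sd φ ρ F z = 2 * ρ + 2 := by
      by_contra h
      have := hz z (by omega)
      omega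
    have e2 := I.h2 z (by omega) (by omega)
    have e5 := hz (I.θ' z) (by omega)
    omega
  · intro z h1 h2
    have e3 := hle z
    have e4 : sd φ ρ F z = 2 * ρ + 2 := by
      by_contra h
      have := hz z (by omega)
      omega
    exact (I.h2 z (by omega) (by omega)).2
  · intro a z h1 h2 h3 h4
    have e1 := hz z (by omega)
    have e2 := hz (lact φ a z) (by omega)
    exact I.h3 a z (by omega) (by omega) (by omega) (by omega)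

/-- Points between connected cuts can be moved down. -/
theorem down_of_conn {F F' : Set Ω} (hF : F.Nonempty) (hF' : F'ᶜ.Nonempty)
    (hs : Sep φ ρ F F') {y : Ω} (hy : y ∈ F)
    (hconn : ∀ x ∈ F', Conn (lact φ) (fun z => z ∈ F') x y)
    (W : Win (Fin n × Bool) Ω) (hW : W.act = lact φ) (hi : W.i = ρ + 1) (hj : W.j = 3 * ρ + 3)
    (hd : ∀ z, W.d z = sd φ ρ F z + sd φ ρ F' z) : W.Down := by
  have hsub : F ⊆ F' := fun z hz => hs z hz [] (by simp)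
  have hFc : Fᶜ.Nonempty := hF'.mono (Set.compl_subset_compl.2 hsub)
  have hF'n : F'.Nonempty := hF.mono hsub
  have hj' : ∀ z, W.d z ≤ W.j ↔ z ∈ F' := by
    intro z
    rw [← sd_mem φ ρ hφ htr hF'n hF', hd, hj]
    have h1 := sd_le φ ρ F z
    constructor
    · intro h
      by_cases c : sd φ ρ F z ≤ 2 * ρ + 1
      · rw [sd_sep' φ ρ hφ htr hs hF hF' c]
        omega
      · omega
    · intro h
      omega
  intro x _ h2
  refine ⟨y, ?_, ?_⟩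
  · have h3 := (sd_mem φ ρ hφ htr hF hFc y).2 hy
    rw [hd, hi, sd_sep' φ ρ hφ htr hs hF hF' (by omega)]
    omega
  · have h3 := hconn x ((hj' x).1 h2)
    unfold Conn at h3 ⊢
    rw [hW]
    refine Relation.ReflTransGen.mono ?_ _ _ h3
    rintro u v ⟨h4, h5, h6⟩
    exact ⟨(hj' u).2 h4, (hj' v).2 h5, h6⟩

/-- The attachment of a base with an isomorphic collar. -/
theorem exists_att {Ω₀ : Type*} [MulAction E Ω₀] (htr₀ : ∀ x y : Ω₀, ∃ g : E, g • x = y)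
    {F₀ : Set Ω₀} (hF₀ : F₀.Nonempty) (hF₀' : F₀ᶜ.Nonempty) {F F' : Set Ω} (hs : Sep φ ρ F F')
    (hF : F.Nonempty) (hF' : F'ᶜ.Nonempty)
    (I : WIso ρ (lact φ) (sd φ ρ F₀) (lact φ) (sd φ ρ F))
    (W : Win (Fin n × Bool) Ω) (hW : W.act = lact φ) (hWρ : W.ρ = ρ) (hi : W.i = ρ + 1)
    (hd : ∀ z, W.d z = sd φ ρ F z + sd φ ρ F' z) :
    ∃ A : Att (Fin n × Bool) Ω₀ Ω, A.W = W ∧ A.act₀ = lact φ ∧ A.d₀ = sd φ ρ F₀ := by
  have hz := fun z => sd_sep' φ ρ hφ htr hs hF hF' (z := z)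
  have hle := sd_le φ ρ F
  refine ⟨{ W := W, act₀ := lact φ, d₀ := sd φ ρ F₀, τ := I.θ, τ' := I.θ',
            hd₀ := sd_act φ ρ hφ htr₀ hF₀ hF₀', hd₀' := sd_act' φ ρ hφ htr₀ hF₀ hF₀',
            hτd := ?_, hττ := ?_, hτ'd := ?_, hτ'τ := ?_, heq₀ := ?_ }, rfl, rfl, rfl⟩
  · intro x h1 h2
    rw [hi, hWρ] at h1 h2
    have h3 := I.h1 x (by omega) (by omega)
    rw [hd, hz _ (by omega), h3.1, add_zero]
  · intro x h1 h2
    rw [hi, hWρ] at h1 h2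
    exact (I.h1 x (by omega) (by omega)).2
  · intro x h1 h2
    rw [hi, hWρ, hd] at h1 h2
    have h4 := hz x (by omega)
    have h3 := I.h2 x (by omega) (by omega)
    rw [hd, h4, h3.1, add_zero]
  · intro x h1 h2
    rw [hi, hWρ, hd] at h1 h2
    have h4 := hz x (by omega)
    exact (I.h2 x (by omega) (by omega)).2
  · intro a x h1 h2 h3 h4
    rw [hi, hWρ] at h1 h2 h3 h4
    rw [hW]
    exact I.h3 a x (by omega) (by omega) (by omega) (by omega)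

end

end Pool.Agent.H76.Pump
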