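import Pool.Agent.Lib.H76.Pump.Words

/-!
# Cutting and pasting along two isomorphic windows
-/

namespace Pool.Agent.H76.Pump

/-- Two isomorphic windows (around the levels `i` and `j`) in a set with letters acting. -/
structure Win (L Ω : Type*) where
  act : L → Ω → Ω
  d : Ω → ℕ
  i : ℕ
  j : ℕ
  ρ : ℕ
  θ : Ω → Ω
  θ' : Ω → Ω
  ρ1 : 1 ≤ ρ
  hd : ∀ a x, d (act a x) ≤ d x + 1
  hd' : ∀ a x, d x ≤ d (act a x) + 1
  hj : i + 2 * ρ + 1 ≤ j
  hθd : ∀ x, i ≤ d x + ρ → d x ≤ i + ρ → d (θ x) + i = d x + j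
  hθθ : ∀ x, i ≤ d x + ρ → d x ≤ i + ρ → θ' (θ x) = x
  hθ'd : ∀ x, j ≤ d x + ρ → d x ≤ j + ρ → d (θ' x) + j = d x + i
  hθ'θ : ∀ x, j ≤ d x + ρ → d x ≤ j + ρ → θ (θ' x) = x
  heq : ∀ a x, i ≤ d x + ρ → d x ≤ i + ρ → i ≤ d (act a x) + ρ → d (act a x) ≤ i + ρ →
    θ (act a x) = act a (θ x)

namespace Win

variable {L Ω : Type*} (W : Win L Ω) (os : Prop) [Decidable os]

/-- The glued action of the letters. `os` means one-sided. -/
def F (a : L) (p : Ω × ℤ) : Ω × ℤ :=
  if W.j < W.d (W.act a p.1) then (W.θ' (W.act a p.1), p.2 + 1)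
  else if W.d (W.act a p.1) ≤ W.i ∧ ¬ (os ∧ p.2 = 0) then (W.θ (W.act a p.1), p.2 - 1)
  else (W.act a p.1, p.2)

/-- The glued set. -/
def V (p : Ω × ℤ) : Prop :=
  W.d p.1 ≤ W.j ∧ (W.i < W.d p.1 ∨ (os ∧ p.2 = 0)) ∧ (os → 0 ≤ p.2)

theorem F_up {a : L} {p : Ω × ℤ} (h : W.j < W.d (W.act a p.1)) :
    W.F os a p = (W.θ' (W.act a p.1), p.2 + 1) := by
  unfold F; rw [if_pos h]

theorem F_down {a : L} {p : Ω × ℤ} (h : W.d (W.act a p.1) ≤ W.i) (h2 : ¬ (os ∧ p.2 = 0)) :
    W.F os a p = (W.θ (W.act a p.1), p.2 - 1) := by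
  have hj := W.hj
  unfold F; rw [if_neg (by omega), if_pos ⟨h, h2⟩]

theorem F_mid {a : L} {p : Ω × ℤ} (h : W.d (W.act a p.1) ≤ W.j)
    (h2 : W.i < W.d (W.act a p.1) ∨ (os ∧ p.2 = 0)) :
    W.F os a p = (W.act a p.1, p.2) := by
  unfold F; rw [if_neg (by omega), if_neg]
  rintro ⟨h3, h4⟩
  rcases h2 with h2 | h2
  · omega
  · exact h4 h2

theorem V_F {a : L} {p : Ω × ℤ} (hp : W.V os p) : W.V os (W.F os a p) := by
  obtain ⟨x, k⟩ := p
  obtain ⟨h1, h2, h3⟩ := hp
  simp only at h1 h2 h3
  have hd := W.hd a x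
  have hd' := W.hd' a x
  have hj := W.hj
  have hρ := W.ρ1
  by_cases hu : W.j < W.d (W.act a x)
  · rw [W.F_up os (p := (x, k)) hu]
    have h4 := W.hθ'd (W.act a x) (by omega) (by omega)
    refine ⟨?_, Or.inl ?_, fun ho => ?_⟩
    · show W.d (W.θ' (W.act a x)) ≤ W.j
      omega
    · show W.i < W.d (W.θ' (W.act a x))
      omega
    · show 0 ≤ k + 1
      have := h3 ho
      omega
  · by_cases hl : W.d (W.act a x) ≤ W.i ∧ ¬ (os ∧ k = 0)
    · rw [W.F_down os (p := (x, k)) hl.1 hl.2]
      have h5 : W.i < W.d x := by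
        rcases h2 with h2 | h2
        · exact h2
        · exact absurd h2 hl.2
      have h4 := W.hθd (W.act a x) (by omega) (by omega)
      refine ⟨?_, Or.inl ?_, fun ho => ?_⟩
      · show W.d (W.θ (W.act a x)) ≤ W.j
        omega
      · show W.i < W.d (W.θ (W.act a x))
        omega
      · show 0 ≤ k - 1
        have h6 := h3 ho
        have h7 : k ≠ 0 := fun h => hl.2 ⟨ho, h⟩
        omega
    · have h4 : W.i < W.d (W.act a x) ∨ (os ∧ k = 0) := by
        by_cases h5 : W.d (W.act a x) ≤ W.i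
        · right
          by_contra h6
          exact hl ⟨h5, h6⟩
        · left; omega
      rw [W.F_mid os (p := (x, k)) (by show W.d (W.act a x) ≤ W.j; omega) h4]
      exact ⟨by show W.d (W.act a x) ≤ W.j; omega, h4, h3⟩

/-- Charts: the glued set looks locally like the original one. -/
theorem chart {p : Ω × ℤ} (hp : W.V os p) :
    ∃ (ω : Ω) (h : Ω → Ω × ℤ), h ω = p ∧ ∀ ω' : Ω, W.d ω' < W.d ω + W.ρ → W.d ω < W.d ω' + W.ρ →
      ∀ a : L, h (W.act a ω') = W.F os a (h ω') := by
  obtain ⟨x, k⟩ := p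
  obtain ⟨h1, h2, h3⟩ := hp
  simp only at h1 h2 h3
  have hj := W.hj
  have hρ := W.ρ1
  by_cases c1 : W.j < W.d x + W.ρ
  · -- near the outer boundary
    refine ⟨x, fun ω' => if W.d ω' ≤ W.j then (ω', k) else (W.θ' ω', k + 1), by
      simp only [if_pos h1], fun ω' hl hr a => ?_⟩
    have hd := W.hd a ω'
    have hd' := W.hd' a ω'
    by_cases c2 : W.d ω' ≤ W.j
    · simp only [if_pos c2]
      by_cases c3 : W.d (W.act a ω') ≤ W.j
      · rw [if_pos c3, W.F_mid os (p := (ω', k)) c3]
        left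
        show W.i < W.d (W.act a ω')
        omega
      · rw [if_neg c3, W.F_up os (p := (ω', k)) (by show W.j < W.d (W.act a ω'); omega)]
    · simp only [if_neg c2]
      have h4 := W.hθ'd ω' (by omega) (by omega)
      have h5 := W.hθ'θ ω' (by omega) (by omega)
      have hd2 := W.hd a (W.θ' ω')
      have hd2' := W.hd' a (W.θ' ω')
      have h6 := W.heq a (W.θ' ω') (by omega) (by omega) (by omega) (by omega)
      rw [h5] at h6
      -- `θ (act a (θ' ω')) = act a ω'`
      have h7 := W.hθd (W.act a (W.θ' ω')) (by omega) (by omega)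
      have h8 := W.hθθ (W.act a (W.θ' ω')) (by omega) (by omega)
      rw [h6] at h7 h8
      by_cases c3 : W.d (W.act a ω') ≤ W.j
      · rw [if_pos c3, W.F_down os (p := (W.θ' ω', k + 1))
          (by show W.d (W.act a (W.θ' ω')) ≤ W.i; omega)
          (by rintro ⟨ho, h9⟩; have := h3 ho; simp only at h9; omega)]
        simp only [h6, add_sub_cancel_right]
      · rw [if_neg c3, W.F_mid os (p := (W.θ' ω', k + 1))
          (by show W.d (W.act a (W.θ' ω')) ≤ W.j; omega)
          (by left; show W.i < W.d (W.act a (W.θ' ω')); omega)]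
        rw [h8]
  · by_cases cb : os ∧ k = 0
    · refine ⟨x, fun ω' => (ω', k), rfl, fun ω' hl hr a => ?_⟩
      have hd := W.hd a ω'
      rw [W.F_mid os (p := (ω', k)) (by show W.d (W.act a ω') ≤ W.j; omega) (Or.inr cb)]
    · have h2' : W.i < W.d x := by
        rcases h2 with h2 | h2
        · exact h2
        · exact absurd h2 cb
      by_cases c2 : W.d x ≤ W.i + W.ρ
      · refine ⟨x, fun ω' => if W.i < W.d ω' then (ω', k) else (W.θ ω', k - 1), by
          simp only [if_pos h2'], fun ω' hl hr a => ?_⟩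
        have hd := W.hd a ω'
        have hd' := W.hd' a ω'
        by_cases c3 : W.i < W.d ω'
        · simp only [if_pos c3]
          by_cases c4 : W.i < W.d (W.act a ω')
          · rw [if_pos c4, W.F_mid os (p := (ω', k)) (by show W.d (W.act a ω') ≤ W.j; omega)
              (Or.inl c4)]
          · rw [if_neg c4, W.F_down os (p := (ω', k)) (by show W.d (W.act a ω') ≤ W.i; omega) cb]
        · simp only [if_neg c3]
          have h4 := W.hθd ω' (by omega) (by omega)
          have h6 := W.heq a ω' (by omega) (by omega) (by omega) (by omega)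
          have h7 := W.hθd (W.act a ω') (by omega) (by omega)
          have h8 := W.hθθ (W.act a ω') (by omega) (by omega)
          rw [h6] at h7 h8
          by_cases c4 : W.i < W.d (W.act a ω')
          · rw [if_pos c4, W.F_up os (p := (W.θ ω', k - 1))
              (by show W.j < W.d (W.act a (W.θ ω')); omega)]
            simp only [h8, sub_add_cancel]
          · rw [if_neg c4, W.F_mid os (p := (W.θ ω', k - 1))
              (by show W.d (W.act a (W.θ ω')) ≤ W.j; omega)
              (by left; show W.i < W.d (W.act a (W.θ ω')); omega)]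
            rw [h6]
      · refine ⟨x, fun ω' => (ω', k), rfl, fun ω' hl hr a => ?_⟩
        have hd := W.hd a ω'
        have hd' := W.hd' a ω'
        rw [W.F_mid os (p := (ω', k)) (by show W.d (W.act a ω') ≤ W.j; omega)
          (by left; show W.i < W.d (W.act a ω'); omega)]

theorem d_run (w : List L) (x : Ω) :
    W.d (run W.act w x) ≤ W.d x + w.length ∧ W.d x ≤ W.d (run W.act w x) + w.length := by
  induction w with
  | nil => simp
  | cons a w ih =>
    have h1 := W.hd a (run W.act w x)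
    have h2 := W.hd' a (run W.act w x)
    rw [run_cons, List.length_cons]
    omega

theorem run_F {p : Ω × ℤ} (hp : W.V os p) :
    ∃ (ω : Ω) (h : Ω → Ω × ℤ), h ω = p ∧ ∀ w : List L, w.length ≤ W.ρ →
      run (W.F os) w p = h (run W.act w ω) := by
  obtain ⟨ω, h, h1, h2⟩ := W.chart os hp
  refine ⟨ω, h, h1, fun w => ?_⟩
  induction w with
  | nil => intro _; exact h1.symm
  | cons a w ih =>
    intro hw
    rw [List.length_cons] at hw
    rw [run_cons, run_cons, ih (by omega)]
    obtain ⟨h3, h4⟩ := W.d_run w ω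
    exact (h2 _ (by omega) (by omega) a).symm

/-- Words of length at most `ρ` which act trivially still act trivially. -/
theorem run_eq {w : List L} (hw : w.length ≤ W.ρ) (h : ∀ x, run W.act w x = x) {p : Ω × ℤ}
    (hp : W.V os p) : run (W.F os) w p = p := by
  obtain ⟨ω, g, h1, h2⟩ := W.run_F os hp
  rw [h2 w hw, h, h1]

/-- The action on the glued set. -/
def Fs (a : L) (p : {p : Ω × ℤ // W.V os p}) : {p : Ω × ℤ // W.V os p} :=
  ⟨W.F os a p.1, W.V_F os p.2⟩

theorem run_Fs (w : List L) (p : {p : Ω × ℤ // W.V os p}) :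
    (run (W.Fs os) w p).1 = run (W.F os) w p.1 := by
  induction w with
  | nil => rfl
  | cons a w ih => rw [run_cons, run_cons, ← ih]; rfl

end Win

end Pool.Agent.H76.Pump
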