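import Pool.Agent.Lib.H76.Pump.Win

/-!
# More on the glued sets: shifts, comparison, heights
-/

namespace Pool.Agent.H76.Pump

namespace Win

variable {L Ω : Type*} (W : Win L Ω)

theorem F_snd (os : Prop) [Decidable os] (a : L) (p : Ω × ℤ) :
    (W.F os a p).2 ≤ p.2 + 1 ∧ p.2 - 1 ≤ (W.F os a p).2 := by
  unfold F
  split_ifs <;> simp only <;> omega

/-- the two-sided glued action commutes with the shift -/
theorem F_shift (a : L) (x : Ω) (k c : ℤ) :
    W.F False a (x, k + c) = ((W.F False a (x, k)).1, (W.F False a (x, k)).2 + c) := by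
  unfold F
  simp only [false_and, not_false_eq_true, and_true]
  split_ifs
  · simp only [Prod.mk.injEq, true_and]; ring
  · simp only [Prod.mk.injEq, true_and]; ring
  · rfl

theorem run_shift (w : List L) (x : Ω) (k c : ℤ) :
    run (W.F False) w (x, k + c) =
      ((run (W.F False) w (x, k)).1, (run (W.F False) w (x, k)).2 + c) := by
  induction w with
  | nil => rfl
  | cons a w ih =>
    rw [run_cons, run_cons, ih, W.F_shift]

/-- one-sided and two-sided actions agree away from the bottom -/
theorem F_agree {a : L} {p : Ω × ℤ} (h : p.2 ≠ 0) : W.F True a p = W.F False a p := by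
  unfold F
  simp only [true_and, false_and, not_false_eq_true, and_true, h]

theorem run_snd (os : Prop) [Decidable os] (w : List L) (p : Ω × ℤ) :
    p.2 ≤ (run (W.F os) w p).2 + w.length := by
  induction w with
  | nil => simp
  | cons a w ih =>
    rw [run_cons, List.length_cons]
    have h1 := W.F_snd os a (run (W.F os) w p)
    push_cast
    omega

theorem run_agree {w : List L} {p : Ω × ℤ} (h : (w.length : ℤ) < p.2) :
    run (W.F True) w p = run (W.F False) w p := by
  induction w with
  | nil => rfl
  | cons a w ih =>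
    rw [List.length_cons] at h
    push_cast at h
    rw [run_cons, run_cons, ih (by omega)]
    apply W.F_agree
    have h1 := W.run_snd False w p
    omega

/-- at the bottom the one-sided action is the original one -/
theorem run_base {w : List L} {x : Ω} (h : W.d x + w.length ≤ W.j) :
    run (W.F True) w (x, 0) = (run W.act w x, 0) := by
  induction w with
  | nil => rfl
  | cons a w ih =>
    rw [List.length_cons] at h
    rw [run_cons, run_cons, ih (by omega)]
    have h1 := W.d_run w x
    have h2 := W.hd a (run W.act w x)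
    rw [W.F_mid True (p := (run W.act w x, 0)) (by show W.d (W.act a (run W.act w x)) ≤ W.j; omega)
      (Or.inr ⟨trivial, rfl⟩)]

/-- the height of a point of the glued set -/
def ht (p : Ω × ℤ) : ℤ := W.d p.1 + p.2 * ((W.j : ℤ) - W.i)

/-- from every point of the glued set of positive level one can go down -/
theorem exists_down (os : Prop) [Decidable os] (hdesc : ∀ x, W.d x ≠ 0 → ∃ a, W.d (W.act a x) + 1 = W.d x)
    {p : Ω × ℤ} (hp : W.V os p) (h0 : W.d p.1 ≠ 0) :
    ∃ a, W.ht (W.F os a p) = W.ht p - 1 := by
  obtain ⟨x, k⟩ := p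
  obtain ⟨h1, h2, h3⟩ := hp
  simp only at h1 h2 h3 h0
  obtain ⟨a, ha⟩ := hdesc x h0
  have hj := W.hj
  have hρ := W.ρ1
  refine ⟨a, ?_⟩
  by_cases hl : W.d (W.act a x) ≤ W.i ∧ ¬ (os ∧ k = 0)
  · rw [W.F_down os (p := (x, k)) hl.1 hl.2]
    have h5 : W.i < W.d x := by
      rcases h2 with h2 | h2
      · exact h2
      · exact absurd h2 hl.2
    have h4 := W.hθd (W.act a x) (by omega) (by omega)
    have h6 : W.d (W.θ (W.act a x)) = W.j := by omega
    have h7 : W.d x = W.i + 1 := by omega
    unfold ht
    simp only [h6, h7]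
    push_cast
    ring
  · have h4 : W.i < W.d (W.act a x) ∨ (os ∧ k = 0) := by
      by_cases h5 : W.d (W.act a x) ≤ W.i
      · right
        by_contra h6
        exact hl ⟨h5, h6⟩
      · left; omega
    rw [W.F_mid os (p := (x, k)) (by show W.d (W.act a x) ≤ W.j; omega) h4]
    unfold ht
    simp only
    have h5 : (W.d x : ℤ) = W.d (W.act a x) + 1 := by exact_mod_cast ha.symm
    rw [h5]
    ring

/-- every orbit of the two-sided action reaches arbitrarily low heights -/
theorem exists_low (hdesc : ∀ x, W.d x ≠ 0 → ∃ a, W.d (W.act a x) + 1 = W.d x)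
    {p : Ω × ℤ} (hp : W.V False p) (N : ℕ) :
    ∃ w : List L, W.ht (run (W.F False) w p) = W.ht p - N ∧ W.V False (run (W.F False) w p) := by
  induction N with
  | zero => exact ⟨[], by simp, hp⟩
  | succ N ih =>
    obtain ⟨w, h1, h2⟩ := ih
    have h3 : W.d (run (W.F False) w p).1 ≠ 0 := by
      have h4 := h2.2.1
      simp only [false_and, or_false] at h4
      omega
    obtain ⟨a, ha⟩ := W.exists_down False hdesc h2 h3
    refine ⟨a :: w, ?_, W.V_F False h2⟩
    rw [run_cons, ha, h1]
    push_cast
    ring

/-- every point of the one-sided glued set can be moved to the bottom point -/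
theorem exists_bottom (hdesc : ∀ x, W.d x ≠ 0 → ∃ a, W.d (W.act a x) + 1 = W.d x) (N : ℕ) :
    ∀ {p : Ω × ℤ}, W.V True p → W.ht p = N →
    ∃ w : List L, W.d (run (W.F True) w p).1 = 0 ∧ (run (W.F True) w p).2 = 0 := by
  have hj := W.hj
  induction N with
  | zero =>
    intro p hp h
    refine ⟨[], ?_⟩
    have h1 := hp.2.2 trivial
    have h2 := hp.2.1
    simp only [true_and] at h2
    unfold ht at h
    have h3 : (0 : ℤ) < (W.j : ℤ) - W.i := by omega
    have h4 : 0 ≤ p.2 * ((W.j : ℤ) - W.i) := by positivity
    simp only [run_nil]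
    have h5 : (W.d p.1 : ℤ) = 0 := by
      have : (0 : ℤ) ≤ W.d p.1 := by positivity
      push_cast at h
      omega
    have h6 : W.d p.1 = 0 := by exact_mod_cast h5
    refine ⟨h6, ?_⟩
    rcases h2 with h2 | h2
    · omega
    · exact h2
  | succ N ih =>
    intro p hp h
    have h1 := hp.2.2 trivial
    have h2 := hp.2.1
    simp only [true_and] at h2
    by_cases h3 : W.d p.1 = 0
    · exfalso
      rcases h2 with h2 | h2
      · omega
      · unfold ht at h
        rw [h3, h2] at h
        push_cast at h
        omega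
    · obtain ⟨a, ha⟩ := W.exists_down True hdesc hp h3
      obtain ⟨w, hw⟩ := ih (W.V_F True hp) (p := W.F True a p) (by
        rw [ha, h]; push_cast; ring)
      refine ⟨w ++ [a], ?_⟩
      rw [run_append]
      exact hw

end Win

end Pool.Agent.H76.Pump
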