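import Mathlib

/-!
# Words, letters and homomorphisms defined on a finitely presented group
-/

namespace Pool.Agent.H76.Pump

universe u v

/-- Run a word: apply its letters, the last one first. -/
def run {L : Type*} {X : Type*} (f : L → X → X) (w : List L) (x : X) : X := w.foldr f x

@[simp] theorem run_nil {L X : Type*} (f : L → X → X) (x : X) : run f [] x = x := rfl

@[simp] theorem run_cons {L X : Type*} (f : L → X → X) (a : L) (w : List L) (x : X) :
    run f (a :: w) x = f a (run f w x) := rfl

theorem run_append {L X : Type*} (f : L → X → X) (w w' : List L) (x : X) :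
    run f (w ++ w') x = run f w (run f w' x) := by
  simp [run]

/-- The element given by a letter. -/
def lval {n : ℕ} {E : Type*} [Group E] (φ : FreeGroup (Fin n) →* E) (a : Fin n × Bool) : E :=
  φ (FreeGroup.mk [a])

/-- the inverse letter -/
def linv {n : ℕ} (a : Fin n × Bool) : Fin n × Bool := (a.1, !a.2)

@[simp] theorem linv_linv {n : ℕ} (a : Fin n × Bool) : linv (linv a) = a := by
  simp [linv]

theorem lval_linv {n : ℕ} {E : Type*} [Group E] (φ : FreeGroup (Fin n) →* E)
    (a : Fin n × Bool) : lval φ (linv a) = (lval φ a)⁻¹ := by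
  unfold lval
  rw [← map_inv, FreeGroup.inv_mk]
  rfl

/-- the action of letters on an `E`-set -/
def lact {n : ℕ} {E : Type*} [Group E] (φ : FreeGroup (Fin n) →* E) {Ω : Type*} [MulAction E Ω]
    (a : Fin n × Bool) (x : Ω) : Ω := lval φ a • x

theorem run_lact {n : ℕ} {E : Type*} [Group E] (φ : FreeGroup (Fin n) →* E) {Ω : Type*}
    [MulAction E Ω] (w : List (Fin n × Bool)) (x : Ω) :
    run (lact φ) w x = φ (FreeGroup.mk w) • x := by
  induction w with
  | nil =>
    have h1 : (FreeGroup.mk [] : FreeGroup (Fin n)) = 1 := rfl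
    rw [run_nil, h1, map_one, one_smul]
  | cons a w ih =>
    have h1 : (FreeGroup.mk (a :: w) : FreeGroup (Fin n)) = FreeGroup.mk [a] * FreeGroup.mk w := by
      rw [FreeGroup.mul_mk]
      rfl
    rw [run_cons, ih, h1, map_mul, mul_smul]
    rfl

@[simp] theorem lact_linv {n : ℕ} {E : Type*} [Group E] (φ : FreeGroup (Fin n) →* E) {Ω : Type*}
    [MulAction E Ω] (a : Fin n × Bool) (x : Ω) : lact φ (linv a) (lact φ a x) = x := by
  unfold lact
  rw [lval_linv, inv_smul_smul]

@[simp] theorem lact_linv' {n : ℕ} {E : Type*} [Group E] (φ : FreeGroup (Fin n) →* E) {Ω : Type*}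
    [MulAction E Ω] (a : Fin n × Bool) (x : Ω) : lact φ a (lact φ (linv a) x) = x := by
  unfold lact
  rw [lval_linv, smul_inv_smul]

/-- Letters acting by permutations which satisfy the relators give an action. -/
theorem exists_hom {n : ℕ} {E : Type u} [Group E] (φ : FreeGroup (Fin n) →* E)
    (hφ : Function.Surjective φ) (R : Set (FreeGroup (Fin n)))
    (hR : Subgroup.normalClosure R = φ.ker) {Y : Type v} (F : Fin n × Bool → Y → Y)
    (hinv : ∀ a y, F (linv a) (F a y) = y)
    (hrel : ∀ r ∈ R, ∀ y, run F r.toWord y = y) :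
    ∃ Φ : E →* Equiv.Perm Y, ∀ (w : List (Fin n × Bool)) (y : Y),
      Φ (φ (FreeGroup.mk w)) y = run F w y := by
  let p : Fin n → Equiv.Perm Y := fun i =>
    { toFun := F (i, true)
      invFun := F (i, false)
      left_inv := fun y => hinv (i, true) y
      right_inv := fun y => hinv (i, false) y }
  let ψ : FreeGroup (Fin n) →* Equiv.Perm Y := FreeGroup.lift p
  have hψ : ∀ (w : List (Fin n × Bool)) (y : Y), ψ (FreeGroup.mk w) y = run F w y := by
    intro w y
    induction w with
    | nil =>
      have h1 : (FreeGroup.mk [] : FreeGroup (Fin n)) = 1 := rfl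
      rw [h1, map_one]
      rfl
    | cons a w ih =>
      have h1 : (FreeGroup.mk (a :: w) : FreeGroup (Fin n)) =
          FreeGroup.mk [a] * FreeGroup.mk w := by
        rw [FreeGroup.mul_mk]
        rfl
      rw [h1, map_mul, Equiv.Perm.mul_apply, ih, run_cons]
      obtain ⟨i, b⟩ := a
      cases b
      · have h2 : (FreeGroup.mk [(i, false)] : FreeGroup (Fin n)) = (FreeGroup.of i)⁻¹ := rfl
        rw [h2, map_inv, FreeGroup.lift_apply_of]
        rfl
      · have h2 : (FreeGroup.mk [(i, true)] : FreeGroup (Fin n)) = FreeGroup.of i := rfl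
        rw [h2, FreeGroup.lift_apply_of]
        rfl
  have hker : φ.ker ≤ ψ.ker := by
    rw [← hR]
    apply Subgroup.normalClosure_le_normal
    intro r hr
    rw [SetLike.mem_coe, MonoidHom.mem_ker]
    ext y
    rw [← FreeGroup.mk_toWord (x := r), hψ, hrel r hr]
    rfl
  refine ⟨φ.liftOfSurjective hφ ⟨ψ, hker⟩, fun w y => ?_⟩
  rw [← hψ w y]
  congr 1
  exact φ.liftOfRightInverse_comp_apply _ (Function.rightInverse_surjInv hφ) ⟨ψ, hker⟩
    (FreeGroup.mk w)

end Pool.Agent.H76.Pump
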